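import Pool.Agent.Work.MP_8f25a0_lc.Gauss

/-!
# One adaptive query in the Gaussian model: the potential argument
-/

namespace Pool.Agent.Work.MP_8f25a0_lc

open MeasureTheory Finset

set_option linter.unusedSectionVars false

variable {E : Type*} [NormedAddCommGroup E] [InnerProductSpace ℝ E] [FiniteDimensional ℝ E]
  [MeasurableSpace E] [BorelSpace E]

open scoped RealInnerProductSpace

variable {K : ℕ} (e : Fin K → E) (Λ : ℝ)

/-- Gram matrix of the projections -/
noncomputable def GV (V : Submodule ℝ E) (B B' : Fin K) : ℝ :=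
  ⟪V.starProjection (e B), V.starProjection (e B')⟫

/-- likelihood ratio given the projection to `V` -/
noncomputable def LL (V : Submodule ℝ E) (B : Fin K) (z : E) : ℝ :=
  Real.exp (Λ * ⟪V.starProjection (e B), z⟫ - Λ ^ 2 * ‖V.starProjection (e B)‖ ^ 2 / 2)

/-- the second moments of the likelihood ratios -/
noncomputable def aa (V : Submodule ℝ E) (R : Set E) (B B' : Fin K) : ℝ :=
  Real.exp (Λ ^ 2 * GV e V B B') * gp (Λ • (e B + e B')) R

theorem aa_nonneg (V : Submodule ℝ E) (R : Set E) (B B' : Fin K) : 0 ≤ aa e Λ V R B B' :=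
  mul_nonneg (Real.exp_pos _).le (gp_nonneg _ _)

theorem LL_mul (V : Submodule ℝ E) (B B' : Fin K) (z : E) :
    LL e Λ V B z * LL e Λ V B' z = Real.exp (Λ ^ 2 * GV e V B B') *
      Real.exp (⟪V.starProjection (Λ • (e B + e B')), z⟫ -
        ‖V.starProjection (Λ • (e B + e B'))‖ ^ 2 / 2) := by
  unfold LL GV
  rw [← Real.exp_add, ← Real.exp_add, map_smul, map_add, real_inner_smul_left, inner_add_left,
    norm_smul, mul_pow, norm_add_sq_real, Real.norm_eq_abs, sq_abs]
  congr 1
  ring

theorem integrable_LL_mul (V : Submodule ℝ E) (B B' : Fin K) :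
    Integrable (fun z => LL e Λ V B z * LL e Λ V B' z * wt z) := by
  simp_rw [LL_mul, mul_assoc]
  apply Integrable.const_mul
  exact integrable_exp_wt _ _

theorem integrable_LL (V : Submodule ℝ E) (B : Fin K) :
    Integrable (fun z => LL e Λ V B z * wt z) := by
  have h := integrable_exp_wt (Λ • V.starProjection (e B))
    (-(Λ ^ 2 * ‖V.starProjection (e B)‖ ^ 2 / 2))
  refine h.congr (Filter.Eventually.of_forall fun z => ?_)
  unfold LL
  simp only [real_inner_smul_left]
  congr 2

variable {R : Set E} {V : Submodule ℝ E}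

theorem int_LL_mul (hR : MeasurableSet R) (hV : Inv' V R) (B B' : Fin K) :
    ∫ z in R, LL e Λ V B z * LL e Λ V B' z * wt z = aa e Λ V R B B' := by
  simp_rw [LL_mul, mul_assoc]
  rw [integral_const_mul, gp_eq, gp_proj hR hV]
  rfl

theorem int_LL (hR : MeasurableSet R) (hV : Inv' V R) (B : Fin K) :
    ∫ z in R, LL e Λ V B z * wt z = gp (Λ • e B) R := by
  rw [← gp_proj hR hV, ← gp_eq]
  congr 1
  funext z
  unfold LL
  rw [map_smul, real_inner_smul_left, norm_smul, mul_pow, Real.norm_eq_abs, sq_abs]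

/-- positivity of the matrix of second moments, with Gram weights -/
theorem gram_nonneg (hR : MeasurableSet R) (hV : Inv' V R) {F : Type*} [NormedAddCommGroup F]
    [InnerProductSpace ℝ F] (c : Fin K → ℝ) (v : Fin K → F) :
    0 ≤ ∑ B, ∑ B', aa e Λ V R B B' * (c B * c B' * inner ℝ (v B) (v B')) := by
  have h : ∑ B, ∑ B', aa e Λ V R B B' * (c B * c B' * inner ℝ (v B) (v B')) =
      ∫ z in R, ‖∑ B, (LL e Λ V B z * c B) • v B‖ ^ 2 * wt z := by
    have h1 : ∀ z, ‖∑ B, (LL e Λ V B z * c B) • v B‖ ^ 2 * wt z =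
        ∑ B, ∑ B', (LL e Λ V B z * LL e Λ V B' z * wt z) * (c B * c B' * inner ℝ (v B) (v B')) := by
      intro z
      rw [← real_inner_self_eq_norm_sq, sum_inner, sum_mul]
      apply sum_congr rfl
      intro B _
      rw [inner_sum, sum_mul]
      apply sum_congr rfl
      intro B' _
      rw [real_inner_smul_left, real_inner_smul_right]
      ring
    simp_rw [h1]
    rw [integral_finsetSum]
    · apply sum_congr rfl
      intro B _
      rw [integral_finsetSum]
      · apply sum_congr rfl
        intro B' _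
        rw [integral_mul_const, int_LL_mul e Λ hR hV]
      · intro B' _
        exact ((integrable_LL_mul e Λ V B B').mul_const _).integrableOn
    · intro B _
      apply integrable_finsetSum
      intro B' _
      exact ((integrable_LL_mul e Λ V B B').mul_const _).integrableOn
  rw [h]
  exact integral_nonneg fun z => mul_nonneg (sq_nonneg _) (wt_pos z).le

theorem aa_le (hR : MeasurableSet R) (hV : Inv' V R) (B B' : Fin K) :
    aa e Λ V R B B' ≤ (aa e Λ V R B B + aa e Λ V R B' B') / 2 := by
  rw [← int_LL_mul e Λ hR hV, ← int_LL_mul e Λ hR hV, ← int_LL_mul e Λ hR hV]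
  rw [← integral_add (integrable_LL_mul e Λ V B B).integrableOn
    (integrable_LL_mul e Λ V B' B').integrableOn, div_eq_mul_inv, ← integral_mul_const]
  apply integral_mono (integrable_LL_mul e Λ V B B').integrableOn
    (((integrable_LL_mul e Λ V B B).add (integrable_LL_mul e Λ V B' B')).mul_const _).integrableOn
  intro z
  show LL e Λ V B z * LL e Λ V B' z * wt z ≤
    (LL e Λ V B z * LL e Λ V B z * wt z + LL e Λ V B' z * LL e Λ V B' z * wt z) * 2⁻¹
  nlinarith [wt_pos z, mul_nonneg (sq_nonneg (LL e Λ V B z - LL e Λ V B' z)) (wt_pos z).le]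

theorem exp_sub_le {y ym : ℝ} (h : |y| ≤ ym) : Real.exp y - 1 - y ≤ Real.exp ym * y ^ 2 := by
  have h1 : Real.exp y - 1 ≤ y * Real.exp y := by
    have h2 := Real.add_one_le_exp (-y)
    have h3 : Real.exp y * Real.exp (-y) = 1 := by rw [← Real.exp_add]; simp
    nlinarith [Real.exp_pos y]
  have hym : 0 ≤ ym := (abs_nonneg y).trans h
  have hM : 1 ≤ Real.exp ym := Real.one_le_exp hym
  rcases le_or_gt 0 y with hy | hy
  · have h4 : Real.exp y ≤ Real.exp ym := Real.exp_le_exp.mpr ((le_abs_self y).trans h)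
    have h5 : Real.exp y - 1 - y ≤ y * (y * Real.exp y) := by
      have : y * (Real.exp y - 1) ≤ y * (y * Real.exp y) := mul_le_mul_of_nonneg_left h1 hy
      nlinarith
    nlinarith [mul_le_mul_of_nonneg_left h4 (sq_nonneg y)]
  · have h6 : 1 - Real.exp y ≤ -y := by have := Real.add_one_le_exp y; linarith
    have h7 : Real.exp y - 1 - y ≤ y * (Real.exp y - 1) := by nlinarith
    have h8 : y * (Real.exp y - 1) ≤ y ^ 2 := by nlinarith
    nlinarith [sq_nonneg y]

/-- adding one vector to the space -/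
theorem exists_ext (V : Submodule ℝ E) (r : E) : ∃ u : E, (u = 0 ∨ ‖u‖ = 1) ∧ u ∈ Vᗮ ∧
    ∀ x, (V ⊔ Submodule.span ℝ {r}).starProjection x = V.starProjection x + ⟪u, x⟫ • u := by
  set s := r - V.starProjection r with hs
  have hsV : s ∈ Vᗮ := Submodule.sub_starProjection_mem_orthogonal r
  by_cases h0 : s = 0
  · refine ⟨0, Or.inl rfl, Submodule.zero_mem _, fun x => ?_⟩
    have hr : r ∈ V := by
      have h1 : r = V.starProjection r := by
        rw [← sub_eq_zero, ← hs]; exact h0
      have h2 := Submodule.starProjection_apply_mem V r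
      rwa [← h1] at h2
    have hV : V ⊔ Submodule.span ℝ {r} = V := by
      rw [sup_eq_left, Submodule.span_singleton_le_iff_mem]; exact hr
    simp only [hV, smul_zero, add_zero]
  · have hns : ‖s‖ ≠ 0 := norm_ne_zero_iff.mpr h0
    set u := (‖s‖)⁻¹ • s with hu
    have hun : ‖u‖ = 1 := by
      rw [hu, norm_smul, norm_inv, norm_norm, inv_mul_cancel₀ hns]
    have huV : u ∈ Vᗮ := Submodule.smul_mem _ _ hsV
    have hsu : s = ‖s‖ • u := by rw [hu, smul_smul, mul_inv_cancel₀ hns, one_smul]
    refine ⟨u, Or.inr hun, huV, fun x => ?_⟩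
    have hrV' : r ∈ V ⊔ Submodule.span ℝ {r} :=
      Submodule.mem_sup_right (Submodule.mem_span_singleton_self r)
    have hle : V ≤ V ⊔ Submodule.span ℝ {r} := le_sup_left
    have hsV' : s ∈ V ⊔ Submodule.span ℝ {r} :=
      Submodule.sub_mem _ hrV' (hle (Submodule.starProjection_apply_mem V r))
    have huV' : u ∈ V ⊔ Submodule.span ℝ {r} := Submodule.smul_mem _ _ hsV'
    apply Submodule.eq_starProjection_of_mem_of_inner_eq_zero
    · exact Submodule.add_mem _ (hle (Submodule.starProjection_apply_mem V x))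
        (Submodule.smul_mem _ _ huV')
    · intro w hw
      obtain ⟨w1, hw1, w2, hw2, rfl⟩ := Submodule.mem_sup.mp hw
      obtain ⟨c, rfl⟩ := Submodule.mem_span_singleton.mp hw2
      have hr : r = V.starProjection r + ‖s‖ • u := by rw [← hsu, hs]; abel
      have e1 : ∀ v ∈ V, ⟪x - (V.starProjection x + ⟪u, x⟫ • u), v⟫ = 0 := by
        intro v hv
        have h1 : ⟪x - V.starProjection x, v⟫ = 0 := Submodule.starProjection_inner_eq_zero x v hv
        have h2 : ⟪u, v⟫ = 0 := Submodule.inner_left_of_mem_orthogonal hv huV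
        rw [← sub_sub, inner_sub_left, h1, real_inner_smul_left, h2]
        ring
      have e2 : ⟪x - (V.starProjection x + ⟪u, x⟫ • u), u⟫ = 0 := by
        have h1 : ⟪V.starProjection x, u⟫ = 0 :=
          Submodule.inner_right_of_mem_orthogonal (Submodule.starProjection_apply_mem V x) huV
        rw [inner_sub_left, inner_add_left, h1, real_inner_smul_left, real_inner_self_eq_norm_sq,
          hun, real_inner_comm x u]
        ring
      rw [hr, smul_add, inner_add_right, e1 w1 hw1, inner_add_right, real_inner_smul_right,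
        e1 _ (Submodule.starProjection_apply_mem V r), real_inner_smul_right,
        real_inner_smul_right, e2]
      ring

/-- the squared error -/
noncomputable def S0 (V : Submodule ℝ E) (R : Set E) : ℝ :=
  (∑ B, ∑ B', aa e Λ V R B B') - 2 * K * ∑ B, gp (Λ • e B) R + K ^ 2 * gp (0 : E) R

/-- the energy orthogonal to `V` -/
noncomputable def S1 (V : Submodule ℝ E) (R : Set E) : ℝ :=
  ∑ B, ∑ B', aa e Λ V R B B' * ((if B = B' then 1 else 0) - GV e V B B')

/-- the sum of the second moments -/
noncomputable def TT (V : Submodule ℝ E) (R : Set E) : ℝ := ∑ B, aa e Λ V R B B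

theorem S1_nonneg (he : Orthonormal ℝ e) (hR : MeasurableSet R) (hV : Inv' V R) :
    0 ≤ S1 e Λ V R := by
  have h := gram_nonneg e Λ hR hV (fun _ => 1) (fun B => e B - V.starProjection (e B))
  unfold S1
  refine h.trans (le_of_eq ?_)
  apply sum_congr rfl
  intro B _
  apply sum_congr rfl
  intro B' _
  congr 1
  have h1 : ⟪e B, e B'⟫ = if B = B' then 1 else 0 := orthonormal_iff_ite.mp he B B'
  have h2 : ⟪e B - V.starProjection (e B), V.starProjection (e B')⟫ = 0 :=
    Submodule.starProjection_inner_eq_zero _ _ (Submodule.starProjection_apply_mem V _)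
  have h3 : ⟪e B' - V.starProjection (e B'), V.starProjection (e B)⟫ = 0 :=
    Submodule.starProjection_inner_eq_zero _ _ (Submodule.starProjection_apply_mem V _)
  rw [inner_sub_left] at h2 h3
  unfold GV
  rw [inner_sub_left, inner_sub_right, inner_sub_right, h1,
    real_inner_comm (e B') (V.starProjection (e B))]
  have h4 := real_inner_comm (V.starProjection (e B)) (V.starProjection (e B'))
  linarith

theorem GV_nonneg (V : Submodule ℝ E) (B : Fin K) : 0 ≤ GV e V B B := real_inner_self_nonneg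

theorem step (he : Orthonormal ℝ e) (hR : MeasurableSet R) (hV : Inv' V R) (r : E) {ym : ℝ}
    (hym : ∀ B, Λ ^ 2 * GV e (V ⊔ Submodule.span ℝ {r}) B B ≤ ym) {M D : ℝ}
    (hM : M = Real.exp ym) (hD : D = M * Λ ^ 2 + Λ ^ 2 + M * Λ ^ 4) :
    S0 e Λ (V ⊔ Submodule.span ℝ {r}) R + Λ ^ 2 * S1 e Λ (V ⊔ Submodule.span ℝ {r}) R -
      D * TT e Λ (V ⊔ Submodule.span ℝ {r}) R ≤
    S0 e Λ V R + Λ ^ 2 * S1 e Λ V R - D * TT e Λ V R := by
  obtain ⟨u, hu, huV, hext⟩ := exists_ext V r
  set V' := V ⊔ Submodule.span ℝ {r} with hV'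
  set l : Fin K → ℝ := fun B => ⟪u, e B⟫ with hl
  have hM0 : 0 < M := by rw [hM]; exact Real.exp_pos _
  have hD0 : 0 ≤ D := by rw [hD]; positivity
  -- the Gram matrix of `V'`
  have hG : ∀ B B', GV e V' B B' = GV e V B B' + l B * l B' := by
    intro B B'
    unfold GV
    rw [hext, hext, inner_add_left, inner_add_right, inner_add_right, real_inner_smul_left,
      real_inner_smul_right, real_inner_smul_right, real_inner_smul_left,
      real_inner_self_eq_norm_sq]
    have h1 : ⟪V.starProjection (e B), u⟫ = 0 :=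
      Submodule.inner_right_of_mem_orthogonal (Submodule.starProjection_apply_mem V _) huV
    have h2 : ⟪u, V.starProjection (e B')⟫ = 0 :=
      Submodule.inner_left_of_mem_orthogonal (Submodule.starProjection_apply_mem V _) huV
    rw [h1, h2]
    rcases hu with hu | hu
    · simp [hl, hu]
    · rw [hu]; simp only [hl]; ring
  have hl1 : ∑ B, l B ^ 2 ≤ 1 := by
    have h := he.sum_inner_products_le (s := univ) (x := u)
    have h2 : ‖u‖ ^ 2 ≤ 1 := by
      rcases hu with hu | hu
      · rw [hu]; simp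
      · rw [hu]; norm_num
    refine le_trans (le_of_eq ?_) (h.trans h2)
    apply sum_congr rfl
    intro B _
    simp only [hl]
    rw [real_inner_comm, Real.norm_eq_abs, sq_abs]
  have hly : ∀ B, Λ ^ 2 * l B ^ 2 ≤ ym := by
    intro B
    have h1 := hym B
    rw [hG] at h1
    have h2 := GV_nonneg e V B
    nlinarith [sq_nonneg Λ, mul_nonneg (sq_nonneg Λ) h2]
  set y : Fin K → Fin K → ℝ := fun B B' => Λ ^ 2 * (l B * l B') with hy
  have hyb : ∀ B B', |y B B'| ≤ ym := by
    intro B B'
    have h1 := hly B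
    have h2 := hly B'
    rw [abs_le]
    simp only [hy]
    constructor
    · nlinarith [sq_nonneg (l B + l B'), sq_nonneg Λ, mul_nonneg (sq_nonneg Λ) (sq_nonneg (l B + l B'))]
    · nlinarith [sq_nonneg (l B - l B'), sq_nonneg Λ, mul_nonneg (sq_nonneg Λ) (sq_nonneg (l B - l B'))]
  set a := aa e Λ V R with ha
  have ha0 : ∀ B B', 0 ≤ a B B' := fun B B' => aa_nonneg e Λ V R B B'
  have haV' : ∀ B B', aa e Λ V' R B B' = a B B' * Real.exp (y B B') := by
    intro B B'
    simp only [ha, hy, aa]
    rw [hG, mul_add, Real.exp_add]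
    ring
  set ρ : Fin K → Fin K → ℝ := fun B B' => Real.exp (y B B') - 1 - y B B' with hρ
  have hρ0 : ∀ B B', 0 ≤ ρ B B' := by
    intro B B'
    have := Real.add_one_le_exp (y B B')
    simp only [hρ]; linarith
  have hρM : ∀ B B', ρ B B' ≤ M * y B B' ^ 2 := by
    intro B B'
    rw [hM]; exact exp_sub_le (hyb B B')
  set N : Fin K → Fin K → ℝ := fun B B' => (if B = B' then 1 else 0) - GV e V' B B' with hN
  have hN1 : ∀ B B', N B B' ≤ 1 := by
    intro B B'
    have h1 : ⟪e B, e B'⟫ = if B = B' then 1 else 0 := orthonormal_iff_ite.mp he B B'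
    have h2 : ⟪e B - V'.starProjection (e B), V'.starProjection (e B')⟫ = 0 :=
      Submodule.starProjection_inner_eq_zero _ _ (Submodule.starProjection_apply_mem V' _)
    have h3 : ⟪e B' - V'.starProjection (e B'), V'.starProjection (e B)⟫ = 0 :=
      Submodule.starProjection_inner_eq_zero _ _ (Submodule.starProjection_apply_mem V' _)
    have h5 : N B B' = ⟪e B - V'.starProjection (e B), e B'⟫ := by
      simp only [hN]
      rw [inner_sub_left, h1]
      rw [inner_sub_left] at h3
      have c1 : ⟪e B', V'.starProjection (e B)⟫ = ⟪V'.starProjection (e B), e B'⟫ :=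
        real_inner_comm _ _
      have c2 : ⟪V'.starProjection (e B'), V'.starProjection (e B)⟫ =
        ⟪V'.starProjection (e B), V'.starProjection (e B')⟫ := real_inner_comm _ _
      unfold GV
      linarith
    have h6 : ‖e B - V'.starProjection (e B)‖ ≤ 1 := by
      have h7 : ‖e B - V'.starProjection (e B)‖ ^ 2 ≤ 1 := by
        have h8 : ⟪e B - V'.starProjection (e B), V'.starProjection (e B)⟫ = 0 :=
          Submodule.starProjection_inner_eq_zero _ _ (Submodule.starProjection_apply_mem V' _)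
        have h9 : ‖e B‖ ^ 2 = ‖e B - V'.starProjection (e B)‖ ^ 2 +
            ‖V'.starProjection (e B)‖ ^ 2 := by
          conv_lhs => rw [← sub_add_cancel (e B) (V'.starProjection (e B))]
          rw [norm_add_sq_real, h8]
          ring
        rw [he.1 B] at h9
        nlinarith [sq_nonneg ‖V'.starProjection (e B)‖]
      nlinarith [norm_nonneg (e B - V'.starProjection (e B))]
    rw [h5]
    calc ⟪e B - V'.starProjection (e B), e B'⟫ ≤ ‖e B - V'.starProjection (e B)‖ * ‖e B'‖ :=
          real_inner_le_norm _ _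
      _ ≤ 1 := by rw [he.1 B', mul_one]; exact h6
  -- the sums
  set Z := ∑ B, a B B * l B ^ 2 with hZ
  have hZ0 : 0 ≤ Z := sum_nonneg fun B _ => mul_nonneg (ha0 B B) (sq_nonneg _)
  have b1 : ∑ B, ∑ B', a B B' * ρ B B' ≤ M * Λ ^ 4 * Z := by
    have h1 : ∑ B, ∑ B', a B B' * (l B ^ 2 * l B' ^ 2) ≤ Z := by
      calc ∑ B, ∑ B', a B B' * (l B ^ 2 * l B' ^ 2)
          ≤ ∑ B, ∑ B', ((a B B + a B' B') / 2) * (l B ^ 2 * l B' ^ 2) := by
            apply sum_le_sum; intro B _
            apply sum_le_sum; intro B' _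
            exact mul_le_mul_of_nonneg_right (aa_le e Λ hR hV B B') (by positivity)
        _ = ∑ B, ∑ B', ((a B B * l B ^ 2) * l B' ^ 2 / 2 + (a B' B' * l B' ^ 2) * l B ^ 2 / 2) := by
            apply sum_congr rfl; intro B _
            apply sum_congr rfl; intro B' _
            ring
        _ = Z * (∑ B, l B ^ 2) := by
            simp_rw [sum_add_distrib]
            have e1 : ∑ B, ∑ B', (a B B * l B ^ 2) * l B' ^ 2 / 2 = Z * (∑ B, l B ^ 2) / 2 := by
              rw [hZ, sum_mul_sum, sum_div]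
              apply sum_congr rfl; intro B _
              rw [sum_div]
            have e2 : ∑ B, ∑ B', (a B' B' * l B' ^ 2) * l B ^ 2 / 2 = Z * (∑ B, l B ^ 2) / 2 := by
              rw [sum_comm]; exact e1
            rw [e1, e2]; ring
        _ ≤ Z * 1 := mul_le_mul_of_nonneg_left hl1 hZ0
        _ = Z := mul_one _
    calc ∑ B, ∑ B', a B B' * ρ B B' ≤ ∑ B, ∑ B', M * Λ ^ 4 * (a B B' * (l B ^ 2 * l B' ^ 2)) := by
          apply sum_le_sum; intro B _
          apply sum_le_sum; intro B' _
          calc a B B' * ρ B B' ≤ a B B' * (M * y B B' ^ 2) :=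
                mul_le_mul_of_nonneg_left (hρM B B') (ha0 B B')
            _ = _ := by simp only [hy]; ring
      _ = M * Λ ^ 4 * ∑ B, ∑ B', a B B' * (l B ^ 2 * l B' ^ 2) := by
          rw [mul_sum]
          apply sum_congr rfl; intro B _
          rw [mul_sum]
      _ ≤ M * Λ ^ 4 * Z := mul_le_mul_of_nonneg_left h1 (by positivity)
  have b2 : ∑ B, ∑ B', a B B' * (ρ B B' * N B B') ≤ M * Λ ^ 4 * Z := by
    refine le_trans ?_ b1
    apply sum_le_sum; intro B _
    apply sum_le_sum; intro B' _
    apply mul_le_mul_of_nonneg_left _ (ha0 B B')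
    nlinarith [hρ0 B B', hN1 B B']
  have b3 : ∑ B, ∑ B', a B B' * (y B B' * N B B') ≤ Λ ^ 2 * Z := by
    have h1 := gram_nonneg e Λ hR hV l (fun B => V'.starProjection (e B))
    have h2 : ∑ B, ∑ B', a B B' * (y B B' * N B B') =
        Λ ^ 2 * (Z - ∑ B, ∑ B', a B B' * (l B * l B' *
          ⟪V'.starProjection (e B), V'.starProjection (e B')⟫)) := by
      have h3 : Z = ∑ B, ∑ B', a B B' * (l B * l B' * if B = B' then 1 else 0) := by
        rw [hZ]
        apply sum_congr rfl; intro B _
        rw [sum_eq_single B]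
        · rw [if_pos rfl]; ring
        · intro B' _ hne; simp [hne.symm]
        · simp
      rw [h3, ← sum_sub_distrib, mul_sum]
      apply sum_congr rfl; intro B _
      rw [← sum_sub_distrib, mul_sum]
      apply sum_congr rfl; intro B' _
      simp only [hy, hN, GV]
      ring
    rw [h2]
    have h4 : (0 : ℝ) ≤ Λ ^ 2 := sq_nonneg _
    nlinarith [mul_nonneg h4 h1]
  have b4 : Λ ^ 2 * Z ≤ TT e Λ V' R - TT e Λ V R := by
    unfold TT
    rw [← sum_sub_distrib, hZ, mul_sum]
    apply sum_le_sum; intro B _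
    rw [haV']
    have h1 := Real.add_one_le_exp (y B B)
    have h2 := mul_le_mul_of_nonneg_left h1 (ha0 B B)
    have h3 : y B B = Λ ^ 2 * l B ^ 2 := by simp only [hy]; ring
    rw [h3] at h2 ⊢
    have h4 : a B B = aa e Λ V R B B := rfl
    rw [← h4]
    nlinarith
  -- conclusion
  have c0 : S0 e Λ V' R - S0 e Λ V R = ∑ B, ∑ B', a B B' * y B B' + ∑ B, ∑ B', a B B' * ρ B B' := by
    unfold S0
    rw [← sum_add_distrib]
    have : ∑ B, ∑ B', aa e Λ V' R B B' - ∑ B, ∑ B', aa e Λ V R B B' =
        ∑ B, (∑ B', a B B' * y B B' + ∑ B', a B B' * ρ B B') := by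
      rw [← sum_sub_distrib]
      apply sum_congr rfl; intro B _
      rw [← sum_sub_distrib, ← sum_add_distrib]
      apply sum_congr rfl; intro B' _
      rw [haV']
      simp only [hρ, ha]
      ring
    linarith
  have c1 : S1 e Λ V' R - S1 e Λ V R = ∑ B, ∑ B', a B B' * (y B B' * N B B') +
      ∑ B, ∑ B', a B B' * (ρ B B' * N B B') - ∑ B, ∑ B', a B B' * (l B * l B') := by
    unfold S1
    rw [← sum_add_distrib, ← sum_sub_distrib, ← sum_sub_distrib]
    apply sum_congr rfl; intro B _
    rw [← sum_add_distrib, ← sum_sub_distrib, ← sum_sub_distrib]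
    apply sum_congr rfl; intro B' _
    rw [haV', hG]
    simp only [hρ, hN, ha, hG]
    ring
  have c2 : ∑ B, ∑ B', a B B' * y B B' = Λ ^ 2 * ∑ B, ∑ B', a B B' * (l B * l B') := by
    rw [mul_sum]
    apply sum_congr rfl; intro B _
    rw [mul_sum]
    apply sum_congr rfl; intro B' _
    simp only [hy]
    ring
  have hΛ2 : (0 : ℝ) ≤ Λ ^ 2 := sq_nonneg _
  have d1 := mul_le_mul_of_nonneg_left b2 hΛ2
  have d2 := mul_le_mul_of_nonneg_left b3 hΛ2
  have d3 := mul_le_mul_of_nonneg_left b4 hD0
  have d4 : D * (Λ ^ 2 * Z) = M * Λ ^ 4 * Z + Λ ^ 2 * (Λ ^ 2 * Z) + Λ ^ 2 * (M * Λ ^ 4 * Z) := by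
    rw [hD]; ring
  have d5 : Λ ^ 2 * (S1 e Λ V' R - S1 e Λ V R) =
      Λ ^ 2 * ∑ B, ∑ B', a B B' * (y B B' * N B B') +
      Λ ^ 2 * ∑ B, ∑ B', a B B' * (ρ B B' * N B B') -
      Λ ^ 2 * ∑ B, ∑ B', a B B' * (l B * l B') := by rw [c1]; ring
  nlinarith

end Pool.Agent.Work.MP_8f25a0_lc
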