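import Mathlib

/-!
# Distance to juntas and its query complexity: definitions
-/

namespace Pool.Agent.Work.MP_8f25a0_lc

/-- The cube `{0,1}^n`. -/
abbrev Cube (n : ℕ) := Fin n → Bool

/-- `dist(f, g)`: the fraction of inputs at which `f` and `g` differ. -/
noncomputable def dist {n : ℕ} (f g : Cube n → Bool) : ℝ :=
  ((Finset.univ.filter fun x => f x ≠ g x).card : ℝ) / 2 ^ n

/-- `g` is a `k`-junta: it depends only on the coordinates in a set of size at most `k`. -/
def IsJunta {n : ℕ} (k : ℕ) (g : Cube n → Bool) : Prop :=
  ∃ J : Finset (Fin n), J.card ≤ k ∧ ∀ x y : Cube n, (∀ i ∈ J, x i = y i) → g x = g y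

/-- `dist_k(f)`: the minimal distance of `f` to a `k`-junta. -/
noncomputable def distK {n : ℕ} (k : ℕ) (f : Cube n → Bool) : ℝ :=
  ⨅ g : {g : Cube n → Bool // IsJunta k g}, dist f g.1

/-- Deterministic adaptive query algorithms (decision trees) with real output. -/
inductive Tree (n : ℕ) : Type
  /-- stop with the output `r` -/
  | out (r : ℝ) : Tree n
  /-- ask for the value at `x`, and continue with `t b` if the answer is `b` -/
  | ask (x : Cube n) (t : Bool → Tree n) : Tree n

namespace Tree

/-- The output of the algorithm on the function `f`. -/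
def eval {n : ℕ} (f : Cube n → Bool) : Tree n → ℝ
  | out r => r
  | ask x t => (t (f x)).eval f

/-- The maximal number of queries. -/
def depth {n : ℕ} : Tree n → ℕ
  | out _ => 0
  | ask _ t => 1 + max (t false).depth (t true).depth

end Tree

/-- The randomized algorithm `A` (a probability distribution on decision trees) makes at most `q`
queries and approximates the distance to `k`-juntas within `± ε` (with probability at least
`2/3`, for every `f`). -/
def Approximates (n k : ℕ) (ε : ℝ) (q : ℕ) (A : PMF (Tree n)) : Prop :=
  (∀ T ∈ A.support, T.depth ≤ q) ∧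
    ∀ f : Cube n → Bool, 2 / 3 ≤ A.toOuterMeasure {T | |T.eval f - distK k f| ≤ ε}

/-- The query complexity `q(n, k, ε)` of approximating the distance to `k`-juntas within
`± ε`. -/
noncomputable def queryComplexity (n k : ℕ) (ε : ℝ) : ℕ :=
  sInf {q : ℕ | ∃ A : PMF (Tree n), Approximates n k ε q A}

end Pool.Agent.Work.MP_8f25a0_lc
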