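import Pool.Agent.Work.MP_8f25a0_lc.Adapt
import Pool.Agent.Work.MP_8f25a0_lc.Defs

/-!
# Adaptive algorithms in the Gaussian model
-/

namespace Pool.Agent.Work.MP_8f25a0_lc

open MeasureTheory Finset

set_option linter.unusedSectionVars false

variable {E : Type*} [NormedAddCommGroup E] [InnerProductSpace ℝ E] [FiniteDimensional ℝ E]
  [MeasurableSpace E] [BorelSpace E]

open scoped RealInnerProductSpace

variable {K n : ℕ} (e : Fin K → E) (Λ : ℝ) (r : Cube n → E)

/-- the function seen by the algorithm -/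
noncomputable def fz (z : E) (x : Cube n) : Bool := by
  classical
  exact decide (⟪r x, z⟫ < 0)

theorem fz_eq_true {z : E} {x : Cube n} : fz r z x = true ↔ ⟪r x, z⟫ < 0 := by
  unfold fz; simp

/-- the space spanned by the queries -/
noncomputable def sp (Q : Finset (Cube n)) : Submodule ℝ E := Submodule.span ℝ (r '' Q)

theorem sp_insert (Q : Finset (Cube n)) (x : Cube n) :
    sp r (insert x Q) = sp r Q ⊔ Submodule.span ℝ {r x} := by
  unfold sp
  rw [coe_insert, Set.image_insert_eq, Submodule.span_insert, sup_comm]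

/-- the sum of the squared errors over the leaves -/
noncomputable def leafS : Tree n → Finset (Cube n) → Set E → ℝ
  | Tree.out _, Q, R => S0 e Λ (sp r Q) R
  | Tree.ask x t, Q, R => leafS (t true) (insert x Q) (R ∩ {z | ⟪r x, z⟫ < 0}) +
      leafS (t false) (insert x Q) (R ∩ {z | ⟪r x, z⟫ < 0}ᶜ)

/-- the sum of the second moments over the leaves -/
noncomputable def leafT : Tree n → Finset (Cube n) → Set E → ℝ
  | Tree.out _, Q, R => TT e Λ (sp r Q) R
  | Tree.ask x t, Q, R => leafT (t true) (insert x Q) (R ∩ {z | ⟪r x, z⟫ < 0}) +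
      leafT (t false) (insert x Q) (R ∩ {z | ⟪r x, z⟫ < 0}ᶜ)

theorem measurable_half (x : Cube n) : MeasurableSet {z : E | ⟪r x, z⟫ < 0} :=
  measurableSet_lt (by fun_prop) measurable_const

variable {R : Set E}

theorem aa_split (V : Submodule ℝ E) (hR : MeasurableSet R) {S : Set E} (hS : MeasurableSet S)
    (B B' : Fin K) : aa e Λ V R B B' = aa e Λ V (R ∩ S) B B' + aa e Λ V (R ∩ Sᶜ) B B' := by
  unfold aa
  rw [gp_split _ hR hS]
  ring

theorem S0_split (V : Submodule ℝ E) (hR : MeasurableSet R) {S : Set E} (hS : MeasurableSet S) :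
    S0 e Λ V R = S0 e Λ V (R ∩ S) + S0 e Λ V (R ∩ Sᶜ) := by
  unfold S0
  have h1 : ∑ B, ∑ B', aa e Λ V R B B' =
      ∑ B, ∑ B', aa e Λ V (R ∩ S) B B' + ∑ B, ∑ B', aa e Λ V (R ∩ Sᶜ) B B' := by
    rw [← sum_add_distrib]
    apply sum_congr rfl; intro B _
    rw [← sum_add_distrib]
    apply sum_congr rfl; intro B' _
    exact aa_split e Λ V hR hS B B'
  have h2 : ∑ B, gp (Λ • e B) R = ∑ B, gp (Λ • e B) (R ∩ S) + ∑ B, gp (Λ • e B) (R ∩ Sᶜ) := by
    rw [← sum_add_distrib]
    apply sum_congr rfl; intro B _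
    exact gp_split _ hR hS
  rw [h1, h2, gp_split (0 : E) hR hS]
  ring

theorem S1_split (V : Submodule ℝ E) (hR : MeasurableSet R) {S : Set E} (hS : MeasurableSet S) :
    S1 e Λ V R = S1 e Λ V (R ∩ S) + S1 e Λ V (R ∩ Sᶜ) := by
  unfold S1
  rw [← sum_add_distrib]
  apply sum_congr rfl; intro B _
  rw [← sum_add_distrib]
  apply sum_congr rfl; intro B' _
  rw [aa_split e Λ V hR hS B B']
  ring

theorem TT_split (V : Submodule ℝ E) (hR : MeasurableSet R) {S : Set E} (hS : MeasurableSet S) :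
    TT e Λ V R = TT e Λ V (R ∩ S) + TT e Λ V (R ∩ Sᶜ) := by
  unfold TT
  rw [← sum_add_distrib]
  apply sum_congr rfl; intro B _
  exact aa_split e Λ V hR hS B B

/-- the potential argument over the whole tree -/
theorem leafS_le (he : Orthonormal ℝ e) {ym M D : ℝ} (hM : M = Real.exp ym)
    (hD : D = M * Λ ^ 2 + Λ ^ 2 + M * Λ ^ 4) {q : ℕ}
    (hym : ∀ Q : Finset (Cube n), Q.card ≤ q → ∀ B, Λ ^ 2 * GV e (sp r Q) B B ≤ ym) (T : Tree n) :
    ∀ (Q : Finset (Cube n)) (R : Set E), Q.card + T.depth ≤ q → MeasurableSet R →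
      Inv' (sp r Q) R →
      leafS e Λ r T Q R ≤ S0 e Λ (sp r Q) R + Λ ^ 2 * S1 e Λ (sp r Q) R -
        D * TT e Λ (sp r Q) R + D * leafT e Λ r T Q R := by
  induction T with
  | out c =>
    intro Q R _ hR hV
    simp only [leafS, leafT]
    have := S1_nonneg e Λ he hR hV
    nlinarith [mul_nonneg (sq_nonneg Λ) this]
  | ask x t ih =>
    intro Q R hq hR hV
    simp only [leafS, leafT]
    simp only [Tree.depth] at hq
    have hS := measurable_half r x
    have hcard : (insert x Q).card ≤ Q.card + 1 := card_insert_le x Q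
    have hV' : Inv' (sp r (insert x Q)) R := hV.mono (by rw [sp_insert]; exact le_sup_left)
    have hx : Inv' (sp r (insert x Q)) {z : E | ⟪r x, z⟫ < 0} := by
      apply inv_halfspace
      unfold sp
      exact Submodule.subset_span ⟨x, by simp, rfl⟩
    have h1 := ih true (insert x Q) (R ∩ {z | ⟪r x, z⟫ < 0})
      (by have := le_max_right (t false).depth (t true).depth; omega) (hR.inter hS) (hV'.inter hx)
    have h2 := ih false (insert x Q) (R ∩ {z | ⟪r x, z⟫ < 0}ᶜ)
      (by have := le_max_left (t false).depth (t true).depth; omega) (hR.inter hS.compl)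
      (hV'.inter hx.compl)
    have h3 := step e Λ he hR hV (r x) (ym := ym) (M := M) (D := D) (by
      intro B
      rw [← sp_insert]
      exact hym _ (by omega) B) hM hD
    rw [← sp_insert] at h3
    rw [S0_split e Λ (sp r (insert x Q)) hR hS, S1_split e Λ (sp r (insert x Q)) hR hS,
      TT_split e Λ (sp r (insert x Q)) hR hS] at h3
    nlinarith

theorem leafT_le {ym M : ℝ} (hM : M = Real.exp ym) {q : ℕ}
    (hym : ∀ Q : Finset (Cube n), Q.card ≤ q → ∀ B, Λ ^ 2 * GV e (sp r Q) B B ≤ ym) (T : Tree n) :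
    ∀ (Q : Finset (Cube n)) (R : Set E), Q.card + T.depth ≤ q → MeasurableSet R →
      leafT e Λ r T Q R ≤ M * ∑ B, gp (Λ • (e B + e B)) R := by
  induction T with
  | out c =>
    intro Q R hq hR
    simp only [leafT, TT, aa]
    rw [mul_sum]
    apply sum_le_sum; intro B _
    apply mul_le_mul_of_nonneg_right _ (gp_nonneg _ _)
    rw [hM]
    exact Real.exp_le_exp.mpr (hym Q (by omega) B)
  | ask x t ih =>
    intro Q R hq hR
    simp only [leafT]
    simp only [Tree.depth] at hq
    have hS := measurable_half r x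
    have hcard : (insert x Q).card ≤ Q.card + 1 := card_insert_le x Q
    have h1 := ih true (insert x Q) (R ∩ {z | ⟪r x, z⟫ < 0})
      (by have := le_max_right (t false).depth (t true).depth; omega) (hR.inter hS)
    have h2 := ih false (insert x Q) (R ∩ {z | ⟪r x, z⟫ < 0}ᶜ)
      (by have := le_max_left (t false).depth (t true).depth; omega) (hR.inter hS.compl)
    refine (add_le_add h1 h2).trans (le_of_eq ?_)
    rw [← mul_add, ← sum_add_distrib]
    congr 1
    apply sum_congr rfl; intro B _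
    exact (gp_split _ hR hS).symm

theorem S0_eq_integral {V : Submodule ℝ E} (hR : MeasurableSet R) (hV : Inv' V R) :
    S0 e Λ V R = ∫ z in R, ((∑ B, LL e Λ V B z) - K) ^ 2 * wt z := by
  have h1 : ∀ z : E, ((∑ B, LL e Λ V B z) - K) ^ 2 * wt z =
      (∑ B, ∑ B', LL e Λ V B z * LL e Λ V B' z * wt z) -
        2 * K * (∑ B, LL e Λ V B z * wt z) + K ^ 2 * wt z := by
    intro z
    have h2 : ∑ B, ∑ B', LL e Λ V B z * LL e Λ V B' z * wt z =
        (∑ B, LL e Λ V B z) * (∑ B, LL e Λ V B z) * wt z := by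
      rw [sum_mul_sum, sum_mul]
      apply sum_congr rfl; intro B _
      rw [sum_mul]
    have h3 : ∑ B, LL e Λ V B z * wt z = (∑ B, LL e Λ V B z) * wt z := by rw [sum_mul]
    rw [h2, h3]
    ring
  simp_rw [h1]
  have i1 : Integrable (fun z : E => ∑ B, ∑ B', LL e Λ V B z * LL e Λ V B' z * wt z) :=
    integrable_finsetSum _ fun B _ => integrable_finsetSum _ fun B' _ =>
      integrable_LL_mul e Λ V B B'
  have i2 : Integrable (fun z : E => 2 * K * (∑ B, LL e Λ V B z * wt z)) :=
    (integrable_finsetSum _ fun B _ => integrable_LL e Λ V B).const_mul _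
  have i3 : Integrable (fun z : E => (K : ℝ) ^ 2 * wt z) := integrable_wt.const_mul _
  have i12 : IntegrableOn (fun z : E => (∑ B, ∑ B', LL e Λ V B z * LL e Λ V B' z * wt z) -
      2 * K * (∑ B, LL e Λ V B z * wt z)) R := (i1.sub i2).integrableOn
  rw [integral_add i12 i3.integrableOn,
    integral_sub i1.integrableOn i2.integrableOn, integral_const_mul, integral_const_mul]
  unfold S0
  congr 1
  · congr 1
    · rw [integral_finsetSum _ (fun B _ => (integrable_finsetSum _ fun B' _ =>
        integrable_LL_mul e Λ V B B').integrableOn)]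
      apply sum_congr rfl; intro B _
      rw [integral_finsetSum _ (fun B' _ => (integrable_LL_mul e Λ V B B').integrableOn)]
      apply sum_congr rfl; intro B' _
      exact (int_LL_mul e Λ hR hV B B').symm
    · congr 1
      rw [integral_finsetSum _ (fun B _ => (integrable_LL e Λ V B).integrableOn)]
      apply sum_congr rfl; intro B _
      exact (int_LL e Λ hR hV B).symm
  · congr 1
    unfold gp
    simp

theorem S0_nonneg {V : Submodule ℝ E} (hR : MeasurableSet R) (hV : Inv' V R) :
    0 ≤ S0 e Λ V R := by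
  rw [S0_eq_integral e Λ hR hV]
  exact integral_nonneg fun z => mul_nonneg (sq_nonneg _) (wt_pos z).le

/-- Cauchy-Schwarz at a leaf -/
theorem leaf_cs {V : Submodule ℝ E} (hR : MeasurableSet R) (hV : Inv' V R) :
    (∑ B, gp (Λ • e B) R - K * gp (0 : E) R) ^ 2 ≤ S0 e Λ V R * gp (0 : E) R := by
  -- discriminant
  have h : ∀ t : ℝ, 0 ≤ gp (0 : E) R * (t * t) +
      (2 * (∑ B, gp (Λ • e B) R - K * gp (0 : E) R)) * t + S0 e Λ V R := by
    intro t
    have i1 : Integrable (fun z : E => ∑ B, ∑ B', LL e Λ V B z * LL e Λ V B' z * wt z) :=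
      integrable_finsetSum _ fun B _ => integrable_finsetSum _ fun B' _ =>
        integrable_LL_mul e Λ V B B'
    have i2 : Integrable (fun z : E => (∑ B, LL e Λ V B z * wt z)) :=
      (integrable_finsetSum _ fun B _ => integrable_LL e Λ V B)
    have i3 : Integrable (fun z : E => wt z) := integrable_wt
    have e1 : ∀ z : E, ((∑ B, LL e Λ V B z) - K) ^ 2 * wt z =
        (∑ B, ∑ B', LL e Λ V B z * LL e Λ V B' z * wt z) -
          2 * K * (∑ B, LL e Λ V B z * wt z) + K ^ 2 * wt z := by
      intro z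
      have h2 : ∑ B, ∑ B', LL e Λ V B z * LL e Λ V B' z * wt z =
          (∑ B, LL e Λ V B z) * (∑ B, LL e Λ V B z) * wt z := by
        rw [sum_mul_sum, sum_mul]
        apply sum_congr rfl; intro B _
        rw [sum_mul]
      have h3 : ∑ B, LL e Λ V B z * wt z = (∑ B, LL e Λ V B z) * wt z := by rw [sum_mul]
      rw [h2, h3]
      ring
    have i4 : Integrable (fun z : E => ((∑ B, LL e Λ V B z) - K) ^ 2 * wt z) := by
      simp_rw [e1]
      exact (i1.sub (i2.const_mul _)).add (i3.const_mul _)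
    have key : gp (0 : E) R * (t * t) +
        (2 * (∑ B, gp (Λ • e B) R - K * gp (0 : E) R)) * t + S0 e Λ V R =
        ∫ z in R, (t + ((∑ B, LL e Λ V B z) - K)) ^ 2 * wt z := by
      have e2 : ∀ z : E, (t + ((∑ B, LL e Λ V B z) - K)) ^ 2 * wt z =
          (t * t - 2 * t * K) * wt z + 2 * t * (∑ B, LL e Λ V B z * wt z) +
          ((∑ B, LL e Λ V B z) - K) ^ 2 * wt z := by
        intro z
        have h3 : ∑ B, LL e Λ V B z * wt z = (∑ B, LL e Λ V B z) * wt z := by rw [sum_mul]
        rw [h3]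
        ring
      simp_rw [e2]
      have i5 : IntegrableOn (fun z : E => (t * t - 2 * t * K) * wt z +
          2 * t * (∑ B, LL e Λ V B z * wt z)) R :=
        ((i3.const_mul _).add (i2.const_mul _)).integrableOn
      rw [integral_add i5 i4.integrableOn,
        integral_add (i3.const_mul _).integrableOn (i2.const_mul _).integrableOn,
        integral_const_mul, integral_const_mul, ← S0_eq_integral e Λ hR hV,
        integral_finsetSum _ (fun B _ => (integrable_LL e Λ V B).integrableOn)]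
      have h4 : ∑ B, ∫ z in R, LL e Λ V B z * wt z = ∑ B, gp (Λ • e B) R := by
        apply sum_congr rfl; intro B _
        exact int_LL e Λ hR hV B
      have h5 : ∫ z in R, wt z = gp (0 : E) R := by unfold gp; simp
      rw [h4, h5]
      ring
    rw [key]
    exact integral_nonneg fun z => mul_nonneg (sq_nonneg _) (wt_pos z).le
  have h2 := discrim_le_zero h
  unfold discrim at h2
  nlinarith

/-- the set on which the algorithm outputs an element of `O` -/
def outSet (T : Tree n) (O : Set ℝ) : Set E := {z | T.eval (fz r z) ∈ O}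

theorem outSet_ask (x : Cube n) (t : Bool → Tree n) (O : Set ℝ) :
    R ∩ outSet r (Tree.ask x t) O =
      ((R ∩ {z | ⟪r x, z⟫ < 0}) ∩ outSet r (t true) O) ∪
      ((R ∩ {z | ⟪r x, z⟫ < 0}ᶜ) ∩ outSet r (t false) O) := by
  ext z
  simp only [outSet, Set.mem_inter_iff, Set.mem_union, Set.mem_ofPred_eq, Set.mem_compl_iff,
    Tree.eval]
  by_cases h : ⟪r x, z⟫ < 0
  · have h1 : fz r z x = true := (fz_eq_true r).mpr h
    rw [h1]; tauto
  · have h1 : fz r z x = false := by
      rw [← Bool.not_eq_true]; exact fun h' => h ((fz_eq_true r).mp h')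
    rw [h1]; tauto

theorem measurable_outSet (T : Tree n) (O : Set ℝ) : MeasurableSet (outSet r T O : Set E) := by
  induction T with
  | out c =>
    by_cases hc : c ∈ O
    · have : (outSet r (Tree.out c) O : Set E) = Set.univ := by
        ext z; simp [outSet, Tree.eval, hc]
      rw [this]; exact MeasurableSet.univ
    · have : (outSet r (Tree.out c) O : Set E) = ∅ := by
        ext z; simp [outSet, Tree.eval, hc]
      rw [this]; exact MeasurableSet.empty
  | ask x t ih =>
    have h := outSet_ask r (R := Set.univ) x t O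
    rw [Set.univ_inter] at h
    rw [h]
    exact ((MeasurableSet.univ.inter (measurable_half r x)).inter (ih true)).union
      ((MeasurableSet.univ.inter (measurable_half r x).compl).inter (ih false))

/-- the difference of the probabilities of an output -/
noncomputable def gap (S : Set E) : ℝ := ∑ B, gp (Λ • e B) S - K * gp (0 : E) S

theorem gap_union {S S' : Set E} (h : MeasurableSet S') (hd : Disjoint S S') :
    gap e Λ (S ∪ S') = gap e Λ S + gap e Λ S' := by
  unfold gap
  rw [gp_union _ h hd]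
  simp_rw [gp_union _ h hd]
  rw [sum_add_distrib]
  ring

theorem leafS_nonneg (T : Tree n) : ∀ (Q : Finset (Cube n)) (R : Set E), MeasurableSet R →
    Inv' (sp r Q) R → 0 ≤ leafS e Λ r T Q R := by
  induction T with
  | out c =>
    intro Q R hR hV
    exact S0_nonneg e Λ hR hV
  | ask x t ih =>
    intro Q R hR hV
    simp only [leafS]
    have hS := measurable_half r x
    have hV' : Inv' (sp r (insert x Q)) R := hV.mono (by rw [sp_insert]; exact le_sup_left)
    have hx : Inv' (sp r (insert x Q)) {z : E | ⟪r x, z⟫ < 0} := by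
      apply inv_halfspace
      unfold sp
      exact Submodule.subset_span ⟨x, by simp, rfl⟩
    exact add_nonneg (ih true _ _ (hR.inter hS) (hV'.inter hx))
      (ih false _ _ (hR.inter hS.compl) (hV'.inter hx.compl))

theorem cs_two {x1 x2 a1 a2 b1 b2 : ℝ} (ha1 : 0 ≤ a1) (ha2 : 0 ≤ a2) (hb1 : 0 ≤ b1)
    (hb2 : 0 ≤ b2) (h1 : x1 ^ 2 ≤ a1 * b1) (h2 : x2 ^ 2 ≤ a2 * b2) :
    (x1 + x2) ^ 2 ≤ (a1 + a2) * (b1 + b2) := by
  have h3 : (x1 * x2) ^ 2 ≤ (a1 * b2) * (a2 * b1) := by
    calc (x1 * x2) ^ 2 = x1 ^ 2 * x2 ^ 2 := by ring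
      _ ≤ (a1 * b1) * (a2 * b2) := mul_le_mul h1 h2 (sq_nonneg _) (mul_nonneg ha1 hb1)
      _ = _ := by ring
  have h4 : 2 * (x1 * x2) ≤ a1 * b2 + a2 * b1 := by
    have h5 : (2 * (x1 * x2)) ^ 2 ≤ (a1 * b2 + a2 * b1) ^ 2 := by
      nlinarith [sq_nonneg (a1 * b2 - a2 * b1)]
    exact le_of_sq_le_sq h5 (by positivity)
  nlinarith

theorem gap_le (T : Tree n) (O : Set ℝ) : ∀ (Q : Finset (Cube n)) (R : Set E),
    MeasurableSet R → Inv' (sp r Q) R →
    gap e Λ (R ∩ outSet r T O) ^ 2 ≤ leafS e Λ r T Q R * gp (0 : E) R := by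
  induction T with
  | out c =>
    intro Q R hR hV
    simp only [leafS]
    by_cases hc : c ∈ O
    · have : R ∩ outSet r (Tree.out c) O = R := by
        ext z; simp [outSet, Tree.eval, hc]
      rw [this]
      exact leaf_cs e Λ hR hV
    · have : R ∩ outSet r (Tree.out c) O = ∅ := by
        ext z; simp [outSet, Tree.eval, hc]
      rw [this]
      have h0 : gap e Λ (∅ : Set E) = 0 := by
        unfold gap; simp [gp_empty]
      rw [h0]
      have := mul_nonneg (S0_nonneg e Λ hR hV) (gp_nonneg (0 : E) R)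
      simpa using this
  | ask x t ih =>
    intro Q R hR hV
    simp only [leafS]
    have hS := measurable_half r x
    have hV' : Inv' (sp r (insert x Q)) R := hV.mono (by rw [sp_insert]; exact le_sup_left)
    have hx : Inv' (sp r (insert x Q)) {z : E | ⟪r x, z⟫ < 0} := by
      apply inv_halfspace
      unfold sp
      exact Submodule.subset_span ⟨x, by simp, rfl⟩
    have h1 := ih true (insert x Q) _ (hR.inter hS) (hV'.inter hx)
    have h2 := ih false (insert x Q) _ (hR.inter hS.compl) (hV'.inter hx.compl)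
    rw [outSet_ask, gap_union, gp_split (0 : E) hR hS]
    · exact cs_two (leafS_nonneg e Λ r _ _ _ (hR.inter hS) (hV'.inter hx))
        (leafS_nonneg e Λ r _ _ _ (hR.inter hS.compl) (hV'.inter hx.compl))
        (gp_nonneg _ _) (gp_nonneg _ _) h1 h2
    · exact (hR.inter hS.compl).inter (measurable_outSet r _ _)
    · apply Disjoint.mono Set.inter_subset_left Set.inter_subset_left
      exact Disjoint.mono Set.inter_subset_right Set.inter_subset_right disjoint_compl_right

/-- **Adaptive algorithms with few queries do not see the planted spike.** -/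
theorem gap_bound (he : Orthonormal ℝ e) (hΛ : 1 ≤ Λ) {ym : ℝ} (hym0 : 0 ≤ ym) {q : ℕ}
    (hym : ∀ Q : Finset (Cube n), Q.card ≤ q → ∀ B, Λ ^ 2 * GV e (sp r Q) B B ≤ ym)
    (T : Tree n) (hT : T.depth ≤ q) (O : Set ℝ) :
    gap e Λ (outSet r T O : Set E) ^ 2 ≤
      4 * K * Real.exp ym ^ 2 * Λ ^ 4 * gp (0 : E) Set.univ ^ 2 := by
  set M := Real.exp ym with hM
  set D := M * Λ ^ 2 + Λ ^ 2 + M * Λ ^ 4 with hD
  set c := gp (0 : E) Set.univ with hc
  have hc0 : 0 ≤ c := gp_nonneg _ _
  have hM1 : 1 ≤ M := Real.one_le_exp hym0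
  have hinv : Inv' (sp r (∅ : Finset (Cube n))) (Set.univ : Set E) := by
    intro z u _; simp
  have hsp : sp r (∅ : Finset (Cube n)) = (⊥ : Submodule ℝ E) := by unfold sp; simp
  have h1 := gap_le e Λ r T O ∅ Set.univ MeasurableSet.univ hinv
  rw [Set.univ_inter] at h1
  have h2 := leafS_le e Λ r he hM hD hym T ∅ Set.univ (by simpa using hT) MeasurableSet.univ hinv
  have h3 := leafT_le e Λ r hM hym T ∅ Set.univ (by simpa using hT) MeasurableSet.univ
  have h4 : ∑ B : Fin K, gp (Λ • (e B + e B)) (Set.univ : Set E) = K * c := by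
    simp_rw [gp_univ]
    rw [sum_const, card_univ, Fintype.card_fin, nsmul_eq_mul]
  rw [h4] at h3
  have haa : ∀ B B' : Fin K, aa e Λ (sp r (∅ : Finset (Cube n))) Set.univ B B' = c := by
    intro B B'
    unfold aa GV
    rw [gp_univ, hsp]
    simp [hc]
  have h5 : S0 e Λ (sp r (∅ : Finset (Cube n))) Set.univ = 0 := by
    unfold S0
    simp_rw [haa, gp_univ]
    simp only [sum_const, card_univ, Fintype.card_fin, nsmul_eq_mul, ← hc]
    ring
  have h6 : S1 e Λ (sp r (∅ : Finset (Cube n))) Set.univ = K * c := by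
    unfold S1
    simp_rw [haa]
    have : ∀ B B' : Fin K, GV e (sp r (∅ : Finset (Cube n))) B B' = 0 := by
      intro B B'; unfold GV; rw [hsp]; simp
    simp_rw [this, sub_zero]
    simp only [mul_ite, mul_one, mul_zero, sum_ite_eq, mem_univ, if_true]
    rw [sum_const, card_univ, Fintype.card_fin, nsmul_eq_mul]
  have h7 : TT e Λ (sp r (∅ : Finset (Cube n))) Set.univ = K * c := by
    unfold TT
    simp_rw [haa]
    rw [sum_const, card_univ, Fintype.card_fin, nsmul_eq_mul]
  rw [h5, h6, h7] at h2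
  have hK0 : (0 : ℝ) ≤ K := Nat.cast_nonneg K
  have hKc : 0 ≤ K * c := mul_nonneg hK0 hc0
  have hD0 : 0 ≤ D := by rw [hD]; positivity
  have hDle : D ≤ 3 * M * Λ ^ 4 := by
    rw [hD]
    have h8 : Λ ^ 2 ≤ Λ ^ 4 := pow_le_pow_right₀ hΛ (by norm_num)
    have h9 : M * Λ ^ 2 ≤ M * Λ ^ 4 := mul_le_mul_of_nonneg_left h8 (by linarith)
    have h10 : Λ ^ 4 ≤ M * Λ ^ 4 := le_mul_of_one_le_left (by positivity) hM1
    nlinarith
  have h8 : leafS e Λ r T ∅ Set.univ ≤ 4 * M ^ 2 * Λ ^ 4 * (K * c) := by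
    have h9 : D * leafT e Λ r T ∅ Set.univ ≤ D * (M * (K * c)) :=
      mul_le_mul_of_nonneg_left h3 hD0
    have h10 : D * (M * (K * c)) ≤ (3 * M * Λ ^ 4) * (M * (K * c)) :=
      mul_le_mul_of_nonneg_right hDle (by positivity)
    have h11 : Λ ^ 2 * (K * c) ≤ M ^ 2 * Λ ^ 4 * (K * c) := by
      apply mul_le_mul_of_nonneg_right _ hKc
      have h12 : Λ ^ 2 ≤ Λ ^ 4 := pow_le_pow_right₀ hΛ (by norm_num)
      have h13 : (1 : ℝ) ≤ M ^ 2 := one_le_pow₀ hM1
      calc Λ ^ 2 ≤ Λ ^ 4 := h12
        _ = 1 * Λ ^ 4 := (one_mul _).symm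
        _ ≤ M ^ 2 * Λ ^ 4 := mul_le_mul_of_nonneg_right h13 (by positivity)
    have h12 : 0 ≤ D * (K * c) := mul_nonneg hD0 hKc
    nlinarith
  calc gap e Λ (outSet r T O : Set E) ^ 2 ≤ leafS e Λ r T ∅ Set.univ * c := h1
    _ ≤ (4 * M ^ 2 * Λ ^ 4 * (K * c)) * c := mul_le_mul_of_nonneg_right h8 hc0
    _ = _ := by ring

end Pool.Agent.Work.MP_8f25a0_lc
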