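import Pool.Agent.Work.MP_8f25a0_lc.Defs

/-!
# Basic facts
-/

namespace Pool.Agent.Work.MP_8f25a0_lc

open Finset

variable {n k : ℕ}

theorem isJunta_const (b : Bool) : IsJunta k (fun _ : Cube n => b) :=
  ⟨∅, by simp, fun _ _ _ => rfl⟩

instance : Nonempty {g : Cube n → Bool // IsJunta k g} := ⟨⟨_, isJunta_const false⟩⟩

theorem dist_nonneg (f g : Cube n → Bool) : 0 ≤ dist f g := by unfold dist; positivity

theorem distK_le {f g : Cube n → Bool} (hg : IsJunta k g) : distK k f ≤ dist f g :=
  ciInf_le (f := fun g : {g : Cube n → Bool // IsJunta k g} => dist f g.1)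
    ⟨0, by rintro _ ⟨g, rfl⟩; exact dist_nonneg _ _⟩ ⟨g, hg⟩

theorem exists_distK (k : ℕ) (f : Cube n → Bool) : ∃ g, IsJunta k g ∧ distK k f = dist f g := by
  obtain ⟨g, hg⟩ := exists_eq_ciInf_of_finite
    (f := fun g : {g : Cube n → Bool // IsJunta k g} => dist f g.1)
  exact ⟨g.1, g.2, hg.symm⟩

theorem le_distK {f : Cube n → Bool} {r : ℝ} (h : ∀ g, IsJunta k g → r ≤ dist f g) :
    r ≤ distK k f := by
  obtain ⟨g, hg, hg'⟩ := exists_distK k f
  rw [hg']; exact h g hg

namespace Tree

/-- A nonadaptive algorithm. -/
def nonadaptive {n : ℕ} : List (Cube n) → (List Bool → ℝ) → Tree n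
  | [], r => out (r [])
  | x :: l, r => ask x fun b => nonadaptive l fun bs => r (b :: bs)

theorem eval_nonadaptive {n : ℕ} (f : Cube n → Bool) (l : List (Cube n)) (r : List Bool → ℝ) :
    (nonadaptive l r).eval f = r (l.map f) := by
  induction l generalizing r with
  | nil => rfl
  | cons x l ih => simp [nonadaptive, eval, ih]

theorem depth_nonadaptive {n : ℕ} (l : List (Cube n)) (r : List Bool → ℝ) :
    (nonadaptive l r).depth = l.length := by
  induction l generalizing r with
  | nil => rfl
  | cons x l ih => simp [nonadaptive, depth, ih, add_comm]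

end Tree

/-- All functions can be learnt with `2 ^ n` queries. -/
theorem approximates_all (n k : ℕ) {ε : ℝ} (hε : 0 ≤ ε) :
    ∃ A : PMF (Tree n), Approximates n k ε (2 ^ n) A := by
  classical
  set l : List (Cube n) := (Finset.univ : Finset (Cube n)).toList with hl
  set T : Tree n := Tree.nonadaptive l (fun bs =>
    distK k fun x => ((l.zip bs).lookup x).getD false) with hT
  refine ⟨PMF.pure T, ?_, ?_⟩
  · intro T' hT'
    rw [PMF.support_pure, Set.mem_singleton_iff] at hT'
    rw [hT', hT, Tree.depth_nonadaptive, hl, Finset.length_toList]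
    simp
  · intro f
    have h1 : T.eval f = distK k f := by
      rw [hT, Tree.eval_nonadaptive]
      congr 1
      funext x
      have hx : x ∈ l := by simp [hl]
      have key : ∀ l : List (Cube n), x ∈ l → (l.zip (l.map f)).lookup x = some (f x) := by
        intro l
        induction l with
        | nil => simp
        | cons y l ih =>
          intro h
          simp only [List.map_cons, List.zip_cons_cons, List.lookup_cons]
          by_cases hxy : x = y
          · subst hxy; simp
          · have : (x == y) = false := by simp [hxy]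
            rw [this]
            exact ih ((List.mem_cons.mp h).resolve_left hxy)
      rw [key l hx]
      rfl
    have h2 : T ∈ {T : Tree n | |T.eval f - distK k f| ≤ ε} := by
      simp only [Set.mem_setOf_eq]
      rw [h1, sub_self, abs_zero]
      exact hε
    rw [PMF.toOuterMeasure_pure_apply, if_pos h2]
    exact ENNReal.div_le_of_le_mul (by norm_num)

theorem queryComplexity_le {n k q : ℕ} {ε : ℝ} {A : PMF (Tree n)} (h : Approximates n k ε q A) :
    queryComplexity n k ε ≤ q :=
  Nat.sInf_le ⟨A, h⟩

theorem exists_approximates (n k : ℕ) {ε : ℝ} (hε : 0 ≤ ε) :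
    ∃ A : PMF (Tree n), Approximates n k ε (queryComplexity n k ε) A :=
  Nat.sInf_mem (s := {q : ℕ | ∃ A : PMF (Tree n), Approximates n k ε q A})
    ⟨2 ^ n, approximates_all n k hε⟩

end Pool.Agent.Work.MP_8f25a0_lc
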