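import Pool.Agent.Work.MP_8f25a0_lc.Upper

/-!
# The upper bound by direct sampling
-/

namespace Pool.Agent.Work.MP_8f25a0_lc

open Finset

variable {n m k Q : ℕ}

/-- the algorithm: sample -/
noncomputable def algo2 (n k Q : ℕ) (s : Fin Q → Cube n) : Tree n :=
  Tree.nonadaptive (List.ofFn s) fun bs => est k (fun j : Fin Q => bs.getD j false) s

theorem eval_algo2 (f : Cube n → Bool) (s : Fin Q → Cube n) :
    (algo2 n k Q s).eval f = est k (fun j => f (s j)) s := by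
  unfold algo2
  rw [Tree.eval_nonadaptive]
  congr 1
  funext j
  rw [List.map_ofFn, List.getD_eq_getElem _ _ (by simp)]
  simp

theorem approximates_algo2 (hn : 0 < n) (hQ : 0 < Q) {ε : ℝ} (hε : 0 < ε)
    (h2 : (n : ℝ) ^ k * 2 ^ (2 ^ k) * (2 * Real.exp (-(Q * ε ^ 2 / 2))) ≤ 1 / 3) :
    ∃ A : PMF (Tree n), Approximates n k ε Q A := by
  classical
  refine ⟨(PMF.uniformOfFintype (Fin Q → Cube n)).map (algo2 n k Q), ?_, ?_⟩
  · intro T hT
    rw [PMF.support_map] at hT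
    obtain ⟨ω, -, rfl⟩ := hT
    unfold algo2
    rw [Tree.depth_nonadaptive, List.length_ofFn]
  · intro f
    rw [PMF.toOuterMeasure_map_apply]
    apply uniform_ge
    refine le_trans (avg_mono ?_) ((sampling hn hQ f hε.le).trans h2)
    intro s
    by_cases h : s ∈ (algo2 n k Q ⁻¹' {T | |T.eval f - distK k f| ≤ ε})
    · rw [if_pos h]
      split_ifs <;> norm_num
    · rw [if_neg h]
      simp only [Set.mem_preimage, Set.mem_ofPred_eq, not_le, eval_algo2] at h
      rw [if_pos h]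

theorem exp_numeric (hm : 0 < m) {X : ℝ} (hX : 3 + k * Real.log m + 2 ^ k ≤ X) :
    (m : ℝ) ^ k * 2 ^ (2 ^ k) * (2 * Real.exp (-X)) ≤ 1 / 6 := by
  have hmR : (0 : ℝ) < m := by exact_mod_cast hm
  have h2 : Real.exp (-X) ≤ Real.exp (-(3 + k * Real.log m + 2 ^ k)) :=
    Real.exp_le_exp.mpr (by linarith)
  have h3 : (m : ℝ) ^ k = Real.exp (k * Real.log m) := by
    rw [Real.exp_nat_mul, Real.exp_log hmR]
  have h4 : (2 : ℝ) ^ (2 ^ k) ≤ Real.exp (2 ^ k) := by
    have h5 : (2 : ℝ) ≤ Real.exp 1 := by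
      have := Real.add_one_le_exp (1 : ℝ); linarith
    calc (2 : ℝ) ^ (2 ^ k) ≤ Real.exp 1 ^ (2 ^ k) := pow_le_pow_left₀ (by norm_num) h5 _
      _ = Real.exp (2 ^ k) := by
        rw [← Real.exp_nat_mul]; congr 1; push_cast; ring
  calc (m : ℝ) ^ k * 2 ^ (2 ^ k) * (2 * Real.exp (-X))
      ≤ Real.exp (k * Real.log m) * Real.exp (2 ^ k) *
        (2 * Real.exp (-(3 + k * Real.log m + 2 ^ k))) := by
        rw [h3]
        gcongr
    _ = 2 * Real.exp (-3) := by
        rw [← Real.exp_add]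
        rw [mul_left_comm, ← Real.exp_add]
        congr 2
        ring
    _ ≤ 1 / 6 := by
        rw [Real.exp_neg]
        have h6 : (12 : ℝ) ≤ Real.exp 3 := by
          have h7 : (2.7 : ℝ) ≤ Real.exp 1 := by
            have := Real.exp_one_gt_d9; linarith
          calc (12 : ℝ) ≤ 2.7 ^ 3 := by norm_num
            _ ≤ Real.exp 1 ^ 3 := pow_le_pow_left₀ (by norm_num) h7 3
            _ = Real.exp 3 := by rw [← Real.exp_nat_mul]; norm_num
        rw [← div_eq_mul_inv, div_le_div_iff₀ (Real.exp_pos _) (by norm_num)]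
        linarith

theorem upper_bound2 (hn : 0 < n) (k : ℕ) {ε : ℝ} (hε0 : 0 < ε) (hε : ε < 1 / 4) :
    ∃ Q : ℕ, (Q : ℝ) ≤ 2000 * ((2 ^ k + k * Real.log n) / ε ^ 2) ∧
      ∃ A : PMF (Tree n), Approximates n k ε Q A := by
  set K : ℝ := 3 + k * Real.log n + 2 ^ k with hK
  have hlog : 0 ≤ Real.log n := Real.log_nonneg (by exact_mod_cast hn)
  have hk0 : (0 : ℝ) ≤ k := Nat.cast_nonneg k
  have hkl : 0 ≤ k * Real.log n := by positivity
  have h2k : (1 : ℝ) ≤ 2 ^ k := one_le_pow₀ (by norm_num)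
  have hK0 : 0 < K := by positivity
  set Q := ⌈2 / ε ^ 2 * K⌉₊ with hQ
  have hQ0 : 0 < Q := by rw [hQ, Nat.ceil_pos]; positivity
  have hQge : 2 / ε ^ 2 * K ≤ Q := Nat.le_ceil _
  have h1 : K ≤ Q * ε ^ 2 / 2 := by
    calc K = 2 / ε ^ 2 * K * (ε ^ 2 / 2) := by field_simp
      _ ≤ Q * (ε ^ 2 / 2) := mul_le_mul_of_nonneg_right hQge (by positivity)
      _ = _ := by ring
  refine ⟨Q, ?_, approximates_algo2 hn hQ0 hε0 ((exp_numeric hn h1).trans (by norm_num))⟩
  have hε2 : 1 ≤ 1 / ε ^ 2 := by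
    rw [le_div_iff₀ (by positivity)]
    nlinarith
  calc (Q : ℝ) ≤ 2 / ε ^ 2 * K + 1 := (Nat.ceil_lt_add_one (by positivity)).le
    _ ≤ 2 / ε ^ 2 * (4 * 2 ^ k + k * Real.log n) + 2 ^ k * (1 / ε ^ 2) := by
        have h1 : 2 / ε ^ 2 * K ≤ 2 / ε ^ 2 * (4 * 2 ^ k + k * Real.log n) :=
          mul_le_mul_of_nonneg_left (by rw [hK]; linarith) (by positivity)
        nlinarith
    _ = (9 * 2 ^ k + 2 * (k * Real.log n)) / ε ^ 2 := by field_simp; ring
    _ ≤ 2000 * ((2 ^ k + k * Real.log n) / ε ^ 2) := by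
        rw [← mul_div_assoc]
        apply div_le_div_of_nonneg_right _ (by positivity)
        nlinarith

/-- The upper bound, in terms of the smaller one of `n` and `1 / ε`. -/
theorem upper_min (hn : 0 < n) (k : ℕ) {ε : ℝ} (hε0 : 0 < ε) (hε : ε < 1 / 4) :
    (queryComplexity n k ε : ℝ) ≤
      2000 * min (2 ^ n) ((2 ^ k + k * Real.log (min n (1 / ε))) / ε ^ 2) := by
  rw [mul_min_of_nonneg _ _ (by norm_num)]
  apply le_min
  · obtain ⟨A, hA⟩ := approximates_all n k hε0.le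
    have h1 : (queryComplexity n k ε : ℝ) ≤ 2 ^ n := by
      exact_mod_cast queryComplexity_le hA
    have h2 : (0 : ℝ) < 2 ^ n := by positivity
    linarith
  · rcases min_cases (n : ℝ) (1 / ε) with ⟨h, -⟩ | ⟨h, -⟩
    · rw [h]
      obtain ⟨Q, hQ, A, hA⟩ := upper_bound2 hn k hε0 hε
      have h1 : (queryComplexity n k ε : ℝ) ≤ Q := by
        exact_mod_cast queryComplexity_le hA
      exact h1.trans hQ
    · rw [h]
      obtain ⟨Q, hQ, A, hA⟩ := upper_bound n k hε0 hε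
      have h1 : (queryComplexity n k ε : ℝ) ≤ Q := by
        exact_mod_cast queryComplexity_le hA
      exact h1.trans hQ

end Pool.Agent.Work.MP_8f25a0_lc
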