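import Pool.Agent.Work.MP_8f25a0_lc.SpikeTree
import Pool.Agent.Work.MP_8f25a0_lc.Upper2

/-!
# The logarithmic lower bound
-/

namespace Pool.Agent.Work.MP_8f25a0_lc

open Finset

variable {n K k q : ℕ}

theorem Approximates.mono {ε ε' : ℝ} {A : PMF (Tree n)} (h : Approximates n k ε q A)
    (hε : ε ≤ ε') : Approximates n k ε' q A := by
  refine ⟨h.1, fun f => (h.2 f).trans (A.toOuterMeasure.mono ?_)⟩
  intro T hT
  simp only [Set.mem_ofPred_eq] at hT ⊢
  exact hT.trans hε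

/-- the bound with explicit constants, for a given number of hidden coordinates -/
theorem log_spike (hn : 0 < n) (hKn : K ≤ n) {ε : ℝ} (hε : 0 < ε) (hk : 1 ≤ k)
    (hKε : K * ε ^ 2 ≤ 1 / 16) (hKk : (1200000 * (k : ℝ) ^ 2) ^ 8 ≤ K)
    (hN : 6 + k * Real.log n + 2 ^ k ≤ 2 ^ n * ε ^ 2 / 8) {A : PMF (Tree n)}
    (hA : Approximates n k ε q A) : Real.log K ≤ 160000 * ε ^ 2 * q := by
  have hk1 : (1 : ℝ) ≤ k := by exact_mod_cast hk
  have hk2 : (1 : ℝ) ≤ (k : ℝ) ^ 2 := one_le_pow₀ hk1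
  have hb : (1200000 : ℝ) ≤ 1200000 * (k : ℝ) ^ 2 := by linarith
  have hK1 : (1200000 : ℝ) ≤ K := by
    refine le_trans ?_ hKk
    calc (1200000 : ℝ) ≤ 1200000 * (k : ℝ) ^ 2 := hb
      _ ≤ (1200000 * (k : ℝ) ^ 2) ^ 8 := le_self_pow₀ (by linarith) (by norm_num)
  have hK0 : (0 : ℝ) < K := by linarith
  have hε1 : ε ≤ 1 / 600 := by
    have h1 : 1200000 * ε ^ 2 ≤ K * ε ^ 2 := mul_le_mul_of_nonneg_right hK1 (sq_nonneg ε)
    have h2 : ε ^ 2 ≤ (1 / 600) ^ 2 := by norm_num; linarith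
    exact le_of_sq_le_sq h2 (by norm_num)
  set y := Real.log K with hy
  have hy0 : 0 ≤ y := Real.log_nonneg (by linarith)
  have h200 : Real.log (200 * K) = Real.log 200 + y := by
    rw [hy, Real.log_mul (by norm_num) hK0.ne']
  have h200' : Real.log 200 ≤ 8 := by
    rw [Real.log_le_iff_le_exp (by norm_num)]
    have h7 : (2.7 : ℝ) ≤ Real.exp 1 := by
      have := Real.exp_one_gt_d9; linarith
    calc (200 : ℝ) ≤ 2.7 ^ 8 := by norm_num
      _ ≤ Real.exp 1 ^ 8 := pow_le_pow_left₀ (by norm_num) h7 8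
      _ = Real.exp 8 := by rw [← Real.exp_nat_mul]; norm_num
  have h200'' : 1 ≤ Real.log 200 := by
    rw [Real.le_log_iff_exp_le (by norm_num)]
    have := Real.exp_one_lt_d9; linarith
  set τ : ℝ := √(2 * Real.log (200 * K)) with hτ
  have hτsq : τ ^ 2 = 2 * Real.log (200 * K) := Real.sq_sqrt (by rw [h200]; linarith)
  have hτ1 : 1 ≤ τ := by
    rw [hτ, Real.one_le_sqrt, h200]; linarith
  have hK : 2 * K * Real.exp (-(τ ^ 2 / 2)) ≤ 1 / 100 := by
    rw [hτsq, mul_div_cancel_left₀ _ (by norm_num : (2 : ℝ) ≠ 0), Real.exp_neg,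
      Real.exp_log (by positivity)]
    apply le_of_eq
    field_simp
    norm_num
  have hN' : (n : ℝ) ^ k * 2 ^ (2 ^ k) * Real.exp (-(2 ^ n * ε ^ 2 / 8)) ≤ 1 / 100 := by
    have h1 := exp_numeric (k := k) hn (X := 2 ^ n * ε ^ 2 / 8 - 3) (by linarith)
    have h2 : Real.exp (-(2 ^ n * ε ^ 2 / 8)) =
        Real.exp (-(2 ^ n * ε ^ 2 / 8 - 3)) * Real.exp (-3) := by
      rw [← Real.exp_add]; congr 1; ring
    have h3 : Real.exp (-3) ≤ 1 / 12 := by
      rw [Real.exp_neg]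
      have h6 : (12 : ℝ) ≤ Real.exp 3 := by
        have h7 : (2.7 : ℝ) ≤ Real.exp 1 := by
          have := Real.exp_one_gt_d9; linarith
        calc (12 : ℝ) ≤ 2.7 ^ 3 := by norm_num
          _ ≤ Real.exp 1 ^ 3 := pow_le_pow_left₀ (by norm_num) h7 3
          _ = Real.exp 3 := by rw [← Real.exp_nat_mul]; norm_num
      rw [one_div]
      exact inv_anti₀ (by norm_num) h6
    rw [h2]
    calc (n : ℝ) ^ k * 2 ^ (2 ^ k) * (Real.exp (-(2 ^ n * ε ^ 2 / 8 - 3)) * Real.exp (-3))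
        = (n : ℝ) ^ k * 2 ^ (2 ^ k) * (2 * Real.exp (-(2 ^ n * ε ^ 2 / 8 - 3))) *
          (Real.exp (-3) / 2) := by ring
      _ ≤ 1 / 6 * ((1 / 12) / 2) := by
          apply mul_le_mul h1 _ (by positivity) (by norm_num)
          linarith
      _ ≤ 1 / 100 := by norm_num
  have hmain := spike_bound hn hKn hτ1 hε hε1 hk hKε hN' hK hA
  set z : ℝ := 40000 * ε ^ 2 * q with hz
  have e1 : √(K : ℝ) = Real.exp (y / 2) := by
    rw [Real.sqrt_eq_iff_mul_self_eq hK0.le (Real.exp_pos _).le, ← Real.exp_add, add_halves, hy,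
      Real.exp_log hK0]
  have e2 : 8 + y ≤ 8 * Real.exp (y / 8) := by
    have := Real.add_one_le_exp (y / 8)
    linarith
  have e3 : 1200000 * (k : ℝ) ^ 2 ≤ Real.exp (y / 8) := by
    have h1 : (1200000 * (k : ℝ) ^ 2) ^ 8 ≤ Real.exp (y / 8) ^ 8 := by
      rw [← Real.exp_nat_mul]
      have : ((8 : ℕ) : ℝ) * (y / 8) = y := by push_cast; ring
      rw [this, hy, Real.exp_log hK0]
      exact hKk
    exact le_of_pow_le_pow_left₀ (by norm_num) (Real.exp_pos _).le h1
  have e4 : (100 * k * τ) ^ 2 ≤ 160000 * (k : ℝ) ^ 2 * Real.exp (y / 8) := by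
    have h1 : (100 * k * τ) ^ 2 = 20000 * (k : ℝ) ^ 2 * (Real.log 200 + y) := by
      rw [mul_pow, mul_pow, hτsq, h200]; ring
    rw [h1]
    nlinarith
  have hez := Real.exp_pos z
  have e5 : Real.exp (y / 2) ≤ Real.exp z * (Real.exp (y / 8) * Real.exp (y / 8)) := by
    rw [e1] at hmain
    have h1 : 29 / 100 * Real.exp (y / 2) ≤
        2 * Real.exp z * (160000 * (k : ℝ) ^ 2 * Real.exp (y / 8)) :=
      hmain.trans (mul_le_mul_of_nonneg_left e4 (by positivity))
    have h2 : 2 * Real.exp z * (160000 * (k : ℝ) ^ 2 * Real.exp (y / 8)) ≤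
        29 / 100 * (Real.exp z * (Real.exp (y / 8) * Real.exp (y / 8))) := by
      have h3 : 320000 * (k : ℝ) ^ 2 ≤ 29 / 100 * Real.exp (y / 8) := by linarith
      have h4 := mul_le_mul_of_nonneg_right h3
        (show 0 ≤ Real.exp z * Real.exp (y / 8) by positivity)
      linarith
    linarith
  rw [← Real.exp_add, ← Real.exp_add, Real.exp_le_exp] at e5
  rw [hz] at e5
  linarith

/-- **The logarithmic lower bound**, with explicit constants. -/
theorem log_lower (hn : 0 < n) {ε : ℝ} (hε : 0 < ε) (hk : 1 ≤ k)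
    (hM : (1200000 * (k : ℝ) ^ 2) ^ 8 ≤ min (n : ℝ) (1 / ε))
    (hN : 6 + k * Real.log n + 2 ^ k ≤ 2 ^ n * ε ^ 2 / 8) {A : PMF (Tree n)}
    (hA : Approximates n k ε q A) :
    Real.log (min (n : ℝ) (1 / ε)) / (160000 * ε ^ 2) ≤ q := by
  have hk1 : (1 : ℝ) ≤ k := by exact_mod_cast hk
  have hk2 : (1 : ℝ) ≤ (k : ℝ) ^ 2 := one_le_pow₀ hk1
  have hb : (1200000 : ℝ) ≤ 1200000 * (k : ℝ) ^ 2 := by linarith
  have hM1 : (1200000 : ℝ) ≤ min (n : ℝ) (1 / ε) := by
    refine le_trans ?_ hM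
    calc (1200000 : ℝ) ≤ 1200000 * (k : ℝ) ^ 2 := hb
      _ ≤ (1200000 * (k : ℝ) ^ 2) ^ 8 := le_self_pow₀ (by linarith) (by norm_num)
  have hε1 : 1200000 * ε ≤ 1 := by
    have h1 := hM1.trans (min_le_right _ _)
    rwa [le_div_iff₀ hε] at h1
  set K := min n ⌊1 / (16 * ε ^ 2)⌋₊ with hK
  have hfl : 1 / ε ≤ (⌊1 / (16 * ε ^ 2)⌋₊ : ℝ) := by
    have h1 : 1 / (16 * ε ^ 2) < (⌊1 / (16 * ε ^ 2)⌋₊ : ℝ) + 1 := Nat.lt_floor_add_one _
    have h2 : 1 / ε + 1 ≤ 1 / (16 * ε ^ 2) := by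
      rw [div_add_one hε.ne', div_le_div_iff₀ hε (by positivity)]
      nlinarith
    linarith
  have hKR : (K : ℝ) = min (n : ℝ) (⌊1 / (16 * ε ^ 2)⌋₊ : ℝ) := by
    rw [hK]; push_cast; rfl
  have hKle : min (n : ℝ) (1 / ε) ≤ K := by
    rw [hKR]
    exact min_le_min (le_refl _) hfl
  have hKε : K * ε ^ 2 ≤ 1 / 16 := by
    have h1 : (K : ℝ) ≤ 1 / (16 * ε ^ 2) := by
      rw [hKR]
      exact (min_le_right _ _).trans (Nat.floor_le (by positivity))
    calc K * ε ^ 2 ≤ 1 / (16 * ε ^ 2) * ε ^ 2 := mul_le_mul_of_nonneg_right h1 (sq_nonneg ε)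
      _ = 1 / 16 := by field_simp
  have h1 := log_spike hn (min_le_left _ _) hε hk hKε (hM.trans hKle) hN hA
  have h2 : Real.log (min (n : ℝ) (1 / ε)) ≤ Real.log K :=
    Real.log_le_log (by linarith) hKle
  rw [div_le_iff₀ (by positivity)]
  linarith

/-- exponentials beat polynomials -/
theorem growth (hk : 1 ≤ k) (hM : (1200000 * (k : ℝ) ^ 2) ^ 8 ≤ n) :
    8 * (n : ℝ) ^ 2 * (6 + k * Real.log n + 2 ^ k) ≤ 2 ^ n := by
  have hk1 : (1 : ℝ) ≤ k := by exact_mod_cast hk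
  have hb : 1200000 * (k : ℝ) ≤ 1200000 * (k : ℝ) ^ 2 := by nlinarith
  have hnk : 1200000 * (k : ℝ) ≤ n := by
    refine le_trans hb (le_trans ?_ hM)
    exact le_self_pow₀ (by nlinarith) (by norm_num)
  have hnkN : 1200000 * k ≤ n := by exact_mod_cast hnk
  set m := n / 16 with hm
  have hm1 : k ≤ m := by omega
  have hm2 : 10 ≤ m := by omega
  have hm3 : 16 * m ≤ n := Nat.mul_div_le n 16
  have hm4 : n ≤ 16 * (m + 1) := by omega
  set P : ℝ := 2 ^ m with hP
  have hP1 : (m : ℝ) + 1 ≤ P := by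
    have : m + 1 ≤ 2 ^ m := Nat.lt_two_pow_self
    rw [hP]; exact_mod_cast this
  have hP2 : (2 : ℝ) ^ 10 ≤ P := pow_le_pow_right₀ (by norm_num) hm2
  have hP0 : 0 < P := by positivity
  have hnP : (n : ℝ) ≤ 16 * P := by
    have : (n : ℝ) ≤ 16 * ((m : ℝ) + 1) := by exact_mod_cast hm4
    linarith
  have hkP : (2 : ℝ) ^ k ≤ P := pow_le_pow_right₀ (by norm_num) hm1
  have hn0 : (0 : ℝ) < n := by linarith
  have hlog : Real.log n ≤ n := (Real.log_le_sub_one_of_pos hn0).trans (by linarith)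
  have hkn : (k : ℝ) ≤ n := by linarith
  have hlog0 : 0 ≤ Real.log n := Real.log_nonneg (by linarith)
  have h1 : k * Real.log n ≤ (n : ℝ) ^ 2 := by
    rw [sq]; exact mul_le_mul hkn hlog hlog0 hn0.le
  have h2 : (6 : ℝ) ≤ (n : ℝ) ^ 2 := by nlinarith
  have h3 : (n : ℝ) ^ 2 ≤ 256 * P ^ 2 := by
    have := pow_le_pow_left₀ hn0.le hnP 2
    rw [mul_pow] at this
    linarith
  have h4 : (n : ℝ) ^ 4 ≤ 65536 * P ^ 4 := by
    have := pow_le_pow_left₀ hn0.le hnP 4
    rw [mul_pow] at this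
    linarith
  have hpow : P ^ 16 ≤ 2 ^ n := by
    rw [hP, ← pow_mul]
    exact pow_le_pow_right₀ (by norm_num) (by omega)
  calc 8 * (n : ℝ) ^ 2 * (6 + k * Real.log n + 2 ^ k)
      ≤ 8 * (n : ℝ) ^ 2 * (n ^ 2 + n ^ 2 + P) := by gcongr
    _ = 16 * (n : ℝ) ^ 4 + 8 * n ^ 2 * P := by ring
    _ ≤ 16 * (65536 * P ^ 4) + 8 * (256 * P ^ 2) * P := by gcongr
    _ = 2 ^ 20 * P ^ 4 + 2 ^ 11 * P ^ 3 := by ring
    _ ≤ P ^ 2 * P ^ 4 + P ^ 2 * P ^ 3 := by
        have h5 : (2 : ℝ) ^ 20 ≤ P ^ 2 := by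
          calc (2 : ℝ) ^ 20 = (2 ^ 10) ^ 2 := by norm_num
            _ ≤ P ^ 2 := pow_le_pow_left₀ (by norm_num) hP2 2
        have h6 : (2 : ℝ) ^ 11 ≤ P ^ 2 := le_trans (by norm_num) h5
        gcongr
    _ = P ^ 6 + P ^ 5 := by ring
    _ ≤ P ^ 15 + P ^ 15 := by
        have hP3 : 1 ≤ P := le_trans (by norm_num) hP2
        gcongr <;> first | exact hP3 | norm_num
    _ = 2 * P ^ 15 := by ring
    _ ≤ P * P ^ 15 := by
        apply mul_le_mul_of_nonneg_right _ (by positivity)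
        exact le_trans (by norm_num) hP2
    _ = P ^ 16 := by ring
    _ ≤ 2 ^ n := hpow

/-- the logarithmic lower bound for all `n`, `k` and `ε` -/
theorem explicit_lower (hk : 1 ≤ k) (hkn : k < n) {ε : ℝ} (hε : 0 < ε) (hε4 : ε < 1 / 4) :
    min (2 ^ n / 2 ^ k) (Real.log (min n (1 / ε)) / ε ^ 2) / (20000000 * (1 + Real.log k)) ≤
      queryComplexity n k ε := by
  have hk1 : (1 : ℝ) ≤ k := by exact_mod_cast hk
  have hk0 : (0 : ℝ) < k := by linarith
  have hk2 : (1 : ℝ) ≤ (k : ℝ) ^ 2 := one_le_pow₀ hk1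
  have hlk : 0 ≤ Real.log k := Real.log_nonneg hk1
  set M : ℝ := (1200000 * (k : ℝ) ^ 2) ^ 8 with hM
  have hM1 : 1200000 ≤ M := by
    calc (1200000 : ℝ) ≤ 1200000 * (k : ℝ) ^ 2 := by linarith
      _ ≤ (1200000 * (k : ℝ) ^ 2) ^ 8 := le_self_pow₀ (by linarith) (by norm_num)
  have hM0 : 0 < M := by linarith
  have hlogM1 : 1 ≤ Real.log M := by
    rw [Real.le_log_iff_exp_le hM0]
    have := Real.exp_one_lt_d9; linarith
  have hlogM : Real.log M ≤ 120 * (1 + Real.log k) := by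
    rw [hM, Real.log_pow, Real.log_mul (by norm_num) (by positivity), Real.log_pow]
    have e3 : Real.log 1200000 ≤ 15 := by
      rw [Real.log_le_iff_le_exp (by norm_num)]
      have h7 : (2.7 : ℝ) ≤ Real.exp 1 := by
        have := Real.exp_one_gt_d9; linarith
      calc (1200000 : ℝ) ≤ 2.7 ^ 15 := by norm_num
        _ ≤ Real.exp 1 ^ 15 := pow_le_pow_left₀ (by norm_num) h7 15
        _ = Real.exp 15 := by rw [← Real.exp_nat_mul]; norm_num
    push_cast
    linarith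
  set E : ℝ := 20000000 * (1 + Real.log k) with hE
  have hE1 : 20000000 ≤ E := by rw [hE]; linarith
  have hE0 : 0 < E := by linarith
  have h2k : (1 : ℝ) ≤ 2 ^ k := one_le_pow₀ (by norm_num)
  have hn : 0 < n := by omega
  obtain ⟨A, hA⟩ := exists_approximates n k hε.le
  have h2n : (0 : ℝ) < 2 ^ n := by positivity
  have hmin1 : 1 ≤ min (n : ℝ) (1 / ε) := by
    apply le_min
    · exact_mod_cast hn
    · rw [one_le_div hε]; linarith
  have hL0 : 0 ≤ Real.log (min (n : ℝ) (1 / ε)) := Real.log_nonneg hmin1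
  rw [div_le_iff₀ hE0]
  rcases lt_or_ge (min (n : ℝ) (1 / ε)) M with hlt | hge
  · -- the basic bound
    have h1 := lower_bound hkn hε hε4 hA
    have hL : Real.log (min (n : ℝ) (1 / ε)) ≤ 120 * (1 + Real.log k) :=
      (Real.log_le_log (by linarith) hlt.le).trans hlogM
    have h2 : min (2 ^ n / 2 ^ k) (Real.log (min n (1 / ε)) / ε ^ 2) ≤
        (120 * (1 + Real.log k)) * min (2 ^ n) (1 / ε ^ 2) := by
      rw [mul_min_of_nonneg _ _ (by linarith)]
      apply min_le_min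
      · calc (2 : ℝ) ^ n / 2 ^ k ≤ 2 ^ n := div_le_self h2n.le h2k
          _ ≤ _ := le_mul_of_one_le_left h2n.le (by linarith)
      · rw [mul_one_div]
        exact div_le_div_of_nonneg_right hL (by positivity)
    have h3 : (120 * (1 + Real.log k)) * min (2 ^ n) (1 / ε ^ 2) ≤
        (120 * (1 + Real.log k)) * (4000 * queryComplexity n k ε) := by
      apply mul_le_mul_of_nonneg_left _ (by linarith)
      linarith
    have hq : (0 : ℝ) ≤ queryComplexity n k ε := Nat.cast_nonneg _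
    have h4 : 0 ≤ (1 + Real.log k) * (queryComplexity n k ε : ℝ) := by positivity
    rw [hE]
    linarith
  · rcases le_or_gt (6 + k * Real.log n + 2 ^ k) (2 ^ n * ε ^ 2 / 8) with hN | hN
    · -- the logarithmic bound
      have h1 := log_lower hn hε hk hge hN hA
      rw [div_le_iff₀ (by positivity)] at h1
      have hq : (0 : ℝ) ≤ queryComplexity n k ε := Nat.cast_nonneg _
      calc min (2 ^ n / 2 ^ k) (Real.log (min (n : ℝ) (1 / ε)) / ε ^ 2)
          ≤ Real.log (min (n : ℝ) (1 / ε)) / ε ^ 2 := min_le_right _ _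
        _ ≤ queryComplexity n k ε * 160000 := by
            rw [div_le_iff₀ (by positivity)]
            linarith
        _ ≤ queryComplexity n k ε * E := mul_le_mul_of_nonneg_left (by linarith) hq
    · -- the number of points is small
      have hnM : M ≤ n := hge.trans (min_le_left _ _)
      have hnR : (0 : ℝ) < n := by linarith
      have hgr := growth (n := n) hk hnM
      set X : ℝ := 6 + k * Real.log n + 2 ^ k with hX
      have hlogn : 1 ≤ Real.log n := by
        refine hlogM1.trans (Real.log_le_log hM0 hnM)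
      have hX0 : 0 < X := by rw [hX]; positivity
      set ε₂ : ℝ := √(8 * X / 2 ^ n) with hε₂
      have hε₂sq : ε₂ ^ 2 = 8 * X / 2 ^ n := Real.sq_sqrt (by positivity)
      have hε₂0 : 0 < ε₂ := Real.sqrt_pos.mpr (by positivity)
      have hεε : ε ≤ ε₂ := by
        apply le_of_sq_le_sq _ hε₂0.le
        rw [hε₂sq, le_div_iff₀ h2n]
        linarith
      have hnε₂ : (n : ℝ) ≤ 1 / ε₂ := by
        rw [le_div_iff₀ hε₂0]
        apply le_of_sq_le_sq _ zero_le_one
        rw [mul_pow, hε₂sq, one_pow, ← mul_div_assoc, div_le_one h2n]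
        linarith
      have hmin : min (n : ℝ) (1 / ε₂) = n := min_eq_left hnε₂
      have h1 := log_lower hn hε₂0 hk (by rw [hmin]; exact hnM)
        (by
          rw [hε₂sq, ← hX]
          apply le_of_eq
          field_simp) (hA.mono hεε)
      rw [hmin, hε₂sq] at h1
      have hXle : X ≤ 8 * 2 ^ k * Real.log n := by
        have hk2k : (k : ℝ) ≤ 2 ^ k := by
          have : k ≤ 2 ^ k := Nat.lt_two_pow_self.le
          exact_mod_cast this
        have h2 : X ≤ (6 + k + 2 ^ k) * Real.log n := by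
          rw [hX]
          nlinarith
        refine h2.trans (mul_le_mul_of_nonneg_right ?_ (by linarith))
        linarith
      have h3 : (2 : ℝ) ^ n / 2 ^ k ≤ 10240000 * queryComplexity n k ε := by
        have h4 : Real.log n / (160000 * (8 * X / 2 ^ n)) =
            2 ^ n * Real.log n / (1280000 * X) := by
          field_simp
          norm_num
        rw [h4, div_le_iff₀ (by positivity)] at h1
        rw [div_le_iff₀ (by positivity)]
        have hq : (0 : ℝ) ≤ queryComplexity n k ε := Nat.cast_nonneg _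
        have h5 : (2 : ℝ) ^ n * Real.log n ≤
            (10240000 * queryComplexity n k ε * 2 ^ k) * Real.log n := by
          calc (2 : ℝ) ^ n * Real.log n ≤ queryComplexity n k ε * (1280000 * X) := h1
            _ ≤ queryComplexity n k ε * (1280000 * (8 * 2 ^ k * Real.log n)) := by gcongr
            _ = _ := by ring
        exact le_of_mul_le_mul_right h5 (by linarith)
      have hq : (0 : ℝ) ≤ queryComplexity n k ε := Nat.cast_nonneg _
      calc min (2 ^ n / 2 ^ k) (Real.log (min (n : ℝ) (1 / ε)) / ε ^ 2) ≤ 2 ^ n / 2 ^ k :=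
            min_le_left _ _
        _ ≤ 10240000 * queryComplexity n k ε := h3
        _ ≤ queryComplexity n k ε * E := by nlinarith

end Pool.Agent.Work.MP_8f25a0_lc
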