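import Pool.Agent.Work.MP_8f25a0_lc.Sampling

/-!
# The upper bound
-/

namespace Pool.Agent.Work.MP_8f25a0_lc

open Finset

variable {n m k Q : ℕ}

/-- from averages to the uniform distribution -/
theorem uniform_ge {Ω : Type*} [Fintype Ω] [Nonempty Ω] {S : Set Ω} [DecidablePred (· ∈ S)]
    (h : avg (fun ω : Ω => if ω ∈ S then (0 : ℝ) else 1) ≤ 1 / 3) :
    2 / 3 ≤ (PMF.uniformOfFintype Ω).toOuterMeasure S := by
  rw [PMF.toOuterMeasure_uniformOfFintype_apply]
  have hcard : (0 : ℝ) < Fintype.card Ω := by exact_mod_cast Fintype.card_pos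
  have h1 : (Fintype.card Ω : ℝ) = (Fintype.card S : ℝ) +
      ∑ ω : Ω, if ω ∈ S then (0 : ℝ) else 1 := by
    have h2 : (Fintype.card S : ℝ) = ∑ ω : Ω, if ω ∈ S then (1 : ℝ) else 0 := by
      rw [← sum_filter, sum_const, nsmul_eq_mul, mul_one]
      congr 1
      rw [Fintype.card_subtype]
    rw [h2, ← sum_add_distrib]
    have : ∀ ω : Ω, (if ω ∈ S then (1 : ℝ) else 0) + (if ω ∈ S then 0 else 1) = 1 := by
      intro ω; split_ifs <;> norm_num
    simp_rw [this]
    simp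
  unfold avg at h
  rw [div_le_iff₀ hcard] at h
  have h3 : 2 * (Fintype.card Ω : ℝ) ≤ 3 * (Fintype.card S : ℝ) := by linarith
  have h4 : 2 * Fintype.card Ω ≤ 3 * Fintype.card S := by exact_mod_cast h3
  have hc : (Fintype.card Ω : ENNReal) ≠ 0 := by
    simp
  have hc' : (Fintype.card Ω : ENNReal) ≠ ⊤ := by simp
  rw [ENNReal.le_div_iff_mul_le (Or.inl hc) (Or.inl hc')]
  have e : (2 / 3 : ENNReal) * (Fintype.card Ω : ENNReal) = (2 * Fintype.card Ω) / 3 := by
    rw [ENNReal.div_eq_inv_mul, ENNReal.div_eq_inv_mul, mul_assoc]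
  rw [e, ENNReal.div_le_iff (by norm_num) (by norm_num), mul_comm (Fintype.card S : ENNReal)]
  exact_mod_cast h4

/-- the algorithm: identify the variables at random, then sample -/
noncomputable def algo (n m k Q : ℕ)
    (ω : ((Fin n → Fin m) × (Fin n → Bool)) × (Fin Q → Cube m)) : Tree n :=
  Tree.nonadaptive (List.ofFn fun j => app ω.1.1 ω.1.2 (ω.2 j))
    fun bs => est k (fun j : Fin Q => bs.getD j false) ω.2

theorem eval_algo (f : Cube n → Bool)
    (ω : ((Fin n → Fin m) × (Fin n → Bool)) × (Fin Q → Cube m)) :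
    (algo n m k Q ω).eval f = est k (fun j => f (app ω.1.1 ω.1.2 (ω.2 j))) ω.2 := by
  unfold algo
  rw [Tree.eval_nonadaptive]
  congr 1
  funext j
  rw [List.map_ofFn, List.getD_eq_getElem _ _ (by simp)]
  simp

theorem approximates_algo (hm : 0 < m) (hQ : 0 < Q) {ε : ℝ} (hε : 0 < ε)
    (h1 : ∀ f : Cube n → Bool, avg (fun q : (Fin n → Fin m) × (Fin n → Bool) =>
      if ε / 2 < |distK k (fun s => f (app q.1 q.2 s)) - distK k f| then (1 : ℝ) else 0) ≤ 1 / 6)
    (h2 : (m : ℝ) ^ k * 2 ^ (2 ^ k) * (2 * Real.exp (-(Q * (ε / 2) ^ 2 / 2))) ≤ 1 / 6) :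
    ∃ A : PMF (Tree n), Approximates n k ε Q A := by
  classical
  have : Nonempty (Fin m) := ⟨⟨0, hm⟩⟩
  refine ⟨(PMF.uniformOfFintype
    (((Fin n → Fin m) × (Fin n → Bool)) × (Fin Q → Cube m))).map (algo n m k Q), ?_, ?_⟩
  · intro T hT
    rw [PMF.support_map] at hT
    obtain ⟨ω, -, rfl⟩ := hT
    unfold algo
    rw [Tree.depth_nonadaptive, List.length_ofFn]
  · intro f
    rw [PMF.toOuterMeasure_map_apply]
    apply uniform_ge
    have key : ∀ ω : ((Fin n → Fin m) × (Fin n → Bool)) × (Fin Q → Cube m),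
        (if ω ∈ (algo n m k Q ⁻¹' {T | |T.eval f - distK k f| ≤ ε}) then (0 : ℝ) else 1) ≤
        (if ε / 2 < |distK k (fun s => f (app ω.1.1 ω.1.2 s)) - distK k f| then (1 : ℝ) else 0) +
        (if ε / 2 < |est k (fun j => (fun s => f (app ω.1.1 ω.1.2 s)) (ω.2 j)) ω.2 -
          distK k (fun s => f (app ω.1.1 ω.1.2 s))| then (1 : ℝ) else 0) := by
      intro ω
      have n1 : ∀ (p : Prop) [Decidable p], (0 : ℝ) ≤ if p then 1 else 0 := by
        intro p _; split_ifs <;> norm_num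
      by_cases h : ω ∈ (algo n m k Q ⁻¹' {T | |T.eval f - distK k f| ≤ ε})
      · rw [if_pos h]
        exact add_nonneg (n1 _) (n1 _)
      · rw [if_neg h]
        simp only [Set.mem_preimage, Set.mem_ofPred_eq, not_le, eval_algo] at h
        by_cases h3 : ε / 2 < |distK k (fun s => f (app ω.1.1 ω.1.2 s)) - distK k f|
        · rw [if_pos h3]
          have := n1 (ε / 2 < |est k (fun j => (fun s => f (app ω.1.1 ω.1.2 s)) (ω.2 j)) ω.2 -
            distK k (fun s => f (app ω.1.1 ω.1.2 s))|)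
          linarith
        · have h4 : ε / 2 < |est k (fun j => (fun s => f (app ω.1.1 ω.1.2 s)) (ω.2 j)) ω.2 -
              distK k (fun s => f (app ω.1.1 ω.1.2 s))| := by
            push Not at h3
            have h5 := abs_sub_le (est k (fun j => f (app ω.1.1 ω.1.2 (ω.2 j))) ω.2)
              (distK k (fun s => f (app ω.1.1 ω.1.2 s))) (distK k f)
            linarith
          rw [if_neg h3, if_pos h4]
          norm_num
    refine (avg_mono key).trans ?_
    rw [avg_add]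
    have e1 : avg (fun ω : ((Fin n → Fin m) × (Fin n → Bool)) × (Fin Q → Cube m) =>
        if ε / 2 < |distK k (fun s => f (app ω.1.1 ω.1.2 s)) - distK k f| then (1 : ℝ) else 0) ≤
        1 / 6 := by
      rw [avg_prod]
      refine le_trans (le_of_eq ?_) (h1 f)
      congr 1
      funext q
      rw [← avg_const (α := Fin Q → Cube m)
        (if ε / 2 < |distK k (fun s => f (app q.1 q.2 s)) - distK k f| then (1 : ℝ) else 0)]
    have e2 : avg (fun ω : ((Fin n → Fin m) × (Fin n → Bool)) × (Fin Q → Cube m) =>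
        if ε / 2 < |est k (fun j => (fun s => f (app ω.1.1 ω.1.2 s)) (ω.2 j)) ω.2 -
          distK k (fun s => f (app ω.1.1 ω.1.2 s))| then (1 : ℝ) else 0) ≤ 1 / 6 := by
      rw [avg_prod]
      apply avg_le_of_forall
      intro q
      exact (sampling hm hQ (fun s => f (app q.1 q.2 s)) (by positivity)).trans h2
    linarith

theorem mul_succ_le (k : ℕ) : ((k : ℝ) + 1) ^ 2 ≤ 4 * 2 ^ k := by
  have h : ∀ k : ℕ, (k + 1) ^ 2 ≤ 4 * 2 ^ k := by
    intro k
    induction k with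
    | zero => norm_num
    | succ k ih =>
      rcases Nat.lt_or_ge k 2 with hk | hk
      · interval_cases k <;> norm_num
      · rw [pow_succ 2 k]
        nlinarith
  exact_mod_cast h k

/-- The upper bound. -/
theorem upper_bound (n k : ℕ) {ε : ℝ} (hε0 : 0 < ε) (hε : ε < 1 / 4) :
    ∃ Q : ℕ, (Q : ℝ) ≤ 2000 * ((2 ^ k + k * Real.log (1 / ε)) / ε ^ 2) ∧
      ∃ A : PMF (Tree n), Approximates n k ε Q A := by
  set e := ε / 2 with he
  have he0 : 0 < e := by positivity
  have he1 : e ≤ 1 := by linarith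
  set L := Real.log (1 / ε) with hL
  have hL1 : 1 ≤ L := by
    rw [hL, Real.le_log_iff_exp_le (by positivity)]
    have h1 := Real.exp_one_lt_d9
    rw [le_div_iff₀ hε0]
    nlinarith [Real.exp_pos 1]
  have he4 : 0 < e ^ 4 := by positivity
  have he4' : e ^ 4 ≤ 1 := pow_le_one₀ he0.le he1
  have he24 : e ^ 4 ≤ e ^ 2 := by
    have : e ^ 4 = e ^ 2 * e ^ 2 := by ring
    rw [this]
    have h2 : e ^ 2 ≤ 1 := pow_le_one₀ he0.le he1
    nlinarith [sq_nonneg e]
  set D : ℝ := 18 ^ k / e ^ 4 with hD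
  have h18 : (1 : ℝ) ≤ 18 ^ k := one_le_pow₀ (by norm_num)
  have hD1 : 1 ≤ D := by
    rw [hD, one_le_div he4]; linarith
  have hD0 : 0 < D := by linarith
  have hDe : 1 / e ^ 2 ≤ D := by
    rw [hD, div_le_div_iff₀ (by positivity) he4]
    nlinarith [sq_nonneg e]
  set M : ℝ := 30000 * ((k + 1) ^ 2 * D ^ 2) with hM
  have hk1 : (1 : ℝ) ≤ (k + 1) ^ 2 := by
    have : (0 : ℝ) ≤ k := Nat.cast_nonneg k
    nlinarith
  have hDD : D ≤ D ^ 2 := by nlinarith
  have hM1 : 30000 ≤ M := by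
    rw [hM]
    have : 1 ≤ ((k : ℝ) + 1) ^ 2 * D ^ 2 := by nlinarith
    linarith
  set m := ⌈M⌉₊ with hm
  have hmM : M ≤ m := Nat.le_ceil M
  have hm0 : 0 < m := by
    rw [hm, Nat.ceil_pos]; linarith
  have hmR : (0 : ℝ) < m := by exact_mod_cast hm0
  have hmle : (m : ℝ) ≤ 2 * M := by
    have := (Nat.ceil_lt_add_one (show 0 ≤ M by linarith)).le
    rw [← hm] at this
    linarith
  -- the reduction
  have hred : ∀ f : Cube n → Bool, avg (fun q : (Fin n → Fin m) × (Fin n → Bool) =>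
      if ε / 2 < |distK k (fun s => f (app q.1 q.2 s)) - distK k f| then (1 : ℝ) else 0) ≤
      1 / 6 := by
    intro f
    have hτ : (0 : ℝ) < 1 / (24 * D) := by positivity
    refine (reduce (m := m) f he0 hτ).trans ?_
    have hk2 : (0 : ℝ) ≤ ((k : ℝ) + 1) ^ 2 * D ^ 2 := by positivity
    have a1 : 9 ^ k * (1 / (24 * D) + 1 / m) / (e ^ 4 / 2 ^ k) ≤ 1 / 24 + 1 / 1000 := by
      have h1 : 9 ^ k * (1 / (24 * D) + 1 / m) / (e ^ 4 / 2 ^ k) = D * (1 / (24 * D) + 1 / m) := by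
        rw [hD, show (18 : ℝ) = 9 * 2 by norm_num, mul_pow]
        field_simp
      rw [h1, mul_add]
      have h2 : D * (1 / (24 * D)) = 1 / 24 := by field_simp
      have h3 : D * (1 / m) ≤ 1 / 1000 := by
        rw [mul_one_div, div_le_div_iff₀ hmR (by norm_num)]
        have : 1000 * D ≤ M := by
          rw [hM]
          nlinarith [mul_le_mul hk1 hDD hD0.le (by positivity)]
        linarith
      linarith
    have a2 : 3 * ((k : ℝ) + 1) ^ 2 / m / e ^ 2 ≤ 1 / 1000 := by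
      have h1 : 3 * ((k : ℝ) + 1) ^ 2 / m / e ^ 2 = 3 * (k + 1) ^ 2 * (1 / e ^ 2) / m := by ring
      rw [h1, div_le_div_iff₀ hmR (by norm_num)]
      have h2 : 3 * ((k : ℝ) + 1) ^ 2 * (1 / e ^ 2) ≤ 3 * (k + 1) ^ 2 * D ^ 2 :=
        mul_le_mul_of_nonneg_left (hDe.trans hDD) (by positivity)
      have : 3000 * (((k : ℝ) + 1) ^ 2 * D ^ 2) ≤ M := by rw [hM]; linarith
      nlinarith
    have a3 : ((k : ℝ) / (1 / (24 * D))) ^ 2 / m ≤ 1 / 50 := by
      have h1 : ((k : ℝ) / (1 / (24 * D))) ^ 2 = 576 * (k ^ 2 * D ^ 2) := by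
        field_simp
        ring
      rw [h1, div_le_div_iff₀ hmR (by norm_num)]
      have h2 : (k : ℝ) ^ 2 * D ^ 2 ≤ (k + 1) ^ 2 * D ^ 2 := by
        apply mul_le_mul_of_nonneg_right _ (by positivity)
        have : (0 : ℝ) ≤ k := Nat.cast_nonneg k
        nlinarith
      have : 28800 * (((k : ℝ) + 1) ^ 2 * D ^ 2) ≤ M := by rw [hM]; linarith
      nlinarith
    have a4 : 1 / (m : ℝ) / e ^ 2 ≤ 1 / 1000 := by
      have h1 : 1 / (m : ℝ) / e ^ 2 = (1 / e ^ 2) / m := by ring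
      rw [h1, div_le_div_iff₀ hmR (by norm_num)]
      have h2 : 1 / e ^ 2 ≤ (k + 1) ^ 2 * D ^ 2 := by nlinarith [hDe.trans hDD]
      have : 1000 * (((k : ℝ) + 1) ^ 2 * D ^ 2) ≤ M := by rw [hM]; linarith
      linarith
    linarith
  -- the number of samples
  set K : ℝ := 3 + k * Real.log m + 2 ^ k with hK
  have hlogm : 0 ≤ Real.log m := Real.log_nonneg (by exact_mod_cast hm0)
  have hK0 : 0 < K := by positivity
  set Q := ⌈8 / ε ^ 2 * K⌉₊ with hQ
  have hQ0 : 0 < Q := by rw [hQ, Nat.ceil_pos]; positivity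
  have hQge : 8 / ε ^ 2 * K ≤ Q := Nat.le_ceil _
  have hexp : (m : ℝ) ^ k * 2 ^ (2 ^ k) * (2 * Real.exp (-(Q * (ε / 2) ^ 2 / 2))) ≤ 1 / 6 := by
    have h1 : K ≤ Q * (ε / 2) ^ 2 / 2 := by
      have h2 : Q * (ε / 2) ^ 2 / 2 = Q * (ε ^ 2 / 8) := by ring
      rw [h2]
      calc K = 8 / ε ^ 2 * K * (ε ^ 2 / 8) := by field_simp
        _ ≤ Q * (ε ^ 2 / 8) := mul_le_mul_of_nonneg_right hQge (by positivity)
    have h2 : Real.exp (-(Q * (ε / 2) ^ 2 / 2)) ≤ Real.exp (-K) :=
      Real.exp_le_exp.mpr (by linarith)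
    have h3 : (m : ℝ) ^ k = Real.exp (k * Real.log m) := by
      rw [Real.exp_nat_mul, Real.exp_log hmR]
    have h4 : (2 : ℝ) ^ (2 ^ k) ≤ Real.exp (2 ^ k) := by
      have h5 : (2 : ℝ) ≤ Real.exp 1 := by
        have := Real.add_one_le_exp (1 : ℝ); linarith
      calc (2 : ℝ) ^ (2 ^ k) ≤ Real.exp 1 ^ (2 ^ k) := pow_le_pow_left₀ (by norm_num) h5 _
        _ = Real.exp (2 ^ k) := by
          rw [← Real.exp_nat_mul]; congr 1; push_cast; ring
    calc (m : ℝ) ^ k * 2 ^ (2 ^ k) * (2 * Real.exp (-(Q * (ε / 2) ^ 2 / 2)))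
        ≤ Real.exp (k * Real.log m) * Real.exp (2 ^ k) * (2 * Real.exp (-K)) := by
          rw [h3]
          gcongr
      _ = 2 * Real.exp (-3) := by
          rw [hK]
          rw [← Real.exp_add]
          rw [mul_left_comm, ← Real.exp_add]
          congr 2
          ring
      _ ≤ 1 / 6 := by
          rw [Real.exp_neg]
          have h6 : (12 : ℝ) ≤ Real.exp 3 := by
            have h7 : (2.7 : ℝ) ≤ Real.exp 1 := by
              have := Real.exp_one_gt_d9; linarith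
            calc (12 : ℝ) ≤ 2.7 ^ 3 := by norm_num
              _ ≤ Real.exp 1 ^ 3 := pow_le_pow_left₀ (by norm_num) h7 3
              _ = Real.exp 3 := by rw [← Real.exp_nat_mul]; norm_num
          rw [← div_eq_mul_inv, div_le_div_iff₀ (Real.exp_pos _) (by norm_num)]
          linarith
  refine ⟨Q, ?_, approximates_algo hm0 hQ0 hε0 hred hexp⟩
  -- the size of `Q`
  have hk0 : (0 : ℝ) ≤ k := Nat.cast_nonneg k
  have h2k : (1 : ℝ) ≤ 2 ^ k := one_le_pow₀ (by norm_num)
  have hlogm2 : Real.log m ≤ 27 + 8 * k + 8 * L := by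
    have h1 : (m : ℝ) ≤ 60000 * (((k + 1) * 18 ^ k) ^ 2 * (2 / ε) ^ 8) := by
      refine hmle.trans (le_of_eq ?_)
      rw [hM, hD, he]
      field_simp
      ring
    have h2 : Real.log m ≤ Real.log (60000 * (((k + 1) * 18 ^ k) ^ 2 * (2 / ε) ^ 8)) :=
      Real.log_le_log hmR h1
    refine h2.trans ?_
    have hk2 : (0 : ℝ) < (k : ℝ) + 1 := by positivity
    rw [Real.log_mul (by norm_num) (by positivity), Real.log_mul (by positivity) (by positivity),
      Real.log_pow, Real.log_pow, Real.log_mul (by positivity) (by positivity), Real.log_pow]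
    have e1 : Real.log (2 / ε) = Real.log 2 + L := by
      rw [hL, ← Real.log_mul (by norm_num) (by positivity)]
      congr 1
      ring
    have e2 : Real.log 2 ≤ 0.6931471808 := Real.log_two_lt_d9.le
    have e3 : Real.log 60000 ≤ 16 * 0.6931471808 := by
      have : Real.log 60000 ≤ Real.log (2 ^ 16) := Real.log_le_log (by norm_num) (by norm_num)
      rw [Real.log_pow] at this
      push_cast at this
      linarith
    have e4 : Real.log 18 ≤ 3 := by
      rw [Real.log_le_iff_le_exp (by norm_num)]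
      have h7 : (2.7 : ℝ) ≤ Real.exp 1 := by
        have := Real.exp_one_gt_d9; linarith
      calc (18 : ℝ) ≤ 2.7 ^ 3 := by norm_num
        _ ≤ Real.exp 1 ^ 3 := pow_le_pow_left₀ (by norm_num) h7 3
        _ = Real.exp 3 := by rw [← Real.exp_nat_mul]; norm_num
    have e5 : Real.log ((k : ℝ) + 1) ≤ k := by
      have := Real.log_le_sub_one_of_pos hk2
      linarith
    rw [e1]
    push_cast
    nlinarith
  have hklog : k * Real.log m ≤ 35 * (4 * 2 ^ k) + 8 * (k * L) := by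
    have h1 := mul_succ_le k
    calc k * Real.log m ≤ k * (27 + 8 * k + 8 * L) := mul_le_mul_of_nonneg_left hlogm2 hk0
      _ ≤ 35 * (k + 1) ^ 2 + 8 * (k * L) := by nlinarith
      _ ≤ _ := by linarith
  have hKle : K ≤ 144 * 2 ^ k + 8 * (k * L) := by
    rw [hK]; linarith
  have hkL : 0 ≤ k * L := by positivity
  have hε2 : 1 ≤ 1 / ε ^ 2 := by
    rw [le_div_iff₀ (by positivity)]
    nlinarith
  calc (Q : ℝ) ≤ 8 / ε ^ 2 * K + 1 := (Nat.ceil_lt_add_one (by positivity)).le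
    _ ≤ 8 / ε ^ 2 * (144 * 2 ^ k + 8 * (k * L)) + 2 ^ k * (1 / ε ^ 2) := by
        have h1 : 8 / ε ^ 2 * K ≤ 8 / ε ^ 2 * (144 * 2 ^ k + 8 * (k * L)) :=
          mul_le_mul_of_nonneg_left hKle (by positivity)
        nlinarith
    _ = (1153 * 2 ^ k + 64 * (k * L)) / ε ^ 2 := by field_simp; ring
    _ ≤ 2000 * ((2 ^ k + k * L) / ε ^ 2) := by
        rw [← mul_div_assoc]
        apply div_le_div_of_nonneg_right _ (by positivity)
        nlinarith

end Pool.Agent.Work.MP_8f25a0_lc
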