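import Pool.Agent.Work.MP_8f25a0_lc.Product

/-!
# The lower bound `c min(2 ^ n, 1 / ε ^ 2)`
-/

namespace Pool.Agent.Work.MP_8f25a0_lc

open Finset

variable {n k : ℕ}

/-- `x` has an even number of ones -/
def ev (x : Cube n) : Prop := Even (univ.filter fun i => x i = true).card

instance : DecidablePred (ev : Cube n → Prop) := fun _ => inferInstanceAs (Decidable (Even _))

/-- flipping a coordinate -/
def flip (i : Fin n) (x : Cube n) : Cube n := Function.update x i (!x i)

theorem flip_flip (i : Fin n) (x : Cube n) : flip i (flip i x) = x := by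
  unfold flip
  simp

theorem ev_flip (i : Fin n) (x : Cube n) : ev (flip i x) ↔ ¬ ev x := by
  unfold ev flip
  rcases Bool.eq_false_or_eq_true (x i) with h | h
  · have h1 : (univ.filter fun j => x j = true) =
        insert i (univ.filter fun j => Function.update x i (!x i) j = true) := by
      ext j
      by_cases hj : j = i
      · subst hj; simp [h]
      · simp [hj]
    have h2 : i ∉ (univ.filter fun j => Function.update x i (!x i) j = true) := by simp [h]
    rw [h1, card_insert_of_notMem h2, Nat.even_add_one, not_not]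
  · have h1 : (univ.filter fun j => Function.update x i (!x i) j = true) =
        insert i (univ.filter fun j => x j = true) := by
      ext j
      by_cases hj : j = i
      · subst hj; simp [h]
      · simp [hj]
    have h2 : i ∉ (univ.filter fun j => x j = true) := by simp [h]
    rw [h1, card_insert_of_notMem h2, Nat.even_add_one]

theorem flip_bijective (i : Fin n) : Function.Bijective (flip i) :=
  Function.Involutive.bijective (flip_flip i)

theorem two_mul_card_ev (hn : 0 < n) : 2 * (univ.filter (ev : Cube n → Prop)).card = 2 ^ n := by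
  have i : Fin n := ⟨0, hn⟩
  have h1 : (univ.filter (ev : Cube n → Prop)).card =
      (univ.filter (fun x : Cube n => ¬ ev x)).card := by
    apply card_bij' (fun x _ => flip i x) (fun x _ => flip i x)
    · intro x hx
      simp only [mem_filter, mem_univ, true_and] at hx ⊢
      rw [ev_flip]; simpa using hx
    · intro x hx
      simp only [mem_filter, mem_univ, true_and] at hx ⊢
      rw [ev_flip]; exact hx
    · intro x _; exact flip_flip i x
    · intro x _; exact flip_flip i x
  have h2 := card_filter_add_card_filter_not (s := (univ : Finset (Cube n))) ev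
  rw [← h1] at h2
  have h3 : (univ : Finset (Cube n)).card = 2 ^ n := by simp
  omega

/-- The distance of a function supported on the even points to the `k`-juntas. -/
theorem distK_of_even (hk : k < n) {f : Cube n → Bool} (hf : ∀ x, f x = true → ev x) :
    distK k f = ((univ.filter fun x => f x = true).card : ℝ) / 2 ^ n := by
  apply le_antisymm
  · have h := distK_le (k := k) (f := f) (isJunta_const false)
    unfold dist at h
    simpa using h
  · apply le_distK
    rintro g ⟨J, hJ, hg⟩
    obtain ⟨i, hi⟩ : ∃ i : Fin n, i ∉ J := by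
      by_contra hcon
      push Not at hcon
      have : (univ : Finset (Fin n)) ⊆ J := fun i _ => hcon i
      have := card_le_card this
      rw [card_univ, Fintype.card_fin] at this
      omega
    have hgf : ∀ x, g (flip i x) = g x := by
      intro x
      apply hg
      intro j hj
      unfold flip
      rw [Function.update_of_ne]
      rintro rfl
      exact hi hj
    unfold dist
    apply div_le_div_of_nonneg_right _ (by positivity)
    have h1 : ((univ.filter fun x => f x = true).card : ℝ) =
        ∑ x, if f x = true then (1 : ℝ) else 0 := by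
      rw [← sum_filter, sum_const, nsmul_eq_mul, mul_one]
    have h2 : ((univ.filter fun x => f x ≠ g x).card : ℝ) =
        ∑ x, if f x ≠ g x then (1 : ℝ) else 0 := by
      rw [← sum_filter, sum_const, nsmul_eq_mul, mul_one]
    rw [h1, h2]
    have h3 : ∀ F : Cube n → ℝ, ∑ x, F (flip i x) = ∑ x, F x := fun F =>
      (flip_bijective i).sum_comp F
    have h4 : ∑ x, ((if f x = true then (1 : ℝ) else 0) + (if f (flip i x) = true then 1 else 0)) ≤
        ∑ x, ((if f x ≠ g x then (1 : ℝ) else 0) +
          (if f (flip i x) ≠ g (flip i x) then 1 else 0)) := by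
      apply sum_le_sum
      intro x _
      rw [hgf]
      have h5 : ¬ (f x = true ∧ f (flip i x) = true) := by
        rintro ⟨ha, hb⟩
        exact (ev_flip i x).mp (hf _ hb) (hf _ ha)
      revert h5
      cases f x <;> cases f (flip i x) <;> cases g x <;> simp
    rw [sum_add_distrib, sum_add_distrib, h3 (fun x => if f x = true then (1 : ℝ) else 0),
      h3 (fun x => if f x ≠ g x then (1 : ℝ) else 0)] at h4
    linarith

/-- the number of ones -/
noncomputable def X (a : Cube n → Bool) : ℝ := ∑ x, bit (a x)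

theorem X_eq (a : Cube n → Bool) : X a = ((univ.filter fun x => a x = true).card : ℝ) := by
  unfold X bit
  rw [← sum_filter, sum_const, nsmul_eq_mul, mul_one]

theorem Ex_mul_sub {p : Cube n → ℝ} {x y : Cube n} (hxy : x ≠ y) :
    Ex p (fun a => (bit (a x) - p x) * (bit (a y) - p y)) = 0 := by
  unfold Ex W
  have h : ∀ a : Cube n → Bool, (∏ w, pb (p w) (a w)) * ((bit (a x) - p x) * (bit (a y) - p y)) =
      ∏ w, (pb (p w) (a w) * (if w = x then bit (a w) - p w else 1) *
        (if w = y then bit (a w) - p w else 1)) := by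
    intro a
    rw [prod_mul_distrib, prod_mul_distrib, prod_ite_eq' univ x, prod_ite_eq' univ y]
    simp only [mem_univ, if_true]
    ring
  simp_rw [h]
  rw [sum_prod_eq fun w b => pb (p w) b * (if w = x then bit b - p w else 1) *
        (if w = y then bit b - p w else 1)]
  apply prod_eq_zero (mem_univ x)
  rw [Fintype.sum_bool]
  simp only [if_true, if_neg hxy, mul_one, pb_true, pb_false]
  simp only [bit]
  norm_num
  ring

theorem Ex_sq_sub (p : Cube n → ℝ) (x : Cube n) :
    Ex p (fun a => (bit (a x) - p x) * (bit (a x) - p x)) = p x * (1 - p x) := by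
  rw [Ex_cond p _ x, Fintype.sum_bool]
  have h : ∀ b, Ex (Function.update p x (bit b)) (fun a => (bit (a x) - p x) * (bit (a x) - p x)) =
      (bit b - p x) * (bit b - p x) := by
    intro b
    rw [Ex_update_congr p (g' := fun _ => (bit b - p x) * (bit b - p x))
      (by intro a ha; simp only [ha]), Ex_const]
  rw [h, h, pb_true, pb_false]
  simp only [bit]
  norm_num
  ring

theorem variance (p : Cube n → ℝ) :
    Ex p (fun a => (X a - ∑ x, p x) ^ 2) = ∑ x, p x * (1 - p x) := by
  have h : ∀ a : Cube n → Bool, (X a - ∑ x, p x) ^ 2 =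
      ∑ x, ∑ y, (bit (a x) - p x) * (bit (a y) - p y) := by
    intro a
    unfold X
    rw [← sum_sub_distrib, sq, sum_mul_sum]
  unfold Ex
  simp_rw [h, mul_sum]
  rw [sum_comm]
  apply sum_congr rfl
  intro x _
  rw [sum_comm]
  have e : ∀ y, ∑ a, W p a * ((bit (a x) - p x) * (bit (a y) - p y)) =
      Ex p (fun a => (bit (a x) - p x) * (bit (a y) - p y)) := fun _ => rfl
  rw [sum_eq_single x]
  · rw [e, Ex_sq_sub]
  · intro y _ hy
    rw [e, Ex_mul_sub hy.symm]
  · simp

theorem chebyshev {p : Cube n → ℝ} (h0 : ∀ x, 0 ≤ p x) (h1 : ∀ x, p x ≤ 1) {t : ℝ} (ht : 0 < t) :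
    Ex p (fun a => if t ≤ |X a - ∑ x, p x| then 1 else 0) ≤ (∑ x, p x * (1 - p x)) / t ^ 2 := by
  rw [le_div_iff₀ (by positivity), ← variance p]
  have : Ex p (fun a => if t ≤ |X a - ∑ x, p x| then (1 : ℝ) else 0) * t ^ 2 =
      Ex p (fun a => (if t ≤ |X a - ∑ x, p x| then 1 else 0) * t ^ 2) := by
    unfold Ex
    rw [sum_mul]
    apply sum_congr rfl
    intro a _
    ring
  rw [this]
  apply Ex_mono h0 h1
  intro a _
  split_ifs with h
  · rw [one_mul, ← sq_abs (X a - ∑ x, p x)]
    exact pow_le_pow_left₀ ht.le h 2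
  · rw [zero_mul]
    positivity

/-- biases `1/2 + δ` at the even points -/
noncomputable def bias (n : ℕ) (δ : ℝ) (x : Cube n) : ℝ := if ev x then 1 / 2 + δ else 0

theorem bias_nonneg {δ : ℝ} (h : -(1 / 2) ≤ δ) (x : Cube n) : 0 ≤ bias n δ x := by
  unfold bias; split_ifs <;> linarith

theorem bias_le_one {δ : ℝ} (h : δ ≤ 1 / 2) (x : Cube n) : bias n δ x ≤ 1 := by
  unfold bias; split_ifs <;> linarith

theorem sum_bias (hn : 0 < n) (δ : ℝ) : ∑ x, bias n δ x = 2 ^ n / 2 * (1 / 2 + δ) := by
  unfold bias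
  rw [← sum_filter, sum_const, nsmul_eq_mul]
  have h : 2 * ((univ.filter (ev : Cube n → Prop)).card : ℝ) = 2 ^ n := by
    exact_mod_cast two_mul_card_ev hn
  rw [← h]
  ring

theorem sum_bias_var (hn : 0 < n) (δ : ℝ) :
    ∑ x, bias n δ x * (1 - bias n δ x) ≤ 2 ^ n / 8 := by
  have h : 2 * ((univ.filter (ev : Cube n → Prop)).card : ℝ) = 2 ^ n := by
    exact_mod_cast two_mul_card_ev hn
  calc ∑ x, bias n δ x * (1 - bias n δ x) ≤ ∑ x : Cube n, if ev x then (1 : ℝ) / 4 else 0 := by
        apply sum_le_sum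
        intro x _
        unfold bias
        split_ifs
        · nlinarith [sq_nonneg δ]
        · simp
    _ = 2 ^ n / 8 := by
        rw [← sum_filter, sum_const, nsmul_eq_mul, ← h]
        ring

theorem W_bias_support {δ : ℝ} {a : Cube n → Bool} (ha : W (bias n δ) a ≠ 0) :
    ∀ x, a x = true → ev x := by
  intro x hx
  by_contra hcon
  apply ha
  unfold W
  apply prod_eq_zero (mem_univ x)
  rw [hx, pb_true]
  unfold bias
  rw [if_neg hcon]

/-- under the biased measure the distance to the `k`-juntas is close to `1/4 + δ/2` -/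
theorem conc (hk : k < n) {δ t : ℝ} (h1 : -(1 / 2) ≤ δ) (h2 : δ ≤ 1 / 2) (ht : 0 < t) :
    Ex (bias n δ) (fun a => if t ≤ |distK k a - (1 / 4 + δ / 2)| then 1 else 0) ≤
      1 / (8 * 2 ^ n * t ^ 2) := by
  have hn : 0 < n := by omega
  have hN : (0 : ℝ) < 2 ^ n := by positivity
  calc Ex (bias n δ) (fun a => if t ≤ |distK k a - (1 / 4 + δ / 2)| then (1 : ℝ) else 0)
      ≤ Ex (bias n δ) (fun a => if 2 ^ n * t ≤ |X a - ∑ x, bias n δ x| then 1 else 0) := by
        apply Ex_mono (bias_nonneg h1) (bias_le_one h2)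
        intro a ha
        rw [distK_of_even hk (W_bias_support ha), ← X_eq, sum_bias hn]
        have : X a / 2 ^ n - (1 / 4 + δ / 2) = (X a - 2 ^ n / 2 * (1 / 2 + δ)) / 2 ^ n := by
          field_simp; ring
        rw [this, abs_div, abs_of_pos hN]
        have h3 : t ≤ |X a - 2 ^ n / 2 * (1 / 2 + δ)| / 2 ^ n ↔
            2 ^ n * t ≤ |X a - 2 ^ n / 2 * (1 / 2 + δ)| := by
          rw [le_div_iff₀ hN, mul_comm]
        by_cases h4 : 2 ^ n * t ≤ |X a - 2 ^ n / 2 * (1 / 2 + δ)|
        · rw [if_pos h4, if_pos (h3.mpr h4)]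
        · rw [if_neg h4, if_neg (fun h => h4 (h3.mp h))]
    _ ≤ (∑ x, bias n δ x * (1 - bias n δ x)) / (2 ^ n * t) ^ 2 :=
        chebyshev (bias_nonneg h1) (bias_le_one h2) (by positivity)
    _ ≤ (2 ^ n / 8) / (2 ^ n * t) ^ 2 := by
        apply div_le_div_of_nonneg_right (sum_bias_var hn δ) (by positivity)
    _ = _ := by field_simp

/-- trees with few queries do not distinguish the two measures -/
theorem tree_indist (T : Tree n) (B : Set ℝ) {δ : ℝ} (h0 : 0 ≤ δ) (h1 : δ ≤ 1 / 2) {q : ℕ}
    (hq : T.depth ≤ q) :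
    Ex (bias n δ) (fun a => B.indicator 1 (T.eval a)) -
      Ex (bias n (-δ)) (fun a => B.indicator 1 (T.eval a)) ≤ 2 * δ * √q := by
  set c := √(1 - 4 * δ ^ 2) with hc
  have h4 : 0 ≤ 1 - 4 * δ ^ 2 := by nlinarith
  have hc0 : 0 ≤ c := Real.sqrt_nonneg _
  have hc1 : c ≤ 1 := by
    rw [hc]
    rw [Real.sqrt_le_one]
    nlinarith [sq_nonneg δ]
  have h := tree_hellinger hc0 hc1 B T (bias n δ) (bias n (-δ)) (bias_nonneg (by linarith))
    (bias_le_one h1) (bias_nonneg (by linarith)) (bias_le_one (by linarith)) (by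
      intro x
      unfold bias
      split_ifs
      · have e1 : (1 / 2 + δ) * (1 / 2 + -δ) = (1 / 4) * (1 - 4 * δ ^ 2) := by ring
        have e2 : (1 - (1 / 2 + δ)) * (1 - (1 / 2 + -δ)) = (1 / 4) * (1 - 4 * δ ^ 2) := by ring
        rw [e1, e2, Real.sqrt_mul (by norm_num), ← hc]
        have : √(1 / 4 : ℝ) = 1 / 2 := by
          rw [show (1 / 4 : ℝ) = (1 / 2) ^ 2 by norm_num]
          exact Real.sqrt_sq (by norm_num)
        rw [this]
        linarith
      · simpa using hc1) 1 1 zero_le_one zero_le_one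
  rw [one_mul, one_mul] at h
  refine h.trans ?_
  have e1 : c ^ (2 * T.depth) = (1 - 4 * δ ^ 2) ^ T.depth := by
    rw [pow_mul, hc, Real.sq_sqrt h4]
  have e2 : 1 - 4 * δ ^ 2 * q ≤ (1 - 4 * δ ^ 2) ^ T.depth := by
    have h5 := one_add_mul_le_pow (a := -(4 * δ ^ 2)) (by nlinarith) T.depth
    have h6 : (T.depth : ℝ) ≤ q := by exact_mod_cast hq
    have h7 : 1 + -(4 * δ ^ 2) = 1 - 4 * δ ^ 2 := by ring
    rw [h7] at h5
    nlinarith [mul_le_mul_of_nonneg_left h6 (show 0 ≤ 4 * δ ^ 2 by positivity)]
  have e3 : √((1 + 1) ^ 2 - 4 * 1 * 1 * c ^ (2 * T.depth)) ≤ 4 * δ * √q := by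
    apply Real.sqrt_le_iff.mpr
    constructor
    · positivity
    · rw [e1, mul_pow, mul_pow, Real.sq_sqrt (Nat.cast_nonneg q)]
      linarith
  have e4 : 2 * δ * √(q : ℝ) = (4 * δ * √(q : ℝ)) / 2 := by ring
  rw [e4, sub_self, zero_add]
  exact div_le_div_of_nonneg_right e3 (by norm_num)

theorem prob_eq_tsum (A : PMF (Tree n)) (S : Set (Tree n)) :
    (A.toOuterMeasure S).toReal = ∑' T, (A T).toReal * S.indicator 1 T := by
  rw [PMF.toOuterMeasure_apply, ENNReal.tsum_toReal_eq]
  · apply tsum_congr
    intro T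
    by_cases hT : T ∈ S
    · rw [Set.indicator_of_mem hT, Set.indicator_of_mem hT]; simp
    · rw [Set.indicator_of_notMem hT, Set.indicator_of_notMem hT]; simp
  · intro T
    by_cases hT : T ∈ S
    · rw [Set.indicator_of_mem hT]; exact A.apply_ne_top T
    · rw [Set.indicator_of_notMem hT]; exact ENNReal.zero_ne_top

theorem summable_toReal (A : PMF (Tree n)) : Summable fun T => (A T).toReal :=
  ENNReal.summable_toReal (by rw [A.tsum_coe]; exact ENNReal.one_ne_top)

theorem tsum_toReal (A : PMF (Tree n)) : ∑' T, (A T).toReal = 1 := by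
  rw [← ENNReal.tsum_toReal_eq (fun T => A.apply_ne_top T), A.tsum_coe]
  rfl

/-- the averaged acceptance probability -/
noncomputable def acc (A : PMF (Tree n)) (a : Cube n → Bool) : ℝ :=
  (A.toOuterMeasure {T | 1 / 4 < T.eval a}).toReal

theorem summable_acc (A : PMF (Tree n)) (c : Tree n → ℝ) (h0 : ∀ T, 0 ≤ c T)
    (h1 : ∀ T, c T ≤ 1) : Summable fun T => (A T).toReal * c T := by
  apply (summable_toReal A).of_nonneg_of_le
  · intro T; exact mul_nonneg ENNReal.toReal_nonneg (h0 T)
  · intro T
    calc (A T).toReal * c T ≤ (A T).toReal * 1 :=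
          mul_le_mul_of_nonneg_left (h1 T) ENNReal.toReal_nonneg
      _ = _ := mul_one _

theorem acc_eq (A : PMF (Tree n)) (a : Cube n → Bool) :
    acc A a = ∑' T, (A T).toReal * (Set.Ioi (1 / 4 : ℝ)).indicator 1 (T.eval a) := by
  unfold acc
  rw [prob_eq_tsum]
  rfl

theorem ind_nonneg (B : Set ℝ) (r : ℝ) : 0 ≤ (B.indicator 1 r : ℝ) := by
  apply Set.indicator_nonneg; intro _ _; exact zero_le_one

theorem ind_le_one (B : Set ℝ) (r : ℝ) : (B.indicator 1 r : ℝ) ≤ 1 := by
  apply Set.indicator_le' <;> intro _ _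
  · exact le_refl _
  · exact zero_le_one

theorem Ex_acc (A : PMF (Tree n)) (p : Cube n → ℝ) :
    Ex p (acc A) = ∑' T, (A T).toReal *
      Ex p (fun a => (Set.Ioi (1 / 4 : ℝ)).indicator 1 (T.eval a)) := by
  have hs : ∀ a : Cube n → Bool, Summable fun T =>
      (A T).toReal * (Set.Ioi (1 / 4 : ℝ)).indicator (1 : ℝ → ℝ) (T.eval a) := fun a =>
    summable_acc A _ (fun T => ind_nonneg _ _) (fun T => ind_le_one _ _)
  calc Ex p (acc A) = ∑ a, W p a * ∑' T, (A T).toReal *
        (Set.Ioi (1 / 4 : ℝ)).indicator 1 (T.eval a) := by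
        unfold Ex; simp_rw [acc_eq]
    _ = ∑ a, ∑' T, W p a * ((A T).toReal * (Set.Ioi (1 / 4 : ℝ)).indicator 1 (T.eval a)) := by
        apply sum_congr rfl; intro a _; rw [tsum_mul_left]
    _ = ∑' T, ∑ a, W p a * ((A T).toReal * (Set.Ioi (1 / 4 : ℝ)).indicator 1 (T.eval a)) := by
        rw [Summable.tsum_finsetSum]
        intro a _
        exact (hs a).mul_left _
    _ = _ := by
        apply tsum_congr
        intro T
        unfold Ex
        rw [mul_sum]
        apply sum_congr rfl
        intro a _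
        ring

theorem acc_indist (A : PMF (Tree n)) {δ : ℝ} (h0 : 0 ≤ δ) (h1 : δ ≤ 1 / 2) {q : ℕ}
    (hA : ∀ T ∈ A.support, T.depth ≤ q) :
    Ex (bias n δ) (acc A) - Ex (bias n (-δ)) (acc A) ≤ 2 * δ * √q := by
  have hb : ∀ δ' : ℝ, -(1 / 2) ≤ δ' → δ' ≤ 1 / 2 → ∀ T : Tree n,
      0 ≤ Ex (bias n δ') (fun a => (Set.Ioi (1 / 4 : ℝ)).indicator 1 (T.eval a)) ∧
      Ex (bias n δ') (fun a => (Set.Ioi (1 / 4 : ℝ)).indicator 1 (T.eval a)) ≤ 1 := by
    intro δ' h2 h3 T
    constructor
    · have := Ex_mono (bias_nonneg (n := n) h2) (bias_le_one h3) (g := fun _ => 0)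
        (g' := fun a => (Set.Ioi (1 / 4 : ℝ)).indicator 1 (T.eval a))
        (fun a _ => ind_nonneg _ _)
      rwa [Ex_const] at this
    · have := Ex_mono (bias_nonneg (n := n) h2) (bias_le_one h3) (g' := fun _ => 1)
        (g := fun a => (Set.Ioi (1 / 4 : ℝ)).indicator 1 (T.eval a))
        (fun a _ => ind_le_one _ _)
      rwa [Ex_const] at this
  have hs1 := summable_acc A _ (fun T => (hb δ (by linarith) h1 T).1)
    (fun T => (hb δ (by linarith) h1 T).2)
  have hs2 := summable_acc A _ (fun T => (hb (-δ) (by linarith) (by linarith) T).1)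
    (fun T => (hb (-δ) (by linarith) (by linarith) T).2)
  rw [Ex_acc, Ex_acc, ← hs1.tsum_sub hs2]
  calc ∑' T, ((A T).toReal * Ex (bias n δ) (fun a => (Set.Ioi (1 / 4 : ℝ)).indicator 1 (T.eval a)) -
        (A T).toReal * Ex (bias n (-δ)) (fun a => (Set.Ioi (1 / 4 : ℝ)).indicator 1 (T.eval a)))
      ≤ ∑' T, (A T).toReal * (2 * δ * √q) := by
        apply Summable.tsum_le_tsum _ (hs1.sub hs2) ((summable_toReal A).mul_right _)
        intro T
        rw [← mul_sub]
        by_cases hT : T ∈ A.support
        · exact mul_le_mul_of_nonneg_left (tree_indist T _ h0 h1 (hA T hT)) ENNReal.toReal_nonneg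
        · rw [PMF.mem_support_iff, not_not] at hT
          rw [hT]; simp
    _ = 2 * δ * √q := by rw [tsum_mul_right, tsum_toReal, one_mul]

theorem prob_le_one (A : PMF (Tree n)) (S : Set (Tree n)) : A.toOuterMeasure S ≤ 1 := by
  rw [PMF.toOuterMeasure_apply, ← A.tsum_coe]
  exact ENNReal.tsum_le_tsum fun T => Set.indicator_le_self S A T

theorem prob_disjoint (A : PMF (Tree n)) {S S' : Set (Tree n)} (h : Disjoint S S') :
    (A.toOuterMeasure S).toReal + (A.toOuterMeasure S').toReal ≤ 1 := by
  rw [prob_eq_tsum, prob_eq_tsum, ← Summable.tsum_add, ← tsum_toReal A]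
  · apply Summable.tsum_le_tsum
    · intro T
      rw [← mul_add]
      calc (A T).toReal * (S.indicator 1 T + S'.indicator 1 T) ≤ (A T).toReal * 1 := by
            apply mul_le_mul_of_nonneg_left _ ENNReal.toReal_nonneg
            by_cases h1 : T ∈ S
            · have h2 : T ∉ S' := Set.disjoint_left.mp h h1
              rw [Set.indicator_of_mem h1, Set.indicator_of_notMem h2]; simp
            · rw [Set.indicator_of_notMem h1, zero_add]
              apply Set.indicator_le' <;> intro _ _
              · exact le_refl _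
              · exact zero_le_one
        _ = _ := mul_one _
    · apply Summable.add
      · exact summable_acc A _ (fun T => Set.indicator_nonneg (fun _ _ => zero_le_one) T)
          (fun T => Set.indicator_le' (fun _ _ => le_refl _) (fun _ _ => zero_le_one) T)
      · exact summable_acc A _ (fun T => Set.indicator_nonneg (fun _ _ => zero_le_one) T)
          (fun T => Set.indicator_le' (fun _ _ => le_refl _) (fun _ _ => zero_le_one) T)
    · exact summable_toReal A
  · exact summable_acc A _ (fun T => Set.indicator_nonneg (fun _ _ => zero_le_one) T)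
      (fun T => Set.indicator_le' (fun _ _ => le_refl _) (fun _ _ => zero_le_one) T)
  · exact summable_acc A _ (fun T => Set.indicator_nonneg (fun _ _ => zero_le_one) T)
      (fun T => Set.indicator_le' (fun _ _ => le_refl _) (fun _ _ => zero_le_one) T)

theorem prob_mono (A : PMF (Tree n)) {S S' : Set (Tree n)} (h : S ⊆ S') :
    (A.toOuterMeasure S).toReal ≤ (A.toOuterMeasure S').toReal := by
  apply ENNReal.toReal_mono
  · exact ne_top_of_le_ne_top ENNReal.one_ne_top (prob_le_one A S')
  · exact A.toOuterMeasure.mono h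

theorem two_thirds {A : PMF (Tree n)} {S : Set (Tree n)} (h : 2 / 3 ≤ A.toOuterMeasure S) :
    (2 / 3 : ℝ) ≤ (A.toOuterMeasure S).toReal := by
  have h1 := ENNReal.toReal_mono (ne_top_of_le_ne_top ENNReal.one_ne_top (prob_le_one A S)) h
  have h2 : ((2 / 3 : ENNReal)).toReal = 2 / 3 := by
    rw [ENNReal.toReal_div]; norm_num
  rwa [h2] at h1

/-- at least one query is necessary -/
theorem one_le_of_approximates (hk : k < n) {ε : ℝ} (hε : ε < 1 / 4) {q : ℕ}
    {A : PMF (Tree n)} (hA : Approximates n k ε q A) : 1 ≤ q := by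
  by_contra hcon
  have hq : q = 0 := by omega
  subst hq
  have hn : 0 < n := by omega
  have h0 := two_thirds (hA.2 fun _ => false)
  have h1 := two_thirds (hA.2 fun x => decide (ev x))
  have d0 : distK k (fun _ : Cube n => false) = 0 := by
    rw [distK_of_even hk (by simp)]; simp
  have d1 : distK k (fun x : Cube n => decide (ev x)) = 1 / 2 := by
    rw [distK_of_even hk (by simp)]
    have h : 2 * ((univ.filter (ev : Cube n → Prop)).card : ℝ) = 2 ^ n := by
      exact_mod_cast two_mul_card_ev hn
    simp only [decide_eq_true_eq]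
    rw [← h]
    have hpos : (0 : ℝ) < (univ.filter (ev : Cube n → Prop)).card := by
      have : (0 : ℝ) < 2 ^ n := by positivity
      linarith
    field_simp
  rw [d0] at h0
  rw [d1] at h1
  set S : Set (Tree n) := {T | T ∈ A.support ∧ |T.eval (fun _ => false) - 0| ≤ ε} with hS
  set S' : Set (Tree n) := {T | T ∈ A.support ∧ |T.eval (fun x => decide (ev x)) - 1 / 2| ≤ ε}
    with hS'
  have e0 : A.toOuterMeasure {T | |T.eval (fun _ => false) - 0| ≤ ε} = A.toOuterMeasure S := by
    apply PMF.toOuterMeasure_apply_eq_of_inter_support_eq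
    ext T; simp [hS]; tauto
  have e1 : A.toOuterMeasure {T | |T.eval (fun x => decide (ev x)) - 1 / 2| ≤ ε} =
      A.toOuterMeasure S' := by
    apply PMF.toOuterMeasure_apply_eq_of_inter_support_eq
    ext T; simp [hS']; tauto
  have hdisj : Disjoint S S' := by
    rw [Set.disjoint_left]
    rintro T ⟨hT, h2⟩ ⟨_, h3⟩
    have h4 := hA.1 T hT
    cases T with
    | out r =>
      simp only [Tree.eval] at h2 h3
      rw [abs_le] at h2 h3
      linarith
    | ask x t => simp [Tree.depth] at h4
  have h2 := prob_disjoint A hdisj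
  rw [← e0, ← e1] at h2
  linarith

/-- The lower bound. -/
theorem lower_bound (hk : k < n) {ε : ℝ} (hε0 : 0 < ε) (hε : ε < 1 / 4) {q : ℕ}
    {A : PMF (Tree n)} (hA : Approximates n k ε q A) :
    1 / 4000 * min (2 ^ n) (1 / ε ^ 2) ≤ (q : ℝ) := by
  have hq := one_le_of_approximates hk hε hA
  have hq0 : (1 : ℝ) ≤ q := by exact_mod_cast hq
  by_contra hcon
  push Not at hcon
  have hc1 : (q : ℝ) < 1 / 4000 * 2 ^ n :=
    hcon.trans_le (mul_le_mul_of_nonneg_left (min_le_left _ _) (by norm_num))
  have hc2 : (q : ℝ) < 1 / 4000 * (1 / ε ^ 2) :=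
    hcon.trans_le (mul_le_mul_of_nonneg_left (min_le_right _ _) (by norm_num))
  have hqpos : (0 : ℝ) < q := by linarith
  have hsq : 0 < √(q : ℝ) := Real.sqrt_pos.mpr hqpos
  have hsq1 : 1 ≤ √(q : ℝ) := by rw [Real.one_le_sqrt]; exact hq0
  set δ : ℝ := 1 / (10 * √q) with hδ
  have hδ0 : 0 < δ := by positivity
  have hδ1 : δ ≤ 1 / 2 := by
    rw [hδ, div_le_div_iff₀ (by positivity) (by norm_num)]
    linarith
  have hδq : δ ^ 2 * q = 1 / 100 := by
    rw [hδ, div_pow, mul_pow, Real.sq_sqrt hqpos.le]
    field_simp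
    norm_num
  have hεδ : ε ≤ δ / 4 := by
    have h1 : ε ^ 2 * q < 1 / 4000 := by
      rw [mul_one_div, lt_div_iff₀ (by positivity)] at hc2
      linarith
    have h2 : ε ^ 2 ≤ (δ / 4) ^ 2 := by
      have h3 : (δ / 4) ^ 2 * q = 1 / 1600 := by
        rw [div_pow, div_mul_eq_mul_div, hδq]; norm_num
      by_contra h4
      push Not at h4
      have := mul_lt_mul_of_pos_right h4 hqpos
      linarith
    exact le_of_sq_le_sq h2 (by positivity)
  -- concentration
  have hN : (1 : ℝ) / (8 * 2 ^ n * (δ / 4) ^ 2) ≤ 1 / 20 := by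
    apply one_div_le_one_div_of_le (by norm_num)
    have h1 : (δ / 4) ^ 2 * q = 1 / 1600 := by
      rw [div_pow, div_mul_eq_mul_div, hδq]; norm_num
    have h2 : (0 : ℝ) < (δ / 4) ^ 2 := by positivity
    nlinarith
  have c1 := (conc (k := k) hk (δ := δ) (t := δ / 4) (by linarith) hδ1 (by positivity)).trans hN
  have c2 := (conc (k := k) hk (δ := -δ) (t := δ / 4) (by linarith) (by linarith)
    (by positivity)).trans hN
  have a1 := acc_indist A hδ0.le hδ1 hA.1
  have a2 : 2 * δ * √(q : ℝ) = 1 / 5 := by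
    rw [hδ]; field_simp; norm_num
  rw [a2] at a1
  -- lower bound on the acceptance probability for `δ`
  have b1 : 2 / 3 - 1 / 20 ≤ Ex (bias n δ) (acc A) := by
    have h1 : Ex (bias n δ) (fun a => 2 / 3 -
        (if δ / 4 ≤ |distK k a - (1 / 4 + δ / 2)| then 1 else 0)) ≤ Ex (bias n δ) (acc A) := by
      apply Ex_mono (bias_nonneg (by linarith)) (bias_le_one hδ1)
      intro a _
      split_ifs with h
      · have : 0 ≤ acc A a := ENNReal.toReal_nonneg
        linarith
      · push Not at h
        rw [sub_zero]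
        refine (two_thirds (hA.2 a)).trans (prob_mono A ?_)
        intro T hT
        simp only [Set.mem_ofPred_eq] at hT ⊢
        rw [abs_le] at hT
        rw [abs_lt] at h
        linarith
    have h2 : Ex (bias n δ) (fun a => 2 / 3 -
        (if δ / 4 ≤ |distK k a - (1 / 4 + δ / 2)| then 1 else 0)) =
        2 / 3 - Ex (bias n δ) (fun a =>
        (if δ / 4 ≤ |distK k a - (1 / 4 + δ / 2)| then 1 else 0)) := by
      have := Ex_const (bias n δ) (2 / 3)
      unfold Ex at this ⊢
      simp_rw [mul_sub]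
      rw [sum_sub_distrib, this]
    linarith
  have b2 : Ex (bias n (-δ)) (acc A) ≤ 1 / 3 + 1 / 20 := by
    have h1 : Ex (bias n (-δ)) (acc A) ≤ Ex (bias n (-δ)) (fun a => 1 / 3 +
        (if δ / 4 ≤ |distK k a - (1 / 4 + -δ / 2)| then 1 else 0)) := by
      apply Ex_mono (bias_nonneg (by linarith)) (bias_le_one (by linarith))
      intro a _
      split_ifs with h
      · have h3 : acc A a ≤ 1 := by
          have := ENNReal.toReal_mono ENNReal.one_ne_top
            (prob_le_one A {T | 1 / 4 < T.eval a})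
          simpa [acc] using this
        linarith
      · push Not at h
        rw [add_zero]
        have h3 := two_thirds (hA.2 a)
        have h4 : Disjoint {T : Tree n | 1 / 4 < T.eval a}
            {T : Tree n | |T.eval a - distK k a| ≤ ε} := by
          rw [Set.disjoint_left]
          intro T h5 h6
          simp only [Set.mem_ofPred_eq] at h5 h6
          rw [abs_le] at h6
          rw [abs_lt] at h
          linarith
        have h5 := prob_disjoint A h4
        unfold acc
        linarith
    have h2 : Ex (bias n (-δ)) (fun a => 1 / 3 +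
        (if δ / 4 ≤ |distK k a - (1 / 4 + -δ / 2)| then 1 else 0)) =
        1 / 3 + Ex (bias n (-δ)) (fun a =>
        (if δ / 4 ≤ |distK k a - (1 / 4 + -δ / 2)| then 1 else 0)) := by
      have := Ex_const (bias n (-δ)) (1 / 3)
      unfold Ex at this ⊢
      simp_rw [mul_add]
      rw [sum_add_distrib, this]
    linarith
  linarith

end Pool.Agent.Work.MP_8f25a0_lc
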