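import Pool.Agent.Work.MP_8f25a0_lc.Reduce2

/-!
# Sampling: uniform convergence over all juntas
-/

namespace Pool.Agent.Work.MP_8f25a0_lc

open Finset

variable {n m k Q : ℕ}

/-- the average of a product over independent samples -/
theorem avg_prod_samples {α : Type*} [Fintype α] [DecidableEq α] (Y : α → ℝ) (Q : ℕ) :
    avg (fun s : Fin Q → α => ∏ j, Y (s j)) = avg Y ^ Q := by
  unfold avg
  rw [div_pow]
  congr 1
  · have h := prod_univ_sum (fun _ : Fin Q => (univ : Finset α)) (fun _ a => Y a)
    rw [Fintype.piFinset_univ] at h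
    rw [← h, prod_const, card_univ, Fintype.card_fin]
  · simp

theorem exp_moment {α : Type*} [Fintype α] [Nonempty α] {X : α → ℝ} (h0 : ∀ a, 0 ≤ X a)
    (h1 : ∀ a, X a ≤ 1) (t : ℝ) :
    avg (fun a => Real.exp (t * (X a - avg X))) ≤ Real.exp (t ^ 2 / 2) := by
  have hpos : 0 ≤ avg (fun a => Real.exp (t * (X a - avg X))) :=
    avg_nonneg fun a => (Real.exp_pos _).le
  have hj : 1 ≤ avg (fun b => Real.exp (t * (avg X - X b))) := by
    have h2 : avg (fun b => 1 + t * (avg X - X b)) = 1 := by
      rw [avg_add, avg_const, avg_mul_left, avg_sub, avg_const]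
      ring
    rw [← h2]
    apply avg_mono
    intro b
    have := Real.add_one_le_exp (t * (avg X - X b))
    linarith
  calc avg (fun a => Real.exp (t * (X a - avg X)))
      ≤ avg (fun a => Real.exp (t * (X a - avg X))) *
        avg (fun b => Real.exp (t * (avg X - X b))) := by
        nlinarith
    _ = avg (fun a => avg fun b => Real.exp (t * (X a - X b))) := by
        rw [← avg_mul_right]
        congr 1
        funext a
        rw [← avg_mul_left]
        congr 1
        funext b
        rw [← Real.exp_add]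
        congr 1
        ring
    _ = avg (fun a => avg fun b => Real.cosh (t * (X a - X b))) := by
        have h2 : avg (fun a => avg fun b => Real.exp (t * (X a - X b))) =
            avg (fun a => avg fun b => Real.exp (-(t * (X a - X b)))) := by
          rw [avg_comm]
          congr 1
          funext a
          congr 1
          funext b
          congr 1
          ring
        have h3 : avg (fun a => avg fun b => Real.cosh (t * (X a - X b))) =
            (avg (fun a => avg fun b => Real.exp (t * (X a - X b))) +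
              avg (fun a => avg fun b => Real.exp (-(t * (X a - X b))))) * (1 / 2) := by
          rw [← avg_add, ← avg_mul_right]
          congr 1
          funext a
          rw [← avg_add, ← avg_mul_right]
          congr 1
          funext b
          rw [Real.cosh_eq]
          ring
        rw [h3, ← h2]
        ring
    _ ≤ Real.exp (t ^ 2 / 2) := by
        apply avg_le_of_forall
        intro a
        apply avg_le_of_forall
        intro b
        refine (Real.cosh_le_exp_half_sq _).trans ?_
        apply Real.exp_le_exp.mpr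
        have h2 : (X a - X b) ^ 2 ≤ 1 := by
          have := h0 a; have := h1 a; have := h0 b; have := h1 b
          nlinarith
        nlinarith [sq_nonneg t]

/-- Hoeffding's inequality, upper tail -/
theorem tail {α : Type*} [Fintype α] [DecidableEq α] [Nonempty α] {X : α → ℝ}
    (h0 : ∀ a, 0 ≤ X a) (h1 : ∀ a, X a ≤ 1) {δ : ℝ} (hδ : 0 ≤ δ) :
    avg (fun s : Fin Q → α => if Q * δ ≤ ∑ j, (X (s j) - avg X) then (1 : ℝ) else 0) ≤
      Real.exp (-(Q * δ ^ 2 / 2)) := by
  have h2 : avg (fun s : Fin Q → α => Real.exp (δ * ∑ j, (X (s j) - avg X))) ≤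
      Real.exp (Q * δ ^ 2 / 2) := by
    have h3 : ∀ s : Fin Q → α, Real.exp (δ * ∑ j, (X (s j) - avg X)) =
        ∏ j, Real.exp (δ * (X (s j) - avg X)) := by
      intro s
      rw [mul_sum, Real.exp_sum]
    simp_rw [h3]
    rw [avg_prod_samples (fun a => Real.exp (δ * (X a - avg X)))]
    calc avg (fun a => Real.exp (δ * (X a - avg X))) ^ Q ≤ Real.exp (δ ^ 2 / 2) ^ Q := by
          apply pow_le_pow_left₀ (avg_nonneg fun a => (Real.exp_pos _).le)
          exact exp_moment h0 h1 δ
      _ = _ := by rw [← Real.exp_nat_mul]; congr 1; ring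
  calc avg (fun s : Fin Q → α => if Q * δ ≤ ∑ j, (X (s j) - avg X) then (1 : ℝ) else 0)
      ≤ avg (fun s : Fin Q → α => Real.exp (-(Q * δ ^ 2)) *
          Real.exp (δ * ∑ j, (X (s j) - avg X))) := by
        apply avg_mono
        intro s
        split_ifs with h
        · rw [← Real.exp_add]
          apply Real.one_le_exp
          nlinarith
        · positivity
    _ ≤ Real.exp (-(Q * δ ^ 2)) * Real.exp (Q * δ ^ 2 / 2) := by
        rw [avg_mul_left]
        exact mul_le_mul_of_nonneg_left h2 (Real.exp_pos _).le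
    _ = _ := by rw [← Real.exp_add]; congr 1; ring

/-- Hoeffding's inequality, both tails -/
theorem hoeffding {α : Type*} [Fintype α] [DecidableEq α] [Nonempty α] {X : α → ℝ}
    (h0 : ∀ a, 0 ≤ X a) (h1 : ∀ a, X a ≤ 1) {δ : ℝ} (hδ : 0 ≤ δ) :
    avg (fun s : Fin Q → α => if Q * δ ≤ |(∑ j, X (s j)) - Q * avg X| then (1 : ℝ) else 0) ≤
      2 * Real.exp (-(Q * δ ^ 2 / 2)) := by
  have t1 := tail (Q := Q) h0 h1 hδ
  have t2 := tail (Q := Q) (X := fun a => 1 - X a) (fun a => by have := h1 a; linarith)
    (fun a => by have := h0 a; linarith) hδ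
  have e1 : ∀ s : Fin Q → α, ∑ j, (X (s j) - avg X) = (∑ j, X (s j)) - Q * avg X := by
    intro s
    rw [sum_sub_distrib, sum_const, card_univ, Fintype.card_fin, nsmul_eq_mul]
  have e2 : ∀ s : Fin Q → α, ∑ j, ((1 - X (s j)) - avg (fun a => 1 - X a)) =
      -((∑ j, X (s j)) - Q * avg X) := by
    intro s
    rw [avg_sub, avg_const, ← e1, ← sum_neg_distrib]
    apply sum_congr rfl
    intro j _
    ring
  simp_rw [e1] at t1
  simp_rw [e2] at t2
  have key : ∀ s : Fin Q → α,
      (if Q * δ ≤ |(∑ j, X (s j)) - Q * avg X| then (1 : ℝ) else 0) ≤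
      (if Q * δ ≤ (∑ j, X (s j)) - Q * avg X then (1 : ℝ) else 0) +
      (if Q * δ ≤ -((∑ j, X (s j)) - Q * avg X) then (1 : ℝ) else 0) := by
    intro s
    by_cases h : Q * δ ≤ |(∑ j, X (s j)) - Q * avg X|
    · rw [if_pos h]
      rcases le_abs.mp h with h2 | h2
      · rw [if_pos h2]; split_ifs <;> norm_num
      · rw [if_pos h2]; split_ifs <;> norm_num
    · rw [if_neg h]; split_ifs <;> norm_num
  refine (avg_mono key).trans ?_
  rw [avg_add]
  linarith

/-- every junta is given by a list of `k` coordinates and a function of `k` bits -/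
theorem exists_repr (hm : 0 < m) {G : Cube m → Bool} (hG : IsJunta k G) :
    ∃ (φ : Fin k → Fin m) (g : (Fin k → Bool) → Bool), ∀ s, G s = g fun j => s (φ j) := by
  classical
  obtain ⟨J, hJ, hG⟩ := hG
  have : Inhabited (Fin m) := ⟨⟨0, hm⟩⟩
  set φ : Fin k → Fin m := fun j => J.toList.getD j default with hφ
  have hcov : ∀ i ∈ J, ∃ j, φ j = i := by
    intro i hi
    obtain ⟨l, hl, hl'⟩ := List.mem_iff_getElem.mp (Finset.mem_toList.mpr hi)
    rw [Finset.length_toList] at hl
    refine ⟨⟨l, by omega⟩, ?_⟩
    simp only [hφ]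
    rw [List.getD_eq_getElem _ _ (by rw [Finset.length_toList]; exact hl)]
    exact hl'
  refine ⟨φ, fun t => if h : ∃ s : Cube m, (fun j => s (φ j)) = t then G h.choose else false, ?_⟩
  intro s
  have h : ∃ s' : Cube m, (fun j => s' (φ j)) = fun j => s (φ j) := ⟨s, rfl⟩
  simp only [dif_pos h]
  apply hG
  intro i hi
  obtain ⟨j, rfl⟩ := hcov i hi
  exact (congrFun h.choose_spec j).symm

/-- the empirical distance of the answers to a function -/
noncomputable def emp (a : Fin Q → Bool) (s : Fin Q → Cube m) (G : Cube m → Bool) : ℝ :=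
  (∑ j, if a j ≠ G (s j) then (1 : ℝ) else 0) / Q

/-- the empirical distance to the juntas -/
noncomputable def est (k : ℕ) (a : Fin Q → Bool) (s : Fin Q → Cube m) : ℝ :=
  ⨅ G : {G : Cube m → Bool // IsJunta k G}, emp a s G.1

theorem est_close {F : Cube m → Bool} {s : Fin Q → Cube m} {δ : ℝ}
    (h : ∀ G, IsJunta k G → |emp (fun j => F (s j)) s G - dist F G| ≤ δ) :
    |est k (fun j => F (s j)) s - distK k F| ≤ δ := by
  have hb : BddBelow (Set.range fun G : {G : Cube m → Bool // IsJunta k G} =>
      emp (fun j => F (s j)) s G.1) := by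
    refine ⟨0, ?_⟩
    rintro _ ⟨G, rfl⟩
    exact div_nonneg (sum_nonneg fun j _ => by split_ifs <;> norm_num) (Nat.cast_nonneg _)
  rw [abs_le]
  constructor
  · have : distK k F - δ ≤ est k (fun j => F (s j)) s := by
      apply le_ciInf
      rintro ⟨G, hG⟩
      have h1 := (abs_le.mp (h G hG)).1
      have h2 := distK_le (f := F) hG
      simp only
      linarith
    linarith
  · obtain ⟨G, hG, hG'⟩ := exists_distK k F
    have h1 := (abs_le.mp (h G hG)).2
    have h2 : est k (fun j => F (s j)) s ≤ emp (fun j => F (s j)) s G := ciInf_le hb ⟨G, hG⟩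
    linarith

theorem dist_eq_avg (F G : Cube m → Bool) :
    dist F G = avg (fun s : Cube m => if F s ≠ G s then (1 : ℝ) else 0) := by
  unfold dist avg
  rw [← sum_filter, sum_const, nsmul_eq_mul, mul_one]
  congr 1
  simp

/-- uniform convergence -/
theorem sampling (hm : 0 < m) (hQ : 0 < Q) (F : Cube m → Bool) {δ : ℝ} (hδ : 0 ≤ δ) :
    avg (fun s : Fin Q → Cube m =>
      if δ < |est k (fun j => F (s j)) s - distK k F| then (1 : ℝ) else 0) ≤
      (m : ℝ) ^ k * 2 ^ (2 ^ k) * (2 * Real.exp (-(Q * δ ^ 2 / 2))) := by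
  classical
  have hQ' : (0 : ℝ) < Q := by exact_mod_cast hQ
  set Gf : ((Fin k → Fin m) × ((Fin k → Bool) → Bool)) → Cube m → Bool :=
    fun p s => p.2 fun j => s (p.1 j) with hGf
  have key : ∀ s : Fin Q → Cube m,
      (if δ < |est k (fun j => F (s j)) s - distK k F| then (1 : ℝ) else 0) ≤
      ∑ p : (Fin k → Fin m) × ((Fin k → Bool) → Bool),
        if Q * δ ≤ |(∑ j, if F (s j) ≠ Gf p (s j) then (1 : ℝ) else 0) -
          Q * avg (fun t : Cube m => if F t ≠ Gf p t then (1 : ℝ) else 0)| then (1 : ℝ) else 0 := by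
    intro s
    have hn : ∀ p ∈ (univ : Finset ((Fin k → Fin m) × ((Fin k → Bool) → Bool))), (0 : ℝ) ≤
        if Q * δ ≤ |(∑ j, if F (s j) ≠ Gf p (s j) then (1 : ℝ) else 0) -
          Q * avg (fun t : Cube m => if F t ≠ Gf p t then (1 : ℝ) else 0)| then (1 : ℝ) else 0 := by
      intro p _; split_ifs <;> norm_num
    by_cases h : δ < |est k (fun j => F (s j)) s - distK k F|
    · rw [if_pos h]
      have h1 : ∃ G, IsJunta k G ∧ δ < |emp (fun j => F (s j)) s G - dist F G| := by
        by_contra hcon
        push Not at hcon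
        exact absurd (est_close hcon) (not_le.mpr h)
      obtain ⟨G, hG, hG2⟩ := h1
      obtain ⟨φ, g, hg⟩ := exists_repr hm hG
      have h2 := single_le_sum hn (mem_univ (φ, g))
      refine le_trans ?_ h2
      have h3 : Gf (φ, g) = G := by funext s; exact (hg s).symm
      rw [h3, if_pos]
      rw [dist_eq_avg] at hG2
      have h4 : (∑ j, if F (s j) ≠ G (s j) then (1 : ℝ) else 0) -
          Q * avg (fun t : Cube m => if F t ≠ G t then (1 : ℝ) else 0) =
          Q * (emp (fun j => F (s j)) s G -
            avg (fun t : Cube m => if F t ≠ G t then (1 : ℝ) else 0)) := by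
        unfold emp
        field_simp
      rw [h4, abs_mul, abs_of_pos hQ']
      exact mul_le_mul_of_nonneg_left hG2.le hQ'.le
    · rw [if_neg h]
      exact sum_nonneg hn
  refine (avg_mono key).trans ?_
  rw [avg_sum]
  have hX : ∀ p : (Fin k → Fin m) × ((Fin k → Bool) → Bool), avg (fun s : Fin Q → Cube m =>
      if Q * δ ≤ |(∑ j, if F (s j) ≠ Gf p (s j) then (1 : ℝ) else 0) -
          Q * avg (fun t : Cube m => if F t ≠ Gf p t then (1 : ℝ) else 0)| then (1 : ℝ) else 0) ≤
      2 * Real.exp (-(Q * δ ^ 2 / 2)) := by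
    intro p
    exact hoeffding (Q := Q) (X := fun t : Cube m => if F t ≠ Gf p t then (1 : ℝ) else 0)
      (fun a => by split_ifs <;> norm_num) (fun a => by split_ifs <;> norm_num) hδ
  refine (sum_le_sum fun p _ => hX p).trans (le_of_eq ?_)
  rw [sum_const, card_univ, nsmul_eq_mul]
  congr 1
  rw [Fintype.card_prod]
  simp only [Fintype.card_pi, prod_const, card_univ, Fintype.card_fin, Fintype.card_bool]
  push_cast
  rfl

end Pool.Agent.Work.MP_8f25a0_lc
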