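import Pool.Agent.Work.MP_8f25a0_lc.Model
import Pool.Agent.Work.MP_8f25a0_lc.Lower
import Pool.Agent.Work.MP_8f25a0_lc.Sampling

/-!
# Concentration of the distance to juntas in the Gaussian model
-/

namespace Pool.Agent.Work.MP_8f25a0_lc

open MeasureTheory Finset

set_option linter.unusedSectionVars false

variable {n K k : ℕ}

/-- moment generating function of a centred coin -/
theorem coin_mgf {p : ℝ} (h0 : 0 ≤ p) (h1 : p ≤ 1) (s : ℝ) :
    p * Real.exp (s * (1 - p)) + (1 - p) * Real.exp (s * (0 - p)) ≤ Real.exp (s ^ 2 / 2) := by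
  set u := p * Real.exp (s * (1 - p)) + (1 - p) * Real.exp (s * (0 - p)) with hu
  set v := p * Real.exp (-(s * (1 - p))) + (1 - p) * Real.exp (-(s * (0 - p))) with hv
  have hu0 : 0 ≤ u := by
    have := Real.exp_pos (s * (1 - p)); have := Real.exp_pos (s * (0 - p))
    rw [hu]; apply add_nonneg <;> apply mul_nonneg <;> linarith
  have hv1 : 1 ≤ v := by
    have e1 := Real.add_one_le_exp (-(s * (1 - p)))
    have e2 := Real.add_one_le_exp (-(s * (0 - p)))
    have e3 := mul_le_mul_of_nonneg_left e1 h0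
    have e4 := mul_le_mul_of_nonneg_left e2 (show 0 ≤ 1 - p by linarith)
    rw [hv]
    nlinarith
  have huv : u * v = 1 - 2 * (p * (1 - p)) + 2 * (p * (1 - p)) * Real.cosh s := by
    have e1 : Real.exp (s * (1 - p)) * Real.exp (-(s * (1 - p))) = 1 := by
      rw [← Real.exp_add]; simp
    have e2 : Real.exp (s * (0 - p)) * Real.exp (-(s * (0 - p))) = 1 := by
      rw [← Real.exp_add]; simp
    have e3 : Real.exp (s * (1 - p)) * Real.exp (-(s * (0 - p))) = Real.exp s := by
      rw [← Real.exp_add]; congr 1; ring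
    have e4 : Real.exp (s * (0 - p)) * Real.exp (-(s * (1 - p))) = Real.exp (-s) := by
      rw [← Real.exp_add]; congr 1; ring
    rw [hu, hv, Real.cosh_eq]
    linear_combination p ^ 2 * e1 + (1 - p) ^ 2 * e2 + p * (1 - p) * e3 + p * (1 - p) * e4
  have hc1 : 1 ≤ Real.cosh s := Real.one_le_cosh s
  have hpp : 2 * (p * (1 - p)) ≤ 1 := by nlinarith [sq_nonneg (2 * p - 1)]
  calc u ≤ u * v := by nlinarith
    _ ≤ Real.cosh s := by rw [huv]; nlinarith
    _ ≤ Real.exp (s ^ 2 / 2) := Real.cosh_le_exp_half_sq s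

/-- Hoeffding's inequality for the product measure -/
theorem Ex_tail {p : Cube n → ℝ} (h0 : ∀ x, 0 ≤ p x) (h1 : ∀ x, p x ≤ 1) {c : Cube n → ℝ}
    (hc : ∀ x, c x ^ 2 ≤ 1) {t : ℝ} (ht : 0 ≤ t) :
    Ex p (fun a => if 2 ^ n * t ≤ ∑ x, c x * (bit (a x) - p x) then 1 else 0) ≤
      Real.exp (-(2 ^ n * t ^ 2 / 2)) := by
  have hm : Ex p (fun a => Real.exp (t * ∑ x, c x * (bit (a x) - p x))) ≤
      Real.exp (2 ^ n * t ^ 2 / 2) := by
    unfold Ex W
    have e1 : ∀ a : Cube n → Bool, (∏ x, pb (p x) (a x)) *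
        Real.exp (t * ∑ x, c x * (bit (a x) - p x)) =
        ∏ x, (pb (p x) (a x) * Real.exp (t * c x * (bit (a x) - p x))) := by
      intro a
      rw [mul_sum, Real.exp_sum, ← prod_mul_distrib]
      apply prod_congr rfl
      intro x _
      congr 2
      ring
    simp_rw [e1]
    rw [sum_prod_eq fun x b => pb (p x) b * Real.exp (t * c x * (bit b - p x))]
    calc ∏ x, ∑ b, pb (p x) b * Real.exp (t * c x * (bit b - p x))
        ≤ ∏ _x : Cube n, Real.exp (t ^ 2 / 2) := by
          apply prod_le_prod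
          · intro x _
            exact sum_nonneg fun b _ => mul_nonneg (pb_nonneg (h0 x) (h1 x) b) (Real.exp_pos _).le
          · intro x _
            rw [Fintype.sum_bool, pb_true, pb_false]
            simp only [bit, if_true, Bool.false_eq_true, if_false]
            refine (coin_mgf (h0 x) (h1 x) (t * c x)).trans ?_
            apply Real.exp_le_exp.mpr
            have := mul_le_mul_of_nonneg_left (hc x) (sq_nonneg t)
            nlinarith
      _ = _ := by
          rw [prod_const, card_univ, ← Real.exp_nat_mul]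
          congr 1
          simp
          ring
  calc Ex p (fun a => if 2 ^ n * t ≤ ∑ x, c x * (bit (a x) - p x) then (1 : ℝ) else 0)
      ≤ Ex p (fun a => Real.exp (-(2 ^ n * t ^ 2)) *
          Real.exp (t * ∑ x, c x * (bit (a x) - p x))) := by
        apply Ex_mono h0 h1
        intro a _
        split_ifs with h
        · rw [← Real.exp_add]
          apply Real.one_le_exp
          nlinarith
        · positivity
    _ = Real.exp (-(2 ^ n * t ^ 2)) *
          Ex p (fun a => Real.exp (t * ∑ x, c x * (bit (a x) - p x))) := by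
        unfold Ex
        rw [mul_sum]
        apply sum_congr rfl
        intro a _
        ring
    _ ≤ Real.exp (-(2 ^ n * t ^ 2)) * Real.exp (2 ^ n * t ^ 2 / 2) :=
        mul_le_mul_of_nonneg_left hm (Real.exp_pos _).le
    _ = _ := by rw [← Real.exp_add]; congr 1; ring

theorem sg_eq (b : Bool) : sg b = 1 - 2 * bit b := by cases b <;> simp [sg, bit]; norm_num

theorem sg_sq (b : Bool) : sg b ^ 2 = 1 := by rw [sq, sg_mul_self]

/-- the expected correlation -/
noncomputable def ecorr (p : Cube n → ℝ) (G : Cube n → Bool) : ℝ :=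
  (∑ x, (1 - 2 * p x) * sg (G x)) / 2 ^ n

theorem corr_sub (p : Cube n → ℝ) (f G : Cube n → Bool) :
    (1 - 2 * dist f G) - ecorr p G = 2 * (∑ x, (-sg (G x)) * (bit (f x) - p x)) / 2 ^ n := by
  rw [← corr_dist]
  unfold avg ecorr
  have h2 : (Fintype.card (Cube n) : ℝ) = 2 ^ n := by simp
  rw [h2, ← sub_div, ← sum_sub_distrib, mul_sum]
  congr 1
  apply sum_congr rfl
  intro x _
  rw [sg_eq (f x)]
  ring

/-- no junta is much better than expected -/
theorem Ex_union (hn : 0 < n) {p : Cube n → ℝ} (h0 : ∀ x, 0 ≤ p x) (h1 : ∀ x, p x ≤ 1) {t : ℝ}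
    (ht : 0 ≤ t) :
    Ex p (fun a => by
      classical
      exact if ∃ G, IsJunta k G ∧ 2 * t ≤ (1 - 2 * dist a G) - ecorr p G then 1 else 0) ≤
      (n : ℝ) ^ k * 2 ^ (2 ^ k) * Real.exp (-(2 ^ n * t ^ 2 / 2)) := by
  classical
  set Gf : ((Fin k → Fin n) × ((Fin k → Bool) → Bool)) → Cube n → Bool :=
    fun p s => p.2 fun j => s (p.1 j) with hGf
  have hN : (0 : ℝ) < 2 ^ n := by positivity
  have key : Ex p (fun a =>
      if ∃ G, IsJunta k G ∧ 2 * t ≤ (1 - 2 * dist a G) - ecorr p G then 1 else 0) ≤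
      Ex p (fun a => ∑ q : (Fin k → Fin n) × ((Fin k → Bool) → Bool),
        if 2 ^ n * t ≤ ∑ x, (-sg (Gf q x)) * (bit (a x) - p x) then (1 : ℝ) else 0) := by
    apply Ex_mono h0 h1
    intro a _
    have hnn : ∀ q ∈ (univ : Finset ((Fin k → Fin n) × ((Fin k → Bool) → Bool))), (0 : ℝ) ≤
        if 2 ^ n * t ≤ ∑ x, (-sg (Gf q x)) * (bit (a x) - p x) then (1 : ℝ) else 0 := by
      intro q _; split_ifs <;> norm_num
    by_cases h : ∃ G, IsJunta k G ∧ 2 * t ≤ (1 - 2 * dist a G) - ecorr p G
    · rw [if_pos h]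
      obtain ⟨G, hG, hG2⟩ := h
      obtain ⟨φ, g, hg⟩ := exists_repr hn hG
      refine le_trans ?_ (single_le_sum hnn (mem_univ (φ, g)))
      have h3 : Gf (φ, g) = G := by funext s; exact (hg s).symm
      rw [h3, if_pos]
      rw [corr_sub, le_div_iff₀ hN] at hG2
      linarith
    · rw [if_neg h]
      exact sum_nonneg hnn
  refine key.trans ?_
  have h2 : Ex p (fun a => ∑ q : (Fin k → Fin n) × ((Fin k → Bool) → Bool),
        if 2 ^ n * t ≤ ∑ x, (-sg (Gf q x)) * (bit (a x) - p x) then (1 : ℝ) else 0) =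
      ∑ q : (Fin k → Fin n) × ((Fin k → Bool) → Bool), Ex p (fun a =>
        if 2 ^ n * t ≤ ∑ x, (-sg (Gf q x)) * (bit (a x) - p x) then (1 : ℝ) else 0) := by
    unfold Ex
    rw [sum_comm]
    apply sum_congr rfl
    intro a _
    rw [mul_sum]
  rw [h2]
  refine (sum_le_sum fun q _ => Ex_tail h0 h1 (c := fun x => -sg (Gf q x))
    (fun x => by rw [neg_sq, sg_sq]) ht).trans (le_of_eq ?_)
  rw [sum_const, card_univ, nsmul_eq_mul]
  congr 1
  rw [Fintype.card_prod]
  simp only [Fintype.card_pi, prod_const, card_univ, Fintype.card_fin, Fintype.card_bool]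
  push_cast
  rfl

/-- a fixed function is about as good as expected -/
theorem Ex_single {p : Cube n → ℝ} (h0 : ∀ x, 0 ≤ p x) (h1 : ∀ x, p x ≤ 1) {t : ℝ}
    (ht : 0 ≤ t) (G : Cube n → Bool) :
    Ex p (fun a => if (1 - 2 * dist a G) - ecorr p G ≤ -(2 * t) then 1 else 0) ≤
      Real.exp (-(2 ^ n * t ^ 2 / 2)) := by
  have hN : (0 : ℝ) < 2 ^ n := by positivity
  refine le_trans ?_ (Ex_tail h0 h1 (c := fun x => sg (G x)) (fun x => by rw [sg_sq]) ht)
  apply Ex_mono h0 h1
  intro a _
  by_cases h : (1 - 2 * dist a G) - ecorr p G ≤ -(2 * t)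
  · rw [if_pos h, if_pos]
    rw [corr_sub, div_le_iff₀ hN] at h
    have e : ∑ x, -sg (G x) * (bit (a x) - p x) = -∑ x, sg (G x) * (bit (a x) - p x) := by
      rw [← sum_neg_distrib]
      apply sum_congr rfl
      intro x _
      ring
    rw [e] at h
    linarith
  · rw [if_neg h]
    split_ifs <;> norm_num

/-- the mean of the sign -/
noncomputable def hh (u : ℝ) : ℝ := 1 - 2 * Ph u

theorem Ph_sub {u v : ℝ} (h : u ≤ v) :
    Ph u - Ph v = (∫ s in Set.Ico (-v) (-u), Real.exp (-(s ^ 2 / 2))) / √(2 * Real.pi) := by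
  unfold Ph
  rw [← sub_div]
  congr 1
  have h1 : Set.Iio (-u) = Set.Iio (-v) ∪ Set.Ico (-v) (-u) := by
    rw [Set.Iio_union_Ico_eq_Iio (by linarith)]
  rw [h1, setIntegral_union _ measurableSet_Ico integrable_gauss1.integrableOn
    integrable_gauss1.integrableOn]
  · ring
  · rw [Set.disjoint_left]
    intro s h2 h3
    rw [Set.mem_Iio] at h2
    rw [Set.mem_Ico] at h3
    linarith

theorem two_le_sqrt : (2 : ℝ) ≤ √(2 * Real.pi) := by
  apply Real.le_sqrt_of_sq_le
  have := Real.pi_gt_three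
  linarith

theorem hh_lip {u v : ℝ} (h : u ≤ v) : hh v - hh u ≤ v - u := by
  have h1 := Ph_sub h
  have h2 : ∫ s in Set.Ico (-v) (-u), Real.exp (-(s ^ 2 / 2)) ≤ v - u := by
    calc ∫ s in Set.Ico (-v) (-u), Real.exp (-(s ^ 2 / 2)) ≤
          ∫ s in Set.Ico (-v) (-u), (1 : ℝ) := by
          apply setIntegral_mono integrable_gauss1.integrableOn
          · simp
          · intro s
            simp only
            rw [Real.exp_le_one_iff]
            have := sq_nonneg s
            linarith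
      _ = v - u := by
          simp
          rw [max_eq_left (by linarith)]
          ring
  have h3 : (∫ s in Set.Ico (-v) (-u), Real.exp (-(s ^ 2 / 2))) / √(2 * Real.pi) ≤ (v - u) / 2 := by
    apply div_le_div₀ (by linarith) h2 (by norm_num) two_le_sqrt
  unfold hh
  linarith

theorem hh_mono {u v : ℝ} (h : u ≤ v) : hh u ≤ hh v := by
  have h1 := Ph_sub h
  have h2 : 0 ≤ (∫ s in Set.Ico (-v) (-u), Real.exp (-(s ^ 2 / 2))) / √(2 * Real.pi) :=
    div_nonneg (integral_nonneg fun _ => (Real.exp_pos _).le) sqrt_two_pi_pos.le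
  unfold hh
  linarith

theorem hh_neg (u : ℝ) : hh (-u) = -hh u := by
  have h1 : Ph (-u) + Ph u = 1 := by
    unfold Ph
    rw [neg_neg, ← add_div, div_eq_one_iff_eq sqrt_two_pi_pos.ne', ← integral_gauss1]
    have h2 : ∫ s in Set.Iio (-u), Real.exp (-(s ^ 2 / 2)) =
        ∫ s in Set.Ici u, Real.exp (-(s ^ 2 / 2)) := by
      have h3 := integral_comp_neg_Iic (-u) (fun s : ℝ => Real.exp (-(s ^ 2 / 2)))
      simp only [neg_sq, neg_neg] at h3
      rw [integral_Iic_eq_integral_Iio] at h3
      rw [h3, integral_Ici_eq_integral_Ioi]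
    rw [h2]
    have h4 := integral_add_compl (measurableSet_Iio (a := u)) integrable_gauss1
    rw [Set.compl_Iio] at h4
    exact h4
  unfold hh
  linarith

theorem hh_abs (u w : ℝ) : |hh (u + w) + hh (u - w)| ≤ 2 * |u| := by
  have h1 : hh (u - w) = -hh (w - u) := by rw [← hh_neg]; congr 1; ring
  rw [h1, ← sub_eq_add_neg]
  rcases le_or_gt 0 u with hu | hu
  · have h2 := hh_lip (show w - u ≤ u + w by linarith)
    have h3 := hh_mono (show w - u ≤ u + w by linarith)
    rw [abs_of_nonneg (by linarith), abs_of_nonneg hu]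
    linarith
  · have h2 := hh_lip (show u + w ≤ w - u by linarith)
    have h3 := hh_mono (show u + w ≤ w - u by linarith)
    rw [abs_of_nonpos (by linarith), abs_of_neg hu]
    linarith

theorem hh_lower {θ w : ℝ} (h0 : 0 ≤ θ) (h1 : θ ≤ 1) (hw : |w| ≤ 1) :
    θ / 5 ≤ hh (θ + w) - hh (w - θ) := by
  have h := Ph_sub (show w - θ ≤ θ + w by linarith)
  rw [abs_le] at hw
  have h2 : Real.exp (-2) * (2 * θ) ≤
      ∫ s in Set.Ico (-(θ + w)) (-(w - θ)), Real.exp (-(s ^ 2 / 2)) := by
    calc Real.exp (-2) * (2 * θ) = ∫ s in Set.Ico (-(θ + w)) (-(w - θ)), Real.exp (-2) := by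
          simp
          rw [max_eq_left (by linarith)]
          ring
      _ ≤ _ := by
          apply setIntegral_mono_on
          · simp
          · exact integrable_gauss1.integrableOn
          · exact measurableSet_Ico
          · intro s hs
            rw [Set.mem_Ico] at hs
            apply Real.exp_le_exp.mpr
            nlinarith
  have h3 : √(2 * Real.pi) ≤ 2.6 := by
    rw [Real.sqrt_le_left (by norm_num)]
    have := Real.pi_lt_d2
    nlinarith
  have h4 : (0.13 : ℝ) ≤ Real.exp (-2) := by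
    rw [Real.exp_neg]
    have h5 : Real.exp 2 ≤ 7.5 := by
      have h6 := Real.exp_one_lt_d9
      have h7 : Real.exp 2 = Real.exp 1 * Real.exp 1 := by rw [← Real.exp_add]; norm_num
      rw [h7]
      nlinarith [Real.exp_pos 1]
    rw [le_inv_comm₀ (by norm_num) (Real.exp_pos _)]
    norm_num
    linarith
  have h5 : θ / 10 ≤ (∫ s in Set.Ico (-(θ + w)) (-(w - θ)), Real.exp (-(s ^ 2 / 2))) /
      √(2 * Real.pi) := by
    rw [le_div_iff₀ sqrt_two_pi_pos]
    nlinarith
  unfold hh
  linarith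

variable (ι : Fin K → Fin n) (c : ℝ)

theorem sum_flipJ (J : Finset (Fin n)) (F : Cube n → ℝ) :
    ∑ x : Cube n, F (fun i => if i ∈ J then x i else !x i) = ∑ x : Cube n, F x := by
  have h : Function.Involutive (fun (x : Cube n) (i : Fin n) => if i ∈ J then x i else !x i) := by
    intro x
    funext i
    by_cases hi : i ∈ J <;> simp [hi]
  exact (Function.Involutive.bijective h).sum_comp F

/-- the expected correlation of a junta is small if all coefficients are small -/
theorem ecorr_le (hι : Function.Injective ι) {g : VV K} {τ : ℝ} (hτ : 0 ≤ τ)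
    (hg : ∀ B, |c * g B| ≤ τ) {G : Cube n → Bool} (hG : IsJunta k G) :
    ecorr (pp ι c g) G ≤ k * τ := by
  obtain ⟨J, hJ, hG⟩ := hG
  have hN : (0 : ℝ) < 2 ^ n := by positivity
  unfold ecorr
  rw [div_le_iff₀ hN]
  set S : Finset (Fin K) := univ.filter fun B => ι B ∈ J with hS
  have hScard : (S.card : ℝ) ≤ k := by
    have h1 : S.card ≤ J.card :=
      card_le_card_of_injOn ι (fun B hB => (mem_filter.mp hB).2) hι.injOn
    exact_mod_cast h1.trans hJ
  set u : Cube n → ℝ := fun x => ∑ B ∈ S, c * g B * sg (x (ι B)) with hu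
  set w : Cube n → ℝ := fun x => ∑ B ∈ Sᶜ, c * g B * sg (x (ι B)) with hw
  have hlin : ∀ x, lin ι c x g = u x + w x := by
    intro x
    unfold lin
    rw [hu, hw]
    simp only
    rw [sum_add_sum_compl, mul_sum]
    apply sum_congr rfl
    intro B _
    ring
  have huf : ∀ x, u (fun i => if i ∈ J then x i else !x i) = u x := by
    intro x
    apply sum_congr rfl
    intro B hB
    have : ι B ∈ J := (mem_filter.mp hB).2
    simp only [this, if_true]
  have hwf : ∀ x, w (fun i => if i ∈ J then x i else !x i) = -w x := by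
    intro x
    simp only [hw]
    rw [← sum_neg_distrib]
    apply sum_congr rfl
    intro B hB
    have : ι B ∉ J := by
      intro h
      exact (mem_compl.mp hB) (mem_filter.mpr ⟨mem_univ _, h⟩)
    simp only [this, if_false]
    rw [sg_not]
    ring
  have hGf : ∀ x : Cube n, G (fun i => if i ∈ J then x i else !x i) = G x := by
    intro x
    apply hG
    intro i hi
    simp [hi]
  have hub : ∀ x, |u x| ≤ k * τ := by
    intro x
    calc |u x| ≤ ∑ B ∈ S, |c * g B * sg (x (ι B))| := abs_sum_le_sum_abs _ _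
      _ ≤ ∑ B ∈ S, τ := by
          apply sum_le_sum
          intro B _
          rw [abs_mul, abs_sg, mul_one]
          exact hg B
      _ = S.card * τ := by rw [sum_const, nsmul_eq_mul]
      _ ≤ k * τ := mul_le_mul_of_nonneg_right hScard hτ
  have e1 : ∑ x, (1 - 2 * pp ι c g x) * sg (G x) = ∑ x, hh (u x + w x) * sg (G x) := by
    apply sum_congr rfl
    intro x _
    unfold pp hh
    rw [hlin]
  have e2 : ∑ x, hh (u x + w x) * sg (G x) = ∑ x, hh (u x - w x) * sg (G x) := by
    rw [← sum_flipJ J (fun x => hh (u x + w x) * sg (G x))]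
    apply sum_congr rfl
    intro x _
    simp only [huf, hwf, hGf]
    rw [← sub_eq_add_neg]
  have e3 : 2 * ∑ x, hh (u x + w x) * sg (G x) =
      ∑ x, (hh (u x + w x) + hh (u x - w x)) * sg (G x) := by
    simp_rw [add_mul]
    rw [sum_add_distrib, ← e2]
    ring
  have e4 : ∑ x, (hh (u x + w x) + hh (u x - w x)) * sg (G x) ≤ ∑ _x : Cube n, 2 * (k * τ) := by
    apply sum_le_sum
    intro x _
    refine (le_abs_self _).trans ?_
    rw [abs_mul, abs_sg, mul_one]
    refine (hh_abs _ _).trans ?_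
    have := hub x
    linarith
  rw [sum_const, card_univ, nsmul_eq_mul] at e4
  have e5 : (Fintype.card (Cube n) : ℝ) = 2 ^ n := by simp
  rw [e5] at e4
  rw [e1]
  linarith

/-- the expected correlation with a variable whose coefficient is large -/
theorem le_ecorr (hι : Function.Injective ι) {g : VV K} (B₀ : Fin K) (h0 : 0 ≤ c * g B₀)
    (h1 : c * g B₀ ≤ 1) (h2 : ∑ B, (c * g B) ^ 2 ≤ 1 / 2) :
    c * g B₀ / 20 ≤ ecorr (pp ι c g) (fun x => x (ι B₀)) := by
  have hN : (0 : ℝ) < 2 ^ n := by positivity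
  unfold ecorr
  rw [le_div_iff₀ hN]
  set θ := c * g B₀ with hθ
  set w : Cube n → ℝ := fun x => ∑ B ∈ univ.erase B₀, c * g B * sg (x (ι B)) with hw
  have hlin : ∀ x, lin ι c x g = θ * sg (x (ι B₀)) + w x := by
    intro x
    unfold lin
    rw [hw]
    simp only
    rw [mul_sum, ← add_sum_erase univ _ (mem_univ B₀)]
    congr 1
    · rw [hθ]; ring
    · apply sum_congr rfl
      intro B _
      ring
  have hwf : ∀ x, w (flipE (ι B₀) x) = w x := by
    intro x
    apply sum_congr rfl
    intro B hB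
    rw [flipE_ne]
    exact fun h => (ne_of_mem_erase hB) (hι h)
  have e1 : ∑ x, (1 - 2 * pp ι c g x) * sg (x (ι B₀)) =
      ∑ x, hh (θ * sg (x (ι B₀)) + w x) * sg (x (ι B₀)) := by
    apply sum_congr rfl
    intro x _
    unfold pp hh
    rw [hlin]
  have e2 : ∑ x, hh (θ * sg (x (ι B₀)) + w x) * sg (x (ι B₀)) =
      ∑ x, hh (-(θ * sg (x (ι B₀))) + w x) * (-sg (x (ι B₀))) := by
    rw [← Equiv.sum_comp (flipE (ι B₀))
      (fun x => hh (θ * sg (x (ι B₀)) + w x) * sg (x (ι B₀)))]
    apply sum_congr rfl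
    intro x _
    rw [flipE_same, sg_not, hwf]
    congr 2
    ring
  have e3 : ∀ x, (hh (θ * sg (x (ι B₀)) + w x) - hh (-(θ * sg (x (ι B₀))) + w x)) *
      sg (x (ι B₀)) = hh (θ + w x) - hh (w x - θ) := by
    intro x
    rcases Bool.eq_false_or_eq_true (x (ι B₀)) with h | h
    · rw [h]
      simp only [sg, if_true]
      have a1 : θ * -1 + w x = w x - θ := by ring
      have a2 : -(θ * -1) + w x = θ + w x := by ring
      rw [a1, a2]; ring
    · rw [h]
      simp only [sg, Bool.false_eq_true, if_false]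
      have a1 : θ * 1 + w x = θ + w x := by ring
      have a2 : -(θ * 1) + w x = w x - θ := by ring
      rw [a1, a2]; ring
  have e4 : 2 * ∑ x, hh (θ * sg (x (ι B₀)) + w x) * sg (x (ι B₀)) =
      ∑ x, (hh (θ + w x) - hh (w x - θ)) := by
    rw [two_mul]
    conv_lhs => rhs; rw [e2]
    rw [← sum_add_distrib]
    apply sum_congr rfl
    intro x _
    rw [← e3 x]
    ring
  -- second moment of `w`
  have hw2 : ∑ x, w x ^ 2 ≤ 2 ^ n / 2 := by
    have h3 : ∀ B B' : Fin K, B ≠ B' → ∑ x : Cube n, sg (x (ι B)) * sg (x (ι B')) = 0 := by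
      intro B B' hne
      have h4 := Equiv.sum_comp (flipE (ι B)) (fun x : Cube n => sg (x (ι B)) * sg (x (ι B')))
      have h5 : ∀ x : Cube n, sg (flipE (ι B) x (ι B)) * sg (flipE (ι B) x (ι B')) =
          -(sg (x (ι B)) * sg (x (ι B'))) := by
        intro x
        rw [flipE_same, flipE_ne (fun h => hne (hι h).symm), sg_not]
        ring
      simp_rw [h5] at h4
      rw [sum_neg_distrib] at h4
      linarith
    have h6 : ∑ x, w x ^ 2 = ∑ B ∈ univ.erase B₀, (c * g B) ^ 2 * 2 ^ n := by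
      have h7 : ∀ x, w x ^ 2 = ∑ B ∈ univ.erase B₀, ∑ B' ∈ univ.erase B₀,
          (c * g B) * (c * g B') * (sg (x (ι B)) * sg (x (ι B'))) := by
        intro x
        rw [hw]
        simp only
        rw [sq, sum_mul_sum]
        apply sum_congr rfl; intro B _
        apply sum_congr rfl; intro B' _
        ring
      simp_rw [h7]
      rw [sum_comm]
      apply sum_congr rfl
      intro B hB
      rw [sum_comm, sum_eq_single B]
      · rw [← mul_sum]
        have h8 : ∀ x : Cube n, sg (x (ι B)) * sg (x (ι B)) = 1 := fun x => sg_mul_self _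
        simp_rw [h8]
        simp
        ring
      · intro B' _ hne
        rw [← mul_sum, h3 B B' hne.symm, mul_zero]
      · intro h; exact absurd hB h
    rw [h6, ← sum_mul]
    have h9 : ∑ B ∈ univ.erase B₀, (c * g B) ^ 2 ≤ 1 / 2 :=
      (sum_le_sum_of_subset_of_nonneg (erase_subset _ _) (fun _ _ _ => sq_nonneg _)).trans h2
    nlinarith
  have e5 : ∀ x, θ / 5 * (1 - w x ^ 2) ≤ hh (θ + w x) - hh (w x - θ) := by
    intro x
    rcases le_or_gt |w x| 1 with h | h
    · have h3 := hh_lower h0 h1 h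
      have h4 : θ / 5 * (1 - w x ^ 2) ≤ θ / 5 := by
        nlinarith [sq_nonneg (w x), mul_nonneg h0 (sq_nonneg (w x))]
      linarith
    · have h3 : 1 ≤ w x ^ 2 := by
        rw [← sq_abs]; nlinarith
      have h4 : θ / 5 * (1 - w x ^ 2) ≤ 0 := by
        apply mul_nonpos_of_nonneg_of_nonpos <;> linarith
      have h5 := hh_mono (show w x - θ ≤ θ + w x by linarith)
      linarith
  have e6 : ∑ x, θ / 5 * (1 - w x ^ 2) ≤ ∑ x, (hh (θ + w x) - hh (w x - θ)) :=
    sum_le_sum fun x _ => e5 x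
  rw [← mul_sum, sum_sub_distrib] at e6
  have e7 : ∑ _x : Cube n, (1 : ℝ) = 2 ^ n := by simp
  rw [e7] at e6
  have e8 : θ / 5 * (2 ^ n / 2) ≤ θ / 5 * (2 ^ n - ∑ x, w x ^ 2) :=
    mul_le_mul_of_nonneg_left (by linarith) (by linarith)
  rw [e1]
  linarith

end Pool.Agent.Work.MP_8f25a0_lc
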