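import Pool.Agent.Work.MP_8f25a0_lc.Spike

/-!
# The lower bound from the planted spike: algorithms
-/

namespace Pool.Agent.Work.MP_8f25a0_lc

open MeasureTheory Finset

set_option linter.unusedSectionVars false

variable {n K k : ℕ} (ι : Fin K → Fin n) (c : ℝ)

/-- the indicator of a set of outputs -/
noncomputable def oi (T : Tree n) (O : Set ℝ) (a : Cube n → Bool) : ℝ := O.indicator 1 (T.eval a)

theorem oi_nonneg (T : Tree n) (O : Set ℝ) (a : Cube n → Bool) : 0 ≤ oi T O a := ind_nonneg _ _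

theorem oi_le_one (T : Tree n) (O : Set ℝ) (a : Cube n → Bool) : oi T O a ≤ 1 := ind_le_one _ _

theorem gp_outSet (b : VV K) (T : Tree n) (O : Set ℝ) :
    gp (WithLp.toLp 2 ((0 : UU n), b)) (outSet (rr ι c) T O) =
      Cn n * ∑ a, mw ι c b a * oi T O a := by
  have h := gp_fubini ι c b {a | T.eval a ∈ O}
  rw [integral_Ex] at h
  exact h


theorem tree_spike {Λ : ℝ} (hΛ : 1 ≤ Λ) {q : ℕ} (T : Tree n) (hT : T.depth ≤ q) (O : Set ℝ) :
    K * ∑ a, mw ι c 0 a * oi T O a -
      ∑ B, ∑ a, mw ι c (Λ • EuclideanSpace.single B (1 : ℝ)) a * oi T O a ≤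
      2 * √K * Real.exp (Λ ^ 2 * (q * c ^ 2)) * Λ ^ 2 * cV K := by
  have h := gap_bound (ee n) Λ (rr ι c) orthonormal_ee hΛ (ym := Λ ^ 2 * (q * c ^ 2))
    (by positivity) (q := q) ?_ T hT O
  · unfold gap at h
    have e1 : ∀ B : Fin K, Λ • ee n B =
        WithLp.toLp 2 ((0 : UU n), (Λ • EuclideanSpace.single B (1 : ℝ) : VV K)) := by
      intro B
      unfold ee
      rw [← WithLp.toLp_smul, Prod.smul_mk, smul_zero]
    have e2 : (0 : EE n K) = WithLp.toLp 2 ((0 : UU n), (0 : VV K)) := rfl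
    have e3 : gp (0 : EE n K) Set.univ = Cn n * cV K := by
      have h3 := gp_fubini ι c (0 : VV K) Set.univ
      rw [integral_Ex] at h3
      have h4 : {z : EE n K | fz (rr ι c) z ∈ (Set.univ : Set (Cube n → Bool))} = Set.univ := by
        ext z; simp
      rw [h4] at h3
      rw [e2, h3, ← sum_mw ι c (0 : VV K)]
      simp
    rw [e3] at h
    simp_rw [e1] at h
    rw [e2] at h
    simp_rw [gp_outSet] at h
    have hC := Cn_pos n
    set S1 := ∑ B, ∑ a, mw ι c (Λ • EuclideanSpace.single B (1 : ℝ)) a * oi T O a with hS1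
    set S0 := ∑ a, mw ι c 0 a * oi T O a with hS0
    rw [← mul_sum, ← hS1] at h
    have h5 : (Cn n * (S1 - K * S0)) ^ 2 ≤
        (Cn n * (2 * √K * Real.exp (Λ ^ 2 * (q * c ^ 2)) * Λ ^ 2 * cV K)) ^ 2 := by
      calc (Cn n * (S1 - K * S0)) ^ 2 = (Cn n * S1 - K * (Cn n * S0)) ^ 2 := by ring
        _ ≤ _ := h
        _ = 4 * K * Real.exp (Λ ^ 2 * (q * c ^ 2)) ^ 2 * Λ ^ 4 * (Cn n * cV K) ^ 2 := rfl
        _ = _ := by
            have : √(K : ℝ) ^ 2 = K := Real.sq_sqrt (Nat.cast_nonneg K)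
            linear_combination -(4 * Real.exp (Λ ^ 2 * (q * c ^ 2)) ^ 2 * Λ ^ 4 *
              (Cn n * cV K) ^ 2) * this
    have hcV := cV_pos K
    have h6 : |Cn n * (S1 - K * S0)| ≤
        Cn n * (2 * √K * Real.exp (Λ ^ 2 * (q * c ^ 2)) * Λ ^ 2 * cV K) :=
      abs_le_of_sq_le_sq h5 (by positivity)
    have h7 := neg_le_of_abs_le h6
    have h8 : Cn n * (K * S0 - S1) ≤
        Cn n * (2 * √K * Real.exp (Λ ^ 2 * (q * c ^ 2)) * Λ ^ 2 * cV K) := by linarith
    exact le_of_mul_le_mul_left h8 hC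
  · intro Q hQ B
    apply mul_le_mul_of_nonneg_left _ (sq_nonneg Λ)
    refine (GV_le ι c Q B).trans ?_
    apply mul_le_mul_of_nonneg_right _ (sq_nonneg c)
    exact_mod_cast hQ

/-- the probability of an output in `O` -/
noncomputable def accO (A : PMF (Tree n)) (O : Set ℝ) (a : Cube n → Bool) : ℝ :=
  (A.toOuterMeasure {T | T.eval a ∈ O}).toReal

theorem accO_eq (A : PMF (Tree n)) (O : Set ℝ) (a : Cube n → Bool) :
    accO A O a = ∑' T, (A T).toReal * oi T O a := by
  unfold accO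
  rw [prob_eq_tsum]
  rfl

theorem accO_le_one (A : PMF (Tree n)) (O : Set ℝ) (a : Cube n → Bool) : accO A O a ≤ 1 := by
  have := ENNReal.toReal_mono ENNReal.one_ne_top (prob_le_one A {T | T.eval a ∈ O})
  simpa [accO] using this

theorem accO_nonneg (A : PMF (Tree n)) (O : Set ℝ) (a : Cube n → Bool) : 0 ≤ accO A O a :=
  ENNReal.toReal_nonneg

theorem sum_accO (A : PMF (Tree n)) (O : Set ℝ) (w : (Cube n → Bool) → ℝ) {q : ℕ} {D : ℝ}
    (hA : ∀ T ∈ A.support, T.depth ≤ q)
    (h : ∀ T : Tree n, T.depth ≤ q → ∑ a, w a * oi T O a ≤ D) :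
    ∑ a, w a * accO A O a ≤ D := by
  have hs : ∀ a : Cube n → Bool, Summable fun T => (A T).toReal * oi T O a := fun a =>
    summable_acc A _ (fun T => oi_nonneg T O a) (fun T => oi_le_one T O a)
  have hs2 : Summable fun T => (A T).toReal * ∑ a, w a * oi T O a := by
    have h1 : Summable fun T => ∑ a, w a * ((A T).toReal * oi T O a) :=
      summable_sum fun a _ => (hs a).mul_left _
    refine h1.congr fun T => ?_
    rw [mul_sum]
    apply sum_congr rfl
    intro a _
    ring
  calc ∑ a, w a * accO A O a = ∑ a, ∑' T, w a * ((A T).toReal * oi T O a) := by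
        apply sum_congr rfl; intro a _; rw [accO_eq, tsum_mul_left]
    _ = ∑' T, ∑ a, w a * ((A T).toReal * oi T O a) := by
        rw [Summable.tsum_finsetSum]
        intro a _
        exact (hs a).mul_left _
    _ = ∑' T, (A T).toReal * ∑ a, w a * oi T O a := by
        apply tsum_congr
        intro T
        rw [mul_sum]
        apply sum_congr rfl
        intro a _
        ring
    _ ≤ ∑' T, (A T).toReal * D := by
        apply Summable.tsum_le_tsum _ hs2 ((summable_toReal A).mul_right _)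
        intro T
        by_cases hT : T ∈ A.support
        · exact mul_le_mul_of_nonneg_left (h T (hA T hT)) ENNReal.toReal_nonneg
        · rw [PMF.mem_support_iff, not_not] at hT
          rw [hT]; simp
    _ = D := by rw [tsum_mul_right, tsum_toReal, one_mul]

/-- **The lower bound from the planted spike.** -/
theorem spike_bound (hn : 0 < n) (hKn : K ≤ n) {τ ε : ℝ} (hτ : 1 ≤ τ)
    (hε : 0 < ε) (hε1 : ε ≤ 1 / 600) (hk : 1 ≤ k) (hKε : K * ε ^ 2 ≤ 1 / 16)
    (hN : (n : ℝ) ^ k * 2 ^ (2 ^ k) * Real.exp (-(2 ^ n * ε ^ 2 / 8)) ≤ 1 / 100)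
    (hK : 2 * K * Real.exp (-(τ ^ 2 / 2)) ≤ 1 / 100) {q : ℕ} {A : PMF (Tree n)}
    (hA : Approximates n k ε q A) :
    29 / 100 * √K ≤ 2 * Real.exp (40000 * ε ^ 2 * q) * (100 * k * τ) ^ 2 := by
  classical
  rcases Nat.eq_zero_or_pos K with hK0 | hK0
  · subst hK0
    simp
    positivity
  have hτ0 : 0 < τ := by linarith
  have hk0 : (0 : ℝ) < k := by exact_mod_cast hk
  have hk1 : (1 : ℝ) ≤ k := by exact_mod_cast hk
  set ι : Fin K → Fin n := Fin.castLE hKn with hιdef
  have hι : Function.Injective ι := Fin.castLE_injective hKn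
  set c : ℝ := 2 * ε / (k * τ) with hc
  set Λ : ℝ := 100 * k * τ with hΛdef
  have hΛ : 1 ≤ Λ := by rw [hΛdef]; nlinarith
  have hcΛ : Λ ^ 2 * c ^ 2 = 40000 * ε ^ 2 := by
    rw [hΛdef, hc]; field_simp; norm_num
  have hn1 := null_fail ι c hn hι hτ0 hε hk hc hN hK
  have hn2 := planted_fail ι c hn hι hτ0 hε hε1 hk hc hKε hN hK
  set O : Set ℝ := Set.Ioi (1 / 2 - 3 * ε) with hO
  -- null
  have b1 : (2 / 3 - 1 / 50) * cV K ≤ ∑ a, mw ι c 0 a * accO A O a := by
    have h1 : ∀ a : Cube n → Bool, 2 / 3 - (if distK k a ≤ 1 / 2 - 3 / 2 * ε then (1 : ℝ) else 0) ≤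
        accO A O a := by
      intro a
      split_ifs with h
      · have := accO_nonneg A O a
        linarith
      · push Not at h
        rw [sub_zero]
        refine (two_thirds (hA.2 a)).trans (prob_mono A ?_)
        intro T hT
        simp only [Set.mem_ofPred_eq] at hT ⊢
        rw [abs_le] at hT
        rw [hO, Set.mem_Ioi]
        linarith
    have h2 : ∑ a, mw ι c 0 a * (2 / 3 -
        (if distK k a ≤ 1 / 2 - 3 / 2 * ε then (1 : ℝ) else 0)) ≤ ∑ a, mw ι c 0 a * accO A O a :=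
      sum_le_sum fun a _ => mul_le_mul_of_nonneg_left (h1 a) (mw_nonneg ι c 0 a)
    simp_rw [mul_sub] at h2
    rw [sum_sub_distrib, ← sum_mul, sum_mw] at h2
    linarith
  -- planted
  have b2 : ∀ B, ∑ a, mw ι c (Λ • EuclideanSpace.single B (1 : ℝ)) a * accO A O a ≤
      (1 / 3 + 1 / 50) * cV K := by
    intro B
    have h1 : ∀ a : Cube n → Bool, accO A O a ≤
        1 / 3 + (if 1 / 2 - 4 * ε ≤ distK k a then (1 : ℝ) else 0) := by
      intro a
      split_ifs with h
      · have := accO_le_one A O a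
        linarith
      · push Not at h
        rw [add_zero]
        have h3 := two_thirds (hA.2 a)
        have h4 : Disjoint {T : Tree n | T.eval a ∈ O}
            {T : Tree n | |T.eval a - distK k a| ≤ ε} := by
          rw [Set.disjoint_left]
          intro T h5 h6
          simp only [Set.mem_ofPred_eq] at h5 h6
          rw [hO, Set.mem_Ioi] at h5
          rw [abs_le] at h6
          linarith
        have h5 := prob_disjoint A h4
        unfold accO
        linarith
    have h2 : ∑ a, mw ι c (Λ • EuclideanSpace.single B (1 : ℝ)) a * accO A O a ≤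
        ∑ a, mw ι c (Λ • EuclideanSpace.single B (1 : ℝ)) a * (1 / 3 +
        (if 1 / 2 - 4 * ε ≤ distK k a then (1 : ℝ) else 0)) :=
      sum_le_sum fun a _ => mul_le_mul_of_nonneg_left (h1 a) (mw_nonneg ι c _ a)
    simp_rw [mul_add] at h2
    rw [sum_add_distrib, ← sum_mul, sum_mw] at h2
    have h3 := hn2 B
    linarith
  -- indistinguishability
  have b3 := sum_accO A O (fun a => K * mw ι c 0 a -
    ∑ B, mw ι c (Λ • EuclideanSpace.single B (1 : ℝ)) a) (q := q)
    (D := 2 * √K * Real.exp (Λ ^ 2 * (q * c ^ 2)) * Λ ^ 2 * cV K) hA.1 (by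
      intro T hT
      refine le_trans (le_of_eq ?_) (tree_spike ι c hΛ T hT O)
      simp_rw [sub_mul]
      rw [sum_sub_distrib, mul_sum]
      congr 1
      · apply sum_congr rfl
        intro a _
        ring
      · rw [sum_comm]
        apply sum_congr rfl
        intro a _
        rw [sum_mul])
  have b4 : ∑ a, (K * mw ι c 0 a - ∑ B, mw ι c (Λ • EuclideanSpace.single B (1 : ℝ)) a) *
      accO A O a = K * ∑ a, mw ι c 0 a * accO A O a -
      ∑ B, ∑ a, mw ι c (Λ • EuclideanSpace.single B (1 : ℝ)) a * accO A O a := by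
    simp_rw [sub_mul]
    rw [sum_sub_distrib, mul_sum]
    congr 1
    · apply sum_congr rfl
      intro a _
      ring
    · rw [sum_comm]
      apply sum_congr rfl
      intro a _
      rw [sum_mul]
  rw [b4] at b3
  have b5 : ∑ B, ∑ a, mw ι c (Λ • EuclideanSpace.single B (1 : ℝ)) a * accO A O a ≤
      K * ((1 / 3 + 1 / 50) * cV K) := by
    refine (sum_le_sum fun B _ => b2 B).trans (le_of_eq ?_)
    rw [sum_const, card_univ, Fintype.card_fin, nsmul_eq_mul]
  have hKR : (0 : ℝ) < K := by exact_mod_cast hK0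
  have b6 := mul_le_mul_of_nonneg_left b1 hKR.le
  have hcV := cV_pos K
  have e1 : Λ ^ 2 * (q * c ^ 2) = 40000 * ε ^ 2 * q := by
    rw [← hcΛ]; ring
  rw [e1] at b3
  have b7 : (29 / 100 * K) * cV K ≤
      (2 * √K * Real.exp (40000 * ε ^ 2 * q) * Λ ^ 2) * cV K := by nlinarith
  have b8 := le_of_mul_le_mul_right b7 hcV
  have hs : 0 < √(K : ℝ) := Real.sqrt_pos.mpr hKR
  have hs2 : (K : ℝ) = √K * √K := (Real.mul_self_sqrt hKR.le).symm
  have b9 : √(K : ℝ) * (29 / 100 * √K) ≤
      √K * (2 * Real.exp (40000 * ε ^ 2 * q) * Λ ^ 2) := by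
    calc √(K : ℝ) * (29 / 100 * √K) = 29 / 100 * (√K * √K) := by ring
      _ = 29 / 100 * K := by rw [← hs2]
      _ ≤ _ := b8
      _ = _ := by ring
  exact le_of_mul_le_mul_left b9 hs

end Pool.Agent.Work.MP_8f25a0_lc
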