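import Mathlib

/-!
# Fourier analysis on the cube

Averages, characters, Parseval's identity and Bonami's lemma for the fourth moment.
-/

namespace Pool.Agent.Work.MP_8f25a0_lc

open Finset

/-- the average of a function on a finite type -/
noncomputable def avg {α : Type*} [Fintype α] (F : α → ℝ) : ℝ := (∑ a, F a) / Fintype.card α

section avg

variable {α β : Type*} [Fintype α] [Fintype β]

theorem avg_add (F G : α → ℝ) : avg (fun a => F a + G a) = avg F + avg G := by
  unfold avg; rw [sum_add_distrib, add_div]

theorem avg_sub (F G : α → ℝ) : avg (fun a => F a - G a) = avg F - avg G := by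
  unfold avg; rw [sum_sub_distrib, sub_div]

theorem avg_neg (F : α → ℝ) : avg (fun a => -F a) = -avg F := by
  unfold avg; rw [sum_neg_distrib, neg_div]

theorem avg_mul_left (c : ℝ) (F : α → ℝ) : avg (fun a => c * F a) = c * avg F := by
  unfold avg; rw [← mul_sum, mul_div_assoc]

theorem avg_mul_right (c : ℝ) (F : α → ℝ) : avg (fun a => F a * c) = avg F * c := by
  unfold avg; rw [← sum_mul, div_mul_eq_mul_div]

theorem avg_sum {ι : Type*} (s : Finset ι) (F : ι → α → ℝ) :
    avg (fun a => ∑ i ∈ s, F i a) = ∑ i ∈ s, avg (F i) := by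
  unfold avg; rw [sum_comm, sum_div]

theorem avg_comm (F : α → β → ℝ) : avg (fun a => avg (F a)) = avg fun b => avg fun a => F a b := by
  unfold avg
  rw [← sum_div, ← sum_div, sum_comm, div_div, div_div, mul_comm]

theorem avg_mono {F G : α → ℝ} (h : ∀ a, F a ≤ G a) : avg F ≤ avg G := by
  unfold avg; gcongr with a; exact h a

theorem avg_nonneg {F : α → ℝ} (h : ∀ a, 0 ≤ F a) : 0 ≤ avg F := by
  unfold avg; exact div_nonneg (sum_nonneg fun a _ => h a) (Nat.cast_nonneg _)

theorem avg_const [Nonempty α] (c : ℝ) : avg (fun _ : α => c) = c := by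
  unfold avg
  rw [sum_const, card_univ, nsmul_eq_mul]
  field_simp

theorem avg_equiv (e : α ≃ β) (F : β → ℝ) : avg (fun a => F (e a)) = avg F := by
  unfold avg
  rw [Fintype.card_congr e, Equiv.sum_comp e]

theorem avg_le_of_forall [Nonempty α] {F : α → ℝ} {c : ℝ} (h : ∀ a, F a ≤ c) : avg F ≤ c := by
  rw [← avg_const (α := α) c]; exact avg_mono h

theorem avg_prod (F : α × β → ℝ) : avg F = avg fun a => avg fun b => F (a, b) := by
  unfold avg
  rw [Fintype.sum_prod_type, ← sum_div, div_div, Fintype.card_prod, Nat.cast_mul, mul_comm]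

theorem avg_cauchy (F G : α → ℝ) :
    avg (fun a => F a * G a) ^ 2 ≤ avg (fun a => F a ^ 2) * avg (fun a => G a ^ 2) := by
  unfold avg
  rw [div_pow, div_mul_div_comm, ← sq]
  apply div_le_div_of_nonneg_right (sum_mul_sq_le_sq_mul_sq univ F G) (by positivity)

theorem avg_sq_le (F : α → ℝ) : avg F ^ 2 ≤ avg (fun a => F a ^ 2) := by
  rcases isEmpty_or_nonempty α with h | h
  · simp [avg]
  · have := avg_cauchy F (fun _ => 1)
    simp only [mul_one, one_pow, avg_const] at this
    exact this

/-- Markov's inequality -/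
theorem avg_markov {F : α → ℝ} (h : ∀ a, 0 ≤ F a) {t c : ℝ} (ht : 0 < t) (hc : avg F ≤ c * t) :
    avg (fun a => if t ≤ F a then 1 else 0) ≤ c := by
  have h1 : avg (fun a => (if t ≤ F a then (1 : ℝ) else 0) * t) ≤ avg F := by
    apply avg_mono
    intro a
    split_ifs with h2
    · rw [one_mul]; exact h2
    · rw [zero_mul]; exact h a
  rw [avg_mul_right] at h1
  exact le_of_mul_le_mul_right (h1.trans hc) ht

/-- resampling one coordinate -/
theorem avg_update {ι γ : Type*} [Fintype ι] [DecidableEq ι] [Fintype γ]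
    (i : ι) (g : (ι → γ) → ℝ) :
    avg g = avg fun p : ι → γ => avg fun b : γ => g (Function.update p i b) := by
  rcases isEmpty_or_nonempty γ with h | h
  · have : IsEmpty (ι → γ) := ⟨fun p => h.elim (p i)⟩
    simp [avg]
  rw [← avg_prod (fun q : (ι → γ) × γ => g (Function.update q.1 i q.2))]
  have e : ((ι → γ) × γ) ≃ ((ι → γ) × γ) :=
    { toFun := fun q => (Function.update q.1 i q.2, q.1 i)
      invFun := fun q => (Function.update q.1 i q.2, q.1 i)
      left_inv := by rintro ⟨p, b⟩; simp
      right_inv := by rintro ⟨p, b⟩; simp }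
  have h1 := avg_equiv
    { toFun := fun q : (ι → γ) × γ => (Function.update q.1 i q.2, q.1 i)
      invFun := fun q => (Function.update q.1 i q.2, q.1 i)
      left_inv := by rintro ⟨p, b⟩; simp
      right_inv := by rintro ⟨p, b⟩; simp } (fun q : (ι → γ) × γ => g q.1)
  simp only [Equiv.coe_fn_mk] at h1
  rw [h1, avg_prod]
  simp only [avg_const]

end avg

/-- the sign of a Boolean -/
noncomputable def sg (b : Bool) : ℝ := if b then -1 else 1

theorem sg_mul_self (b : Bool) : sg b * sg b = 1 := by cases b <;> simp [sg]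
theorem sg_not (b : Bool) : sg (!b) = -sg b := by cases b <;> simp [sg]
theorem sg_xor (a b : Bool) : sg (xor a b) = sg a * sg b := by cases a <;> cases b <;> simp [sg]
theorem abs_sg (b : Bool) : |sg b| = 1 := by cases b <;> simp [sg]

variable {n m : ℕ}

/-- the characters of the cube -/
noncomputable def chi (S : Finset (Fin n)) (x : Fin n → Bool) : ℝ := ∏ i ∈ S, sg (x i)

theorem chi_empty (x : Fin n → Bool) : chi ∅ x = 1 := by simp [chi]

theorem chi_mul_self (S : Finset (Fin n)) (x : Fin n → Bool) : chi S x * chi S x = 1 := by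
  unfold chi
  rw [← prod_mul_distrib]
  exact prod_eq_one fun i _ => sg_mul_self _

theorem chi_sq (S : Finset (Fin n)) (x : Fin n → Bool) : chi S x ^ 2 = 1 := by
  rw [sq, chi_mul_self]

theorem chi_symmDiff (S T : Finset (Fin n)) (x : Fin n → Bool) :
    chi (symmDiff S T) x = chi S x * chi T x := by
  have h1 : chi S x = chi (S \ T) x * chi (S ∩ T) x := by
    unfold chi
    rw [← prod_union (disjoint_sdiff_inter S T), sdiff_union_inter]
  have h2 : chi T x = chi (T \ S) x * chi (S ∩ T) x := by
    unfold chi
    rw [inter_comm, ← prod_union (disjoint_sdiff_inter T S), sdiff_union_inter]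
  have h3 : chi (symmDiff S T) x = chi (S \ T) x * chi (T \ S) x := by
    unfold chi
    rw [symmDiff_def, sup_eq_union, prod_union disjoint_sdiff_sdiff]
  rw [h1, h2, h3]
  linear_combination (-(chi (S \ T) x * chi (T \ S) x)) * chi_mul_self (S ∩ T) x

/-- flipping a coordinate, as a permutation of the cube -/
def flipE (i : Fin n) : (Fin n → Bool) ≃ (Fin n → Bool) where
  toFun x := Function.update x i (!x i)
  invFun x := Function.update x i (!x i)
  left_inv x := by simp
  right_inv x := by simp

theorem flipE_same (i : Fin n) (x : Fin n → Bool) : flipE i x i = !x i := by simp [flipE]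

theorem flipE_ne {i j : Fin n} (h : j ≠ i) (x : Fin n → Bool) : flipE i x j = x j := by
  simp [flipE, h]

theorem chi_flip_mem {i : Fin n} {S : Finset (Fin n)} (h : i ∈ S) (x : Fin n → Bool) :
    chi S (flipE i x) = -chi S x := by
  unfold chi
  rw [← mul_prod_erase S _ h, ← mul_prod_erase S _ h, flipE_same, sg_not, neg_mul]
  congr 2
  apply prod_congr rfl
  intro j hj
  rw [flipE_ne (ne_of_mem_erase hj)]

theorem chi_flip_notMem {i : Fin n} {S : Finset (Fin n)} (h : i ∉ S) (x : Fin n → Bool) :
    chi S (flipE i x) = chi S x := by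
  unfold chi
  apply prod_congr rfl
  intro j hj
  rw [flipE_ne (by rintro rfl; exact h hj)]

theorem avg_chi (S : Finset (Fin n)) : avg (chi S) = if S = ∅ then 1 else 0 := by
  split_ifs with h
  · subst h
    have : (chi (∅ : Finset (Fin n))) = fun _ => 1 := by funext x; exact chi_empty x
    rw [this, avg_const]
  · obtain ⟨i, hi⟩ := nonempty_iff_ne_empty.mpr h
    have h1 := avg_equiv (flipE i) (chi S)
    simp only [chi_flip_mem hi, avg_neg] at h1
    linarith

theorem avg_chi_mul_chi (S T : Finset (Fin n)) :
    avg (fun x => chi S x * chi T x) = if S = T then 1 else 0 := by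
  have : (fun x => chi S x * chi T x) = chi (symmDiff S T) := by
    funext x; rw [chi_symmDiff]
  rw [this, avg_chi]
  congr 1
  rw [eq_iff_iff, ← bot_eq_empty, symmDiff_eq_bot]

/-- Fourier coefficients -/
noncomputable def hat (f : (Fin n → Bool) → ℝ) (S : Finset (Fin n)) : ℝ :=
  avg fun x => f x * chi S x

theorem sum_chi_mul_chi (x y : Fin n → Bool) :
    ∑ S, chi S x * chi S y = if x = y then 2 ^ n else 0 := by
  have h : ∀ S : Finset (Fin n), chi S x * chi S y = ∏ i ∈ S, (sg (x i) * sg (y i)) := by
    intro S; unfold chi; rw [prod_mul_distrib]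
  simp_rw [h]
  have h2 := prod_add_one (s := (univ : Finset (Fin n))) (f := fun i => sg (x i) * sg (y i))
  rw [powerset_univ] at h2
  rw [← h2]
  split_ifs with hxy
  · subst hxy
    simp_rw [sg_mul_self]
    norm_num
  · obtain ⟨i, hi⟩ := Function.ne_iff.mp hxy
    apply prod_eq_zero (mem_univ i)
    revert hi
    cases x i <;> cases y i <;> simp [sg]

theorem fourier (f : (Fin n → Bool) → ℝ) (x : Fin n → Bool) :
    f x = ∑ S, hat f S * chi S x := by
  unfold hat
  have h : ∀ S, avg (fun y => f y * chi S y) * chi S x = avg fun y => f y * (chi S y * chi S x) := by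
    intro S
    rw [← avg_mul_right]
    congr 1
    funext y
    ring
  simp_rw [h]
  rw [← avg_sum]
  simp_rw [← mul_sum, sum_chi_mul_chi]
  unfold avg
  simp only [mul_ite, mul_zero, sum_ite_eq', mem_univ, if_true]
  simp

/-- the function with Fourier coefficients `a` -/
noncomputable def P (a : Finset (Fin n) → ℝ) (x : Fin n → Bool) : ℝ := ∑ S, a S * chi S x

theorem hat_P (a : Finset (Fin n) → ℝ) (S : Finset (Fin n)) : hat (P a) S = a S := by
  unfold hat P
  simp_rw [sum_mul, mul_assoc]
  rw [avg_sum]
  simp_rw [avg_mul_left, avg_chi_mul_chi]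
  simp

theorem P_hat (f : (Fin n → Bool) → ℝ) : P (hat f) = f := by
  funext x; exact (fourier f x).symm

theorem plancherel (f g : (Fin n → Bool) → ℝ) :
    avg (fun x => f x * g x) = ∑ S, hat f S * hat g S := by
  conv_lhs =>
    enter [1, x]
    rw [fourier g x, mul_sum]
  rw [avg_sum]
  apply sum_congr rfl
  intro S _
  unfold hat
  rw [mul_comm, ← avg_mul_left]
  congr 1
  funext x
  ring

theorem parseval (f : (Fin n → Bool) → ℝ) : avg (fun x => f x ^ 2) = ∑ S, hat f S ^ 2 := by
  simp_rw [sq]; exact plancherel f f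

theorem parseval_P (a : Finset (Fin n) → ℝ) : avg (fun x => P a x ^ 2) = ∑ S, a S ^ 2 := by
  rw [parseval]; simp_rw [hat_P]

/-- splitting a sum over sets according to whether `i` is a member -/
theorem sum_split (i : Fin n) (F : Finset (Fin n) → ℝ) :
    ∑ S, F S = ∑ S, if i ∈ S then 0 else F S + F (insert i S) := by
  have h1 : ∑ S, F S = ∑ S ∈ univ.filter (fun S : Finset (Fin n) => i ∈ S), F S +
      ∑ S ∈ univ.filter (fun S : Finset (Fin n) => ¬ i ∈ S), F S :=
    (sum_filter_add_sum_filter_not univ _ _).symm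
  have h2 : ∑ S ∈ univ.filter (fun S : Finset (Fin n) => i ∈ S), F S =
      ∑ S ∈ univ.filter (fun S : Finset (Fin n) => ¬ i ∈ S), F (insert i S) := by
    refine sum_bij' (fun S _ => S.erase i) (fun S _ => insert i S) ?_ ?_ ?_ ?_ ?_
    · intro S hS; simp
    · intro S hS; simp
    · intro S hS
      simp only [mem_filter, mem_univ, true_and] at hS
      exact insert_erase hS
    · intro S hS
      simp only [mem_filter, mem_univ, true_and] at hS
      exact erase_insert hS
    · intro S hS
      simp only [mem_filter, mem_univ, true_and] at hS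
      rw [insert_erase hS]
  rw [h1, h2, ← sum_add_distrib, sum_filter]
  apply sum_congr rfl
  intro S _
  by_cases h : i ∈ S
  · simp [h]
  · simp [h, add_comm]

theorem bonami_aux (V : Finset (Fin n)) : ∀ (k : ℕ) (a : Finset (Fin n) → ℝ),
    (∀ S, a S ≠ 0 → S ⊆ V ∧ S.card ≤ k) →
    avg (fun x => P a x ^ 4) ≤ 9 ^ k * (∑ S, a S ^ 2) ^ 2 := by
  induction V using Finset.induction_on with
  | empty =>
    intro k a ha
    have h0 : ∀ S, S ≠ ∅ → a S = 0 := by
      intro S hS
      by_contra hne
      exact hS (subset_empty.mp (ha S hne).1)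
    have h1 : P a = fun _ => a ∅ := by
      funext x
      unfold P
      rw [sum_eq_single ∅]
      · rw [chi_empty, mul_one]
      · intro S _ hS; rw [h0 S hS, zero_mul]
      · simp
    have h2 : ∑ S, a S ^ 2 = a ∅ ^ 2 := by
      rw [sum_eq_single ∅]
      · intro S _ hS; rw [h0 S hS]; norm_num
      · simp
    rw [h1, h2, avg_const]
    have h3 : (1 : ℝ) ≤ 9 ^ k := one_le_pow₀ (by norm_num)
    nlinarith [sq_nonneg (a ∅ ^ 2)]
  | insert i V hi ih =>
    intro k a ha
    set r : Finset (Fin n) → ℝ := fun S => if i ∈ S then 0 else a S with hr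
    set u : Finset (Fin n) → ℝ := fun S => if i ∈ S then 0 else a (insert i S) with hu
    have hP : ∀ x, P a x = P r x + sg (x i) * P u x := by
      intro x
      unfold P
      rw [sum_split i, mul_sum, ← sum_add_distrib]
      apply sum_congr rfl
      intro S _
      by_cases h : i ∈ S
      · simp [hr, hu, h]
      · simp only [hr, hu, h, if_false]
        unfold chi
        rw [prod_insert h]
        ring
    have hS : ∑ S, a S ^ 2 = ∑ S, r S ^ 2 + ∑ S, u S ^ 2 := by
      rw [sum_split i, ← sum_add_distrib]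
      apply sum_congr rfl
      intro S _
      by_cases h : i ∈ S
      · simp [hr, hu, h]
      · simp [hr, hu, h]
    have hr' : ∀ S, r S ≠ 0 → S ⊆ V ∧ S.card ≤ k := by
      intro S hne
      by_cases h : i ∈ S
      · simp [hr, h] at hne
      · simp only [hr, h, if_false] at hne
        obtain ⟨h1, h2⟩ := ha S hne
        exact ⟨(subset_insert_iff_of_notMem h).mp h1, h2⟩
    have hPr : ∀ x, P r (flipE i x) = P r x := by
      intro x
      unfold P
      apply sum_congr rfl
      intro S _
      by_cases h : i ∈ S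
      · simp [hr, h]
      · rw [chi_flip_notMem h]
    have hPu : ∀ x, P u (flipE i x) = P u x := by
      intro x
      unfold P
      apply sum_congr rfl
      intro S _
      by_cases h : i ∈ S
      · simp [hu, h]
      · rw [chi_flip_notMem h]
    have h4 : avg (fun x => P a x ^ 4) =
        avg (fun x => P r x ^ 4) + 6 * avg (fun x => P r x ^ 2 * P u x ^ 2) +
          avg (fun x => P u x ^ 4) := by
      have e1 := avg_equiv (flipE i) (fun x => P a x ^ 4)
      have e2 : avg (fun x => P a x ^ 4) =
          avg (fun x => (P a x ^ 4 + P a (flipE i x) ^ 4) / 2) := by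
        have : (fun x => (P a x ^ 4 + P a (flipE i x) ^ 4) / 2) =
            fun x => (P a x ^ 4 + P a (flipE i x) ^ 4) * (1 / 2) := by
          funext x; ring
        rw [this, avg_mul_right, avg_add, e1]
        ring
      rw [e2, ← avg_mul_left, ← avg_add, ← avg_add]
      congr 1
      funext x
      rw [hP x, hP (flipE i x), hPr, hPu, flipE_same, sg_not]
      have h1 := sg_mul_self (x i)
      have h2 : sg (x i) ^ 2 = 1 := by rw [sq, h1]
      have h3 : sg (x i) ^ 4 = 1 := by
        calc sg (x i) ^ 4 = (sg (x i) ^ 2) ^ 2 := by ring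
          _ = 1 := by rw [h2]; norm_num
      ring_nf
      rw [h2, h3]
      ring
    have hrk := ih k r hr'
    rw [h4, hS]
    set A := ∑ S, r S ^ 2 with hA
    set B := ∑ S, u S ^ 2 with hB
    have hA0 : 0 ≤ A := sum_nonneg fun _ _ => sq_nonneg _
    have hB0 : 0 ≤ B := sum_nonneg fun _ _ => sq_nonneg _
    have hcs := avg_cauchy (fun x => P r x ^ 2) (fun x => P u x ^ 2)
    have e4 : ∀ (a : Finset (Fin n) → ℝ), avg (fun x => (P a x ^ 2) ^ 2) =
        avg (fun x => P a x ^ 4) := by
      intro a; congr 1; funext x; ring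
    simp only [e4] at hcs
    have hR0 : 0 ≤ avg (fun x => P r x ^ 4) := avg_nonneg fun x => by positivity
    have hU0 : 0 ≤ avg (fun x => P u x ^ 4) := avg_nonneg fun x => by positivity
    have hM0 : 0 ≤ avg (fun x => P r x ^ 2 * P u x ^ 2) := avg_nonneg fun x => by positivity
    rcases Nat.eq_zero_or_pos k with hk | hk
    · -- `u` vanishes
      have hu0 : ∀ S, u S = 0 := by
        intro S
        by_contra hne
        by_cases h : i ∈ S
        · simp [hu, h] at hne
        · simp only [hu, h, if_false] at hne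
          have := (ha _ hne).2
          rw [card_insert_of_notMem h] at this
          omega
      have hPu0 : ∀ x, P u x = 0 := by
        intro x; unfold P; exact sum_eq_zero fun S _ => by rw [hu0 S, zero_mul]
      have h1 : avg (fun x => P u x ^ 4) = 0 := by
        simp_rw [hPu0]; simp [avg]
      have h2 : avg (fun x => P r x ^ 2 * P u x ^ 2) = 0 := by
        simp_rw [hPu0]; simp [avg]
      rw [h1, h2]
      have h3 : (0 : ℝ) < 9 ^ k := by positivity
      have h5 : A ^ 2 ≤ (A + B) ^ 2 := pow_le_pow_left₀ hA0 (by linarith) 2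
      nlinarith [mul_le_mul_of_nonneg_left h5 h3.le]
    · obtain ⟨j, rfl⟩ : ∃ j, k = j + 1 := ⟨k - 1, by omega⟩
      have hu' : ∀ S, u S ≠ 0 → S ⊆ V ∧ S.card ≤ j := by
        intro S hne
        by_cases h : i ∈ S
        · simp [hu, h] at hne
        · simp only [hu, h, if_false] at hne
          obtain ⟨h1, h2⟩ := ha _ hne
          rw [card_insert_of_notMem h] at h2
          refine ⟨fun y hy => ?_, by omega⟩
          have h3 := h1 (mem_insert_of_mem hy)
          rcases mem_insert.mp h3 with h4 | h4
          · exact absurd (h4 ▸ hy) h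
          · exact h4
      have huk := ih j u hu'
      have h9 : (0 : ℝ) < 9 ^ j := by positivity
      rw [pow_succ] at hrk ⊢
      -- the mixed moment
      have hmix : avg (fun x => P r x ^ 2 * P u x ^ 2) ≤ 3 * 9 ^ j * (A * B) := by
        apply le_of_sq_le_sq _ (by positivity)
        calc avg (fun x => P r x ^ 2 * P u x ^ 2) ^ 2
            ≤ avg (fun x => P r x ^ 4) * avg (fun x => P u x ^ 4) := hcs
          _ ≤ (9 ^ j * 9 * A ^ 2) * (9 ^ j * B ^ 2) := by
              apply mul_le_mul hrk huk hU0 (by positivity)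
          _ = (3 * 9 ^ j * (A * B)) ^ 2 := by ring
      nlinarith [mul_nonneg hA0 hB0, mul_nonneg h9.le (mul_nonneg hA0 hB0),
        mul_nonneg h9.le (sq_nonneg B)]

/-- Bonami's lemma for the fourth moment of a polynomial of degree at most `k`. -/
theorem bonami (k : ℕ) (a : Finset (Fin n) → ℝ) (ha : ∀ S, a S ≠ 0 → S.card ≤ k) :
    avg (fun x => P a x ^ 4) ≤ 9 ^ k * (∑ S, a S ^ 2) ^ 2 :=
  bonami_aux univ k a fun S hS => ⟨subset_univ S, ha S hS⟩

end Pool.Agent.Work.MP_8f25a0_lc
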