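import Mathlib

/-!
# Gaussian weights on a finite-dimensional inner product space

Everything is expressed with Lebesgue measure and the weight `exp(-‖z‖²/2)`.
-/

namespace Pool.Agent.Work.MP_8f25a0_lc

open MeasureTheory

set_option linter.unusedSectionVars false

variable {E : Type*} [NormedAddCommGroup E] [InnerProductSpace ℝ E] [FiniteDimensional ℝ E]
  [MeasurableSpace E] [BorelSpace E]

open scoped RealInnerProductSpace

/-- the Gaussian weight -/
noncomputable def wt (z : E) : ℝ := Real.exp (-(‖z‖ ^ 2 / 2))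

theorem wt_pos (z : E) : 0 < wt z := Real.exp_pos _

theorem integrable_wt : Integrable (fun z : E => wt z) := by
  have h := GaussianFourier.integrable_cexp_neg_mul_sq_norm_add (V := E) (b := (1 / 2 : ℂ)) (by norm_num) 0 0
  have h2 := h.norm
  refine h2.congr (Filter.Eventually.of_forall fun z => ?_)
  simp only [Complex.norm_exp, wt]
  congr 1
  simp
  norm_cast
  ring_nf

/-- the translated Gaussian measure of a set (not normalized) -/
noncomputable def gp (a : E) (R : Set E) : ℝ := ∫ z in R, wt (z - a)

theorem wt_sub (a z : E) : wt (z - a) = Real.exp (⟪a, z⟫ - ‖a‖ ^ 2 / 2) * wt z := by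
  unfold wt
  rw [← Real.exp_add, norm_sub_sq_real, real_inner_comm]
  congr 1
  ring

theorem integrable_wt_sub (a : E) : Integrable (fun z : E => wt (z - a)) :=
  (integrable_wt (E := E)).comp_sub_right a

theorem gp_eq (a : E) (R : Set E) :
    ∫ z in R, Real.exp (⟪a, z⟫ - ‖a‖ ^ 2 / 2) * wt z = gp a R := by
  unfold gp
  simp_rw [wt_sub]

theorem integrable_exp_wt (a : E) (c : ℝ) :
    Integrable (fun z : E => Real.exp (⟪a, z⟫ + c) * wt z) := by
  have h := (integrable_wt_sub a).const_mul (Real.exp (c + ‖a‖ ^ 2 / 2))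
  refine h.congr (Filter.Eventually.of_forall fun z => ?_)
  simp only
  rw [wt_sub, ← mul_assoc, ← Real.exp_add]
  congr 2
  ring

theorem gp_nonneg (a : E) (R : Set E) : 0 ≤ gp a R :=
  integral_nonneg fun _ => (wt_pos _).le

theorem gp_empty (a : E) : gp a (∅ : Set E) = 0 := by unfold gp; simp

theorem gp_union (a : E) {R S : Set E} (hS : MeasurableSet S) (hd : Disjoint R S) :
    gp a (R ∪ S) = gp a R + gp a S :=
  setIntegral_union hd hS (integrable_wt_sub a).integrableOn (integrable_wt_sub a).integrableOn

theorem gp_mono (a : E) {R S : Set E} (h : R ⊆ S) : gp a R ≤ gp a S :=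
  setIntegral_mono_set (integrable_wt_sub a).integrableOn
    (Filter.Eventually.of_forall fun _ => (wt_pos _).le) h.eventuallyLE

theorem gp_split (a : E) {R S : Set E} (hR : MeasurableSet R) (hS : MeasurableSet S) :
    gp a R = gp a (R ∩ S) + gp a (R ∩ Sᶜ) := by
  rw [← gp_union a (hR.inter hS.compl)]
  · rw [← Set.inter_union_distrib_left, Set.union_compl_self, Set.inter_univ]
  · exact Disjoint.mono Set.inter_subset_right Set.inter_subset_right disjoint_compl_right

theorem gp_univ (a : E) : gp a (Set.univ : Set E) = gp (0 : E) Set.univ := by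
  unfold gp
  simp only [setIntegral_univ, sub_zero]
  exact integral_sub_right_eq_self (fun z => wt z) a

/-- the set `R` is invariant under translations orthogonal to `V` -/
def Inv' (V : Submodule ℝ E) (R : Set E) : Prop := ∀ z u, u ∈ Vᗮ → (z + u ∈ R ↔ z ∈ R)

theorem gp_add_perp {V : Submodule ℝ E} {R : Set E} (hR : MeasurableSet R) (h : Inv' V R)
    (a : E) {u : E} (hu : u ∈ Vᗮ) : gp (a + u) R = gp a R := by
  unfold gp
  rw [← integral_indicator hR, ← integral_indicator hR,
    ← integral_add_right_eq_self (fun z => R.indicator (fun z => wt (z - (a + u))) z) u]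
  congr 1
  funext z
  by_cases hz : z ∈ R
  · rw [Set.indicator_of_mem hz, Set.indicator_of_mem ((h z u hu).mpr hz)]
    congr 1
    abel
  · rw [Set.indicator_of_notMem hz, Set.indicator_of_notMem (fun h' => hz ((h z u hu).mp h'))]

theorem gp_proj {V : Submodule ℝ E} {R : Set E} (hR : MeasurableSet R) (h : Inv' V R) (a : E) :
    gp (V.starProjection a) R = gp a R := by
  have h1 := gp_add_perp hR h (V.starProjection a) (Submodule.sub_starProjection_mem_orthogonal
    (K := V) a)
  rw [add_sub_cancel] at h1
  exact h1.symm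

theorem Inv'.mono {V V' : Submodule ℝ E} {R : Set E} (h : Inv' V R) (hV : V ≤ V') :
    Inv' V' R := fun z u hu => h z u (Submodule.orthogonal_le hV hu)

theorem Inv'.inter {V : Submodule ℝ E} {R S : Set E} (h : Inv' V R) (h' : Inv' V S) :
    Inv' V (R ∩ S) := fun z u hu => by
  rw [Set.mem_inter_iff, Set.mem_inter_iff, h z u hu, h' z u hu]

theorem Inv'.compl {V : Submodule ℝ E} {R : Set E} (h : Inv' V R) : Inv' V Rᶜ :=
  fun z u hu => by rw [Set.mem_compl_iff, Set.mem_compl_iff, h z u hu]

theorem inv_halfspace {V : Submodule ℝ E} {r : E} (hr : r ∈ V) : Inv' V {z | ⟪r, z⟫ < 0} := by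
  intro z u hu
  simp only [Set.mem_ofPred_eq]
  rw [inner_add_right, Submodule.inner_right_of_mem_orthogonal hr hu, add_zero]

end Pool.Agent.Work.MP_8f25a0_lc
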