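import Pool.Agent.Work.MP_8f25a0_lc.Basic

/-!
# Product measures and decision trees

An algorithm making `q` queries cannot distinguish two product measures whose factors have
Hellinger affinity close to one.
-/

namespace Pool.Agent.Work.MP_8f25a0_lc

open Finset

variable {n k : ℕ}

/-- the weight of `b` for a coin with bias `p` -/
noncomputable def pb (p : ℝ) (b : Bool) : ℝ := if b then p else 1 - p

/-- a Boolean as a real number -/
noncomputable def bit (b : Bool) : ℝ := if b then 1 else 0

/-- the product measure with biases `p` -/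
noncomputable def W (p : Cube n → ℝ) (a : Cube n → Bool) : ℝ := ∏ x, pb (p x) (a x)

/-- expectation with respect to the product measure -/
noncomputable def Ex (p : Cube n → ℝ) (g : (Cube n → Bool) → ℝ) : ℝ := ∑ a, W p a * g a

theorem pb_nonneg {p : ℝ} (h0 : 0 ≤ p) (h1 : p ≤ 1) (b : Bool) : 0 ≤ pb p b := by
  unfold pb; split_ifs <;> linarith

theorem W_nonneg {p : Cube n → ℝ} (h0 : ∀ x, 0 ≤ p x) (h1 : ∀ x, p x ≤ 1) (a : Cube n → Bool) :
    0 ≤ W p a := prod_nonneg fun x _ => pb_nonneg (h0 x) (h1 x) _

theorem sum_prod_eq {ι : Type*} [Fintype ι] [DecidableEq ι] (φ : ι → Bool → ℝ) :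
    ∑ a : ι → Bool, ∏ x, φ x (a x) = ∏ x, ∑ b, φ x b := by
  rw [Finset.prod_univ_sum, Fintype.piFinset_univ]

theorem pb_true (p : ℝ) : pb p true = p := by simp [pb]
theorem pb_false (p : ℝ) : pb p false = 1 - p := by simp [pb]

theorem sum_W (p : Cube n → ℝ) : ∑ a, W p a = 1 := by
  unfold W
  rw [sum_prod_eq]
  apply prod_eq_one
  intro x _
  rw [Fintype.sum_bool, pb_true, pb_false]
  ring

theorem Ex_const (p : Cube n → ℝ) (c : ℝ) : Ex p (fun _ => c) = c := by
  unfold Ex
  rw [← sum_mul, sum_W, one_mul]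

theorem Ex_mono {p : Cube n → ℝ} (h0 : ∀ x, 0 ≤ p x) (h1 : ∀ x, p x ≤ 1)
    {g g' : (Cube n → Bool) → ℝ} (h : ∀ a, W p a ≠ 0 → g a ≤ g' a) : Ex p g ≤ Ex p g' := by
  unfold Ex
  apply sum_le_sum
  intro a _
  by_cases ha : W p a = 0
  · rw [ha, zero_mul, zero_mul]
  · exact mul_le_mul_of_nonneg_left (h a ha) (W_nonneg h0 h1 a)

theorem W_update (p : Cube n → ℝ) (x : Cube n) (b : Bool) (a : Cube n → Bool) :
    W (Function.update p x (bit b)) a =
      (if a x = b then 1 else 0) * ∏ y ∈ univ.erase x, pb (p y) (a y) := by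
  unfold W
  rw [← mul_prod_erase univ _ (mem_univ x)]
  congr 1
  · rw [Function.update_self]
    unfold bit pb
    cases b <;> cases a x <;> simp
  · apply prod_congr rfl
    intro y hy
    rw [Function.update_of_ne (ne_of_mem_erase hy)]

/-- conditioning on the value at `x` -/
theorem Ex_cond (p : Cube n → ℝ) (g : (Cube n → Bool) → ℝ) (x : Cube n) :
    Ex p g = ∑ b, pb (p x) b * Ex (Function.update p x (bit b)) g := by
  unfold Ex
  simp_rw [mul_sum]
  rw [sum_comm]
  apply sum_congr rfl
  intro a _
  simp_rw [W_update]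
  have h : W p a = pb (p x) (a x) * ∏ y ∈ univ.erase x, pb (p y) (a y) := by
    unfold W
    rw [← mul_prod_erase univ _ (mem_univ x)]
  rw [h, Fintype.sum_bool]
  cases a x <;> simp <;> ring

theorem Ex_update_congr (p : Cube n → ℝ) {g g' : (Cube n → Bool) → ℝ} {x : Cube n} {b : Bool}
    (h : ∀ a, a x = b → g a = g' a) :
    Ex (Function.update p x (bit b)) g = Ex (Function.update p x (bit b)) g' := by
  unfold Ex
  apply sum_congr rfl
  intro a _
  rw [W_update]
  by_cases hab : a x = b
  · rw [h a hab]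
  · simp [hab]

/-- reverse Minkowski inequality for the Lorentz form -/
theorem lorentz {x1 y1 x2 y2 : ℝ} (h1 : 0 ≤ y1) (h1' : y1 ≤ x1) (h2 : 0 ≤ y2) (h2' : y2 ≤ x2) :
    √(x1 ^ 2 - y1 ^ 2) + √(x2 ^ 2 - y2 ^ 2) ≤ √((x1 + x2) ^ 2 - (y1 + y2) ^ 2) := by
  have e1 : 0 ≤ x1 ^ 2 - y1 ^ 2 := by nlinarith
  have e2 : 0 ≤ x2 ^ 2 - y2 ^ 2 := by nlinarith
  have e3 : √(x1 ^ 2 - y1 ^ 2) * √(x2 ^ 2 - y2 ^ 2) ≤ x1 * x2 - y1 * y2 := by
    rw [← Real.sqrt_mul e1]
    apply Real.sqrt_le_iff.mpr
    constructor
    · nlinarith [mul_le_mul h1' h2' h2 (h1.trans h1')]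
    · nlinarith [sq_nonneg (x1 * y2 - y1 * x2)]
  apply Real.le_sqrt_of_sq_le
  nlinarith [Real.sq_sqrt e1, Real.sq_sqrt e2]

theorem tree_hellinger {c : ℝ} (hc0 : 0 ≤ c) (hc1 : c ≤ 1) (B : Set ℝ) (T : Tree n) :
    ∀ (p p' : Cube n → ℝ), (∀ x, 0 ≤ p x) → (∀ x, p x ≤ 1) → (∀ x, 0 ≤ p' x) → (∀ x, p' x ≤ 1) →
      (∀ x, c ≤ √(p x * p' x) + √((1 - p x) * (1 - p' x))) →
      ∀ α β : ℝ, 0 ≤ α → 0 ≤ β →
      α * Ex p (fun a => B.indicator 1 (T.eval a)) - β * Ex p' (fun a => B.indicator 1 (T.eval a)) ≤
        (α - β + √((α + β) ^ 2 - 4 * α * β * c ^ (2 * T.depth))) / 2 := by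
  induction T with
  | out r =>
    intro p p' _ _ _ _ _ α β hα hβ
    simp only [Tree.eval, Tree.depth, Ex_const, mul_zero, pow_zero, mul_one]
    have h : √((α + β) ^ 2 - 4 * α * β) = |α - β| := by
      rw [← Real.sqrt_sq_eq_abs]; congr 1; ring
    rw [h]
    have h1 := neg_abs_le (α - β)
    have h2 := le_abs_self (α - β)
    by_cases hr : r ∈ B
    · rw [Set.indicator_of_mem hr]; simp only [Pi.one_apply, mul_one]; linarith
    · rw [Set.indicator_of_notMem hr]; linarith
  | ask x t ih =>
    intro p p' h0 h1 h0' h1' hc α β hα hβ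
    set D := max (t false).depth (t true).depth with hD
    set g : (Cube n → Bool) → ℝ := fun a => B.indicator 1 ((Tree.ask x t).eval a) with hg
    have hstep : ∀ b : Bool, ∀ p : Cube n → ℝ, Ex (Function.update p x (bit b)) g =
        Ex (Function.update p x (bit b)) (fun a => B.indicator 1 ((t b).eval a)) := by
      intro b p
      apply Ex_update_congr
      intro a ha
      simp only [hg, Tree.eval, ha]
    have hbit : ∀ b, 0 ≤ bit b ∧ bit b ≤ 1 := by intro b; cases b <;> simp [bit]
    have key : ∀ b : Bool, (α * pb (p x) b) * Ex (Function.update p x (bit b)) g -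
        (β * pb (p' x) b) * Ex (Function.update p' x (bit b)) g ≤
        (α * pb (p x) b - β * pb (p' x) b + √((α * pb (p x) b + β * pb (p' x) b) ^ 2 -
          (2 * √(α * β) * √(pb (p x) b * pb (p' x) b) * c ^ D) ^ 2)) / 2 := by
      intro b
      have hα' : 0 ≤ α * pb (p x) b := mul_nonneg hα (pb_nonneg (h0 x) (h1 x) b)
      have hβ' : 0 ≤ β * pb (p' x) b := mul_nonneg hβ (pb_nonneg (h0' x) (h1' x) b)
      have h := ih b (Function.update p x (bit b)) (Function.update p' x (bit b))
        (by intro y; by_cases hy : y = x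
            · subst hy; rw [Function.update_self]; exact (hbit b).1
            · rw [Function.update_of_ne hy]; exact h0 y)
        (by intro y; by_cases hy : y = x
            · subst hy; rw [Function.update_self]; exact (hbit b).2
            · rw [Function.update_of_ne hy]; exact h1 y)
        (by intro y; by_cases hy : y = x
            · subst hy; rw [Function.update_self]; exact (hbit b).1
            · rw [Function.update_of_ne hy]; exact h0' y)
        (by intro y; by_cases hy : y = x
            · subst hy; rw [Function.update_self]; exact (hbit b).2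
            · rw [Function.update_of_ne hy]; exact h1' y)
        (by intro y; by_cases hy : y = x
            · subst hy; rw [Function.update_self, Function.update_self]
              cases b <;> simp [bit, hc1]
            · rw [Function.update_of_ne hy, Function.update_of_ne hy]; exact hc y)
        _ _ hα' hβ'
      rw [hstep b p, hstep b p']
      refine h.trans ?_
      have hdD : (t b).depth ≤ D := by
        cases b
        · exact le_max_left _ _
        · exact le_max_right _ _
      have hpow : c ^ (2 * D) ≤ c ^ (2 * (t b).depth) :=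
        pow_le_pow_of_le_one hc0 hc1 (by omega)
      have hy : (2 * √(α * β) * √(pb (p x) b * pb (p' x) b) * c ^ D) ^ 2 =
          4 * (α * pb (p x) b) * (β * pb (p' x) b) * c ^ (2 * D) := by
        rw [mul_pow, mul_pow, mul_pow, Real.sq_sqrt (mul_nonneg hα hβ), Real.sq_sqrt
          (mul_nonneg (pb_nonneg (h0 x) (h1 x) b) (pb_nonneg (h0' x) (h1' x) b)), ← pow_mul]
        ring
      have hs : √((α * pb (p x) b + β * pb (p' x) b) ^ 2 -
            4 * (α * pb (p x) b) * (β * pb (p' x) b) * c ^ (2 * (t b).depth)) ≤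
          √((α * pb (p x) b + β * pb (p' x) b) ^ 2 -
          (2 * √(α * β) * √(pb (p x) b * pb (p' x) b) * c ^ D) ^ 2) := by
        apply Real.sqrt_le_sqrt
        rw [hy]
        have := mul_nonneg hα' hβ'
        nlinarith
      linarith
    have e1 := Ex_cond p g x
    have e2 := Ex_cond p' g x
    rw [Fintype.sum_bool] at e1 e2
    have k1 := key true
    have k2 := key false
    have hpbn : ∀ b, 0 ≤ pb (p x) b := pb_nonneg (h0 x) (h1 x)
    have hpbn' : ∀ b, 0 ≤ pb (p' x) b := pb_nonneg (h0' x) (h1' x)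
    have hyx : ∀ b, 0 ≤ 2 * √(α * β) * √(pb (p x) b * pb (p' x) b) * c ^ D ∧
        2 * √(α * β) * √(pb (p x) b * pb (p' x) b) * c ^ D ≤
          α * pb (p x) b + β * pb (p' x) b := by
      intro b
      constructor
      · positivity
      · have h2 : √(α * β) * √(pb (p x) b * pb (p' x) b) =
            √((α * pb (p x) b) * (β * pb (p' x) b)) := by
          rw [← Real.sqrt_mul (mul_nonneg hα hβ)]; congr 1; ring
        have hα' : 0 ≤ α * pb (p x) b := mul_nonneg hα (hpbn b)
        have hβ' : 0 ≤ β * pb (p' x) b := mul_nonneg hβ (hpbn' b)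
        have h3 : 2 * √((α * pb (p x) b) * (β * pb (p' x) b)) ≤
            α * pb (p x) b + β * pb (p' x) b := by
          rw [Real.sqrt_mul hα']
          nlinarith [sq_nonneg (√(α * pb (p x) b) - √(β * pb (p' x) b)), Real.sq_sqrt hα',
            Real.sq_sqrt hβ']
        calc 2 * √(α * β) * √(pb (p x) b * pb (p' x) b) * c ^ D
            = (2 * √((α * pb (p x) b) * (β * pb (p' x) b))) * c ^ D := by rw [← h2]; ring
          _ ≤ (2 * √((α * pb (p x) b) * (β * pb (p' x) b))) * 1 := by
              apply mul_le_mul_of_nonneg_left (pow_le_one₀ hc0 hc1) (by positivity)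
          _ ≤ _ := by rw [mul_one]; exact h3
    have hL := lorentz (hyx true).1 (hyx true).2 (hyx false).1 (hyx false).2
    have hfin : √((α * pb (p x) true + β * pb (p' x) true +
          (α * pb (p x) false + β * pb (p' x) false)) ^ 2 -
        (2 * √(α * β) * √(pb (p x) true * pb (p' x) true) * c ^ D +
          2 * √(α * β) * √(pb (p x) false * pb (p' x) false) * c ^ D) ^ 2) ≤
        √((α + β) ^ 2 - 4 * α * β * c ^ (2 * (Tree.ask x t).depth)) := by
      apply Real.sqrt_le_sqrt
      simp only [pb_true, pb_false, Tree.depth, ← hD]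
      have hcx := hc x
      have e3 : α * p x + β * p' x + (α * (1 - p x) + β * (1 - p' x)) = α + β := by ring
      rw [e3]
      have e4 : 2 * √(α * β) * c ^ (1 + D) ≤
          2 * √(α * β) * √(p x * p' x) * c ^ D +
          2 * √(α * β) * √((1 - p x) * (1 - p' x)) * c ^ D := by
        calc 2 * √(α * β) * c ^ (1 + D) = (2 * √(α * β) * c ^ D) * c := by ring
          _ ≤ (2 * √(α * β) * c ^ D) * (√(p x * p' x) + √((1 - p x) * (1 - p' x))) :=
              mul_le_mul_of_nonneg_left hcx (by positivity)
          _ = _ := by ring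
      have e5 : (2 * √(α * β) * c ^ (1 + D)) ^ 2 = 4 * α * β * c ^ (2 * (1 + D)) := by
        rw [mul_pow, mul_pow, Real.sq_sqrt (mul_nonneg hα hβ), ← pow_mul]
        ring
      have e6 : (2 * √(α * β) * c ^ (1 + D)) ^ 2 ≤ (2 * √(α * β) * √(p x * p' x) * c ^ D +
          2 * √(α * β) * √((1 - p x) * (1 - p' x)) * c ^ D) ^ 2 :=
        pow_le_pow_left₀ (by positivity) e4 2
      linarith
    have e7 : α * pb (p x) true - β * pb (p' x) true + (α * pb (p x) false - β * pb (p' x) false) =
        α - β := by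
      rw [pb_true, pb_true, pb_false, pb_false]; ring
    have e8 : α * Ex p g - β * Ex p' g =
        (α * pb (p x) true * Ex (Function.update p x (bit true)) g -
          β * pb (p' x) true * Ex (Function.update p' x (bit true)) g) +
        (α * pb (p x) false * Ex (Function.update p x (bit false)) g -
          β * pb (p' x) false * Ex (Function.update p' x (bit false)) g) := by
      rw [e1, e2]; ring
    show α * Ex p g - β * Ex p' g ≤ _
    rw [e8]
    linarith

end Pool.Agent.Work.MP_8f25a0_lc
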