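import Pool.Agent.Work.MP_8f25a0_lc.AdaptTree
import Pool.Agent.Work.MP_8f25a0_lc.Fourier
import Pool.Agent.Work.MP_8f25a0_lc.Product

/-!
# The Gaussian model of random functions
-/

namespace Pool.Agent.Work.MP_8f25a0_lc

open MeasureTheory Finset

set_option linter.unusedSectionVars false

open scoped RealInnerProductSpace

variable {n K : ℕ}

/-- noise space -/
abbrev UU (n : ℕ) := EuclideanSpace ℝ (Cube n)

/-- signal space -/
abbrev VV (K : ℕ) := EuclideanSpace ℝ (Fin K)

/-- the whole space -/
abbrev EE (n K : ℕ) := WithLp 2 (UU n × VV K)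

variable (ι : Fin K → Fin n) (c : ℝ)

/-- the signal at the point `x` -/
noncomputable def lin (x : Cube n) (g : VV K) : ℝ := c * ∑ B, sg (x (ι B)) * g B

/-- the query vector of the point `x` -/
noncomputable def rr (x : Cube n) : EE n K :=
  WithLp.toLp 2 (EuclideanSpace.single x 1, c • WithLp.toLp 2 (fun B => sg (x (ι B))))

/-- the direction of the `B`-th coefficient -/
noncomputable def ee (n : ℕ) {K : ℕ} (B : Fin K) : EE n K :=
  WithLp.toLp 2 (0, EuclideanSpace.single B 1)

theorem inner_rr (x : Cube n) (z : EE n K) : ⟪rr ι c x, z⟫ = z.fst x + lin ι c x z.snd := by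
  rw [WithLp.prod_inner_apply]
  simp only [rr]
  rw [EuclideanSpace.inner_single_left]
  simp only [map_one, one_mul]
  congr 1
  rw [real_inner_smul_left]
  unfold lin
  congr 1
  rw [PiLp.inner_apply]
  apply sum_congr rfl
  intro B _
  simp [mul_comm]

theorem orthonormal_ee : Orthonormal ℝ (ee n : Fin K → EE n K) := by
  rw [orthonormal_iff_ite]
  intro B B'
  rw [WithLp.prod_inner_apply]
  simp only [ee, inner_zero_left, zero_add]
  rw [EuclideanSpace.inner_single_left]
  simp

/-- the projection of a signal direction to the span of few queries is short -/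
theorem GV_le (Q : Finset (Cube n)) (B : Fin K) :
    GV (ee n) (sp (rr ι c) Q) B B ≤ Q.card * c ^ 2 := by
  set V := sp (rr ι c) Q with hV
  set v : EE n K := WithLp.toLp 2
    (c • ∑ x ∈ Q, sg (x (ι B)) • (EuclideanSpace.single x (1 : ℝ) : UU n), 0) with hv
  have hv1 : v.fst = c • ∑ x ∈ Q, sg (x (ι B)) • (EuclideanSpace.single x (1 : ℝ) : UU n) := rfl
  have hv2 : v.snd = 0 := rfl
  have hw : ee n B - v ∈ Vᗮ := by
    rw [hV]
    unfold sp
    rw [Submodule.mem_orthogonal]
    intro u hu
    induction hu using Submodule.span_induction with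
    | mem u hu =>
      obtain ⟨y, hy, rfl⟩ := hu
      have hyQ : y ∈ Q := hy
      rw [inner_sub_right, inner_rr, inner_rr]
      have e1 : (ee n B : EE n K).fst y = 0 := by simp [ee]
      have e2 : lin ι c y (ee n B : EE n K).snd = c * sg (y (ι B)) := by
        unfold lin ee
        simp
      have e3 : v.fst y = c * sg (y (ι B)) := by
        rw [hv1, PiLp.smul_apply, smul_eq_mul]
        congr 1
        rw [WithLp.ofLp_sum, Finset.sum_apply, sum_eq_single y]
        · simp
        · intro x _ hne
          simp [hne.symm]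
        · intro h; exact absurd hyQ h
      have e4 : lin ι c y v.snd = 0 := by
        unfold lin
        rw [hv2]
        simp
      rw [e1, e2, e3, e4]
      ring
    | zero => simp
    | add u w _ _ h1 h2 => rw [inner_add_left, h1, h2, add_zero]
    | smul a u _ h => rw [real_inner_smul_left, h, mul_zero]
  have h1 : V.starProjection (ee n B) = V.starProjection v := by
    have h2 : V.starProjection (ee n B - v) = 0 := by
      rw [Submodule.starProjection_apply_eq_zero_iff]; exact hw
    rw [map_sub, sub_eq_zero] at h2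
    exact h2
  unfold GV
  rw [h1, real_inner_self_eq_norm_sq]
  have h3 : ‖V.starProjection v‖ ≤ ‖v‖ := Submodule.norm_starProjection_apply_le _ _
  have h4 : ‖v‖ ^ 2 = Q.card * c ^ 2 := by
    rw [WithLp.prod_norm_sq_eq_of_L2]
    rw [hv1, hv2, norm_zero, norm_smul, mul_pow, Real.norm_eq_abs, sq_abs]
    have h5 : ‖∑ x ∈ Q, sg (x (ι B)) • (EuclideanSpace.single x (1 : ℝ) : UU n)‖ ^ 2 = Q.card := by
      rw [EuclideanSpace.real_norm_sq_eq]
      have h6 : ∀ y : Cube n, ((∑ x ∈ Q, sg (x (ι B)) • (EuclideanSpace.single x (1 : ℝ) : UU n)).ofLp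
          y) ^ 2 = if y ∈ Q then 1 else 0 := by
        intro y
        rw [WithLp.ofLp_sum, Finset.sum_apply]
        split_ifs with hy
        · rw [sum_eq_single y]
          · simp
            cases y (ι B) <;> simp [sg]
          · intro x _ hne
            simp [hne.symm]
          · intro h; exact absurd hy h
        · rw [sum_eq_zero]
          · norm_num
          · intro x hx
            have : x ≠ y := by rintro rfl; exact hy hx
            simp [this.symm]
      simp_rw [h6]
      rw [sum_ite_mem, univ_inter, sum_const, nsmul_eq_mul, mul_one]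
    rw [h5]
    ring
  calc ‖V.starProjection v‖ ^ 2 ≤ ‖v‖ ^ 2 := pow_le_pow_left₀ (norm_nonneg _) h3 2
    _ = _ := h4

/-- the normal distribution function: the probability that `s + u < 0` -/
noncomputable def Ph (u : ℝ) : ℝ :=
  (∫ s in Set.Iio (-u), Real.exp (-(s ^ 2 / 2))) / √(2 * Real.pi)

theorem integrable_gauss1 : Integrable (fun s : ℝ => Real.exp (-(s ^ 2 / 2))) := by
  have h := integrable_exp_neg_mul_sq (b := 1 / 2) (by norm_num)
  refine h.congr (Filter.Eventually.of_forall fun s => ?_)
  simp only
  congr 1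
  ring

theorem integral_gauss1 : ∫ s : ℝ, Real.exp (-(s ^ 2 / 2)) = √(2 * Real.pi) := by
  have h := integral_gaussian (1 / 2)
  have h2 : Real.pi / (1 / 2) = 2 * Real.pi := by ring
  rw [h2] at h
  rw [← h]
  congr 1
  funext s
  congr 1
  ring

theorem sqrt_two_pi_pos : 0 < √(2 * Real.pi) := by positivity

theorem Ph_nonneg (u : ℝ) : 0 ≤ Ph u :=
  div_nonneg (integral_nonneg fun _ => (Real.exp_pos _).le) sqrt_two_pi_pos.le

theorem Ph_le_one (u : ℝ) : Ph u ≤ 1 := by
  unfold Ph
  rw [div_le_one sqrt_two_pi_pos, ← integral_gauss1]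
  exact setIntegral_le_integral integrable_gauss1
    (Filter.Eventually.of_forall fun _ => (Real.exp_pos _).le)

/-- the biases of the random function, given the signal -/
noncomputable def pp (g : VV K) (x : Cube n) : ℝ := Ph (lin ι c x g)

theorem factor (u : ℝ) (b : Bool) :
    ∫ s : ℝ, (if decide (s + u < 0) = b then (1 : ℝ) else 0) * Real.exp (-(s ^ 2 / 2)) =
      √(2 * Real.pi) * pb (Ph u) b := by
  have hset : {s : ℝ | s + u < 0} = Set.Iio (-u) := by
    ext s; simp only [Set.mem_ofPred_eq, Set.mem_Iio]; constructor <;> intro h <;> linarith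
  have h1 : ∫ s in Set.Iio (-u), Real.exp (-(s ^ 2 / 2)) = √(2 * Real.pi) * Ph u := by
    unfold Ph
    field_simp
  cases b
  · have h2 : ∀ s : ℝ, (if decide (s + u < 0) = false then (1 : ℝ) else 0) *
        Real.exp (-(s ^ 2 / 2)) =
        Real.exp (-(s ^ 2 / 2)) - (Set.Iio (-u)).indicator (fun s => Real.exp (-(s ^ 2 / 2))) s := by
      intro s
      by_cases h : s + u < 0
      · have : s ∈ Set.Iio (-u) := by rw [Set.mem_Iio]; linarith
        rw [Set.indicator_of_mem this]
        simp [h]
      · have : s ∉ Set.Iio (-u) := by rw [Set.mem_Iio]; linarith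
        rw [Set.indicator_of_notMem this]
        simp [h]
    simp_rw [h2]
    rw [integral_sub integrable_gauss1 (integrable_gauss1.indicator measurableSet_Iio),
      integral_indicator measurableSet_Iio, h1, integral_gauss1, pb_false]
    ring
  · have h2 : ∀ s : ℝ, (if decide (s + u < 0) = true then (1 : ℝ) else 0) *
        Real.exp (-(s ^ 2 / 2)) =
        (Set.Iio (-u)).indicator (fun s => Real.exp (-(s ^ 2 / 2))) s := by
      intro s
      by_cases h : s + u < 0
      · have : s ∈ Set.Iio (-u) := by rw [Set.mem_Iio]; linarith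
        rw [Set.indicator_of_mem this]
        simp [h]
      · have : s ∉ Set.Iio (-u) := by rw [Set.mem_Iio]; linarith
        rw [Set.indicator_of_notMem this]
        simp [h]
    simp_rw [h2]
    rw [integral_indicator measurableSet_Iio, h1, pb_true]

/-- the function given by the noise `u` and the biases `w` -/
noncomputable def fuw (u w : Cube n → ℝ) (x : Cube n) : Bool := by
  classical
  exact decide (u x + w x < 0)

theorem wt_euclid (u : UU n) : wt u = ∏ x, Real.exp (-((u x) ^ 2 / 2)) := by
  unfold wt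
  rw [← Real.exp_sum, EuclideanSpace.real_norm_sq_eq]
  congr 1
  rw [sum_neg_distrib, sum_div]

theorem noise_atom (w : Cube n → ℝ) (a : Cube n → Bool) :
    ∫ u : UU n, (if fuw u w = a then (1 : ℝ) else 0) * wt u =
      √(2 * Real.pi) ^ (Fintype.card (Cube n)) * W (fun x => Ph (w x)) a := by
  rw [← (PiLp.volume_preserving_toLp (Cube n)).integral_comp
    (MeasurableEquiv.toLp 2 _).measurableEmbedding]
  have h1 : ∀ u : Cube n → ℝ, (if fuw (WithLp.toLp 2 u : UU n) w = a then (1 : ℝ) else 0) *
      wt (WithLp.toLp 2 u : UU n) =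
      ∏ x, (if decide (u x + w x < 0) = a x then (1 : ℝ) else 0) *
        Real.exp (-((u x) ^ 2 / 2)) := by
    intro u
    rw [wt_euclid, prod_mul_distrib]
    congr 1
    by_cases h : fuw (WithLp.toLp 2 u : UU n) w = a
    · rw [if_pos h, prod_eq_one]
      intro x _
      rw [if_pos]
      rw [← h]
      unfold fuw
      simp
    · rw [if_neg h]
      obtain ⟨x, hx⟩ := Function.ne_iff.mp h
      rw [prod_eq_zero (mem_univ x)]
      rw [if_neg]
      intro h2
      apply hx
      rw [← h2]
      unfold fuw
      simp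
  simp_rw [h1]
  rw [integral_fintype_prod_volume_eq_prod (fun x (s : ℝ) =>
    (if decide (s + w x < 0) = a x then (1 : ℝ) else 0) * Real.exp (-(s ^ 2 / 2)))]
  simp_rw [factor]
  rw [prod_mul_distrib, prod_const, card_univ]
  rfl

theorem measurable_fuw {α : Type*} [MeasurableSpace α] {u w : α → Cube n → ℝ}
    (hu : ∀ x, Measurable fun t => u t x) (hw : ∀ x, Measurable fun t => w t x) :
    Measurable fun t => fuw (u t) (w t) := by
  rw [measurable_pi_iff]
  intro x
  apply measurable_to_bool
  have : (fun t => fuw (u t) (w t) x) ⁻¹' {true} = {t | u t x + w t x < 0} := by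
    ext t; simp [fuw]
  rw [this]
  exact measurableSet_lt ((hu x).add (hw x)) measurable_const

theorem measurableSet_fun (𝒜 : Set (Cube n → Bool)) : MeasurableSet 𝒜 :=
  (Set.toFinite 𝒜).measurableSet

theorem noise_set (w : Cube n → ℝ) (𝒜 : Set (Cube n → Bool)) :
    ∫ u : UU n, (𝒜.indicator 1 (fuw u w) : ℝ) * wt u =
      √(2 * Real.pi) ^ (Fintype.card (Cube n)) * Ex (fun x => Ph (w x)) (𝒜.indicator 1) := by
  classical
  have h1 : ∀ u : UU n, (𝒜.indicator 1 (fuw u w) : ℝ) * wt u =
      ∑ a, (𝒜.indicator 1 a : ℝ) * ((if fuw u w = a then (1 : ℝ) else 0) * wt u) := by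
    intro u
    rw [sum_eq_single (fuw u w)]
    · simp
    · intro a _ hne; rw [if_neg hne.symm]; simp
    · simp
  simp_rw [h1]
  rw [integral_finsetSum]
  · simp_rw [integral_const_mul, noise_atom]
    unfold Ex
    rw [mul_sum]
    apply sum_congr rfl
    intro a _
    ring
  · intro a _
    apply Integrable.const_mul
    have hm : MeasurableSet {u : UU n | fuw u w = a} :=
      measurable_fuw (u := fun u : UU n => u) (w := fun _ => w) (fun x => by fun_prop)
        (fun x => measurable_const) (measurableSet_singleton a)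
    refine (integrable_wt.indicator hm).congr (Filter.Eventually.of_forall fun u => ?_)
    by_cases h : fuw u w = a
    · simp [h]
    · simp [h]

theorem fz_rr (z : EE n K) : fz (rr ι c) z = fuw z.fst (fun x => lin ι c x z.snd) := by
  funext x
  unfold fz fuw
  rw [inner_rr]

theorem measurable_lin (x : Cube n) : Measurable fun g : VV K => lin ι c x g := by
  unfold lin
  apply Measurable.const_mul
  apply Finset.measurable_sum
  intro B _
  exact Measurable.const_mul (by fun_prop) _

/-- the normalizing constant of the noise -/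
noncomputable def Cn (n : ℕ) : ℝ := √(2 * Real.pi) ^ (Fintype.card (Cube n))

theorem Cn_pos (n : ℕ) : 0 < Cn n := pow_pos sqrt_two_pi_pos _

theorem gp_fubini (a : VV K) (𝒜 : Set (Cube n → Bool)) :
    gp (WithLp.toLp 2 ((0 : UU n), a)) {z : EE n K | fz (rr ι c) z ∈ 𝒜} =
      Cn n * ∫ g : VV K, Ex (pp ι c g) (𝒜.indicator 1) * wt (g - a) := by
  have hm : MeasurableSet {z : EE n K | fz (rr ι c) z ∈ 𝒜} := by
    simp_rw [fz_rr]
    exact measurable_fuw (u := fun z : EE n K => z.fst)
      (w := fun z : EE n K => fun x => lin ι c x z.snd) (fun x => by fun_prop)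
      (fun x => (measurable_lin ι c x).comp (by fun_prop)) (measurableSet_fun 𝒜)
  unfold gp
  rw [← integral_indicator hm]
  rw [← (WithLp.volume_preserving_toLp (UU n) (VV K)).integral_comp
    (MeasurableEquiv.toLp 2 _).measurableEmbedding]
  have hF : ∀ q : UU n × VV K,
      ({z : EE n K | fz (rr ι c) z ∈ 𝒜}.indicator
        (fun z => wt (z - WithLp.toLp 2 ((0 : UU n), a))) (WithLp.toLp 2 q)) =
      (𝒜.indicator 1 (fuw q.1 (fun x => lin ι c x q.2)) : ℝ) * wt q.1 * wt (q.2 - a) := by
    intro q
    have h1 : wt ((WithLp.toLp 2 q : EE n K) - WithLp.toLp 2 ((0 : UU n), a)) =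
        wt q.1 * wt (q.2 - a) := by
      unfold wt
      rw [← Real.exp_add, WithLp.prod_norm_sq_eq_of_L2]
      congr 1
      have e1 : ((WithLp.toLp 2 q : EE n K) - WithLp.toLp 2 ((0 : UU n), a)).fst = q.1 := by
        simp
      have e2 : ((WithLp.toLp 2 q : EE n K) - WithLp.toLp 2 ((0 : UU n), a)).snd = q.2 - a := by
        simp
      rw [e1, e2]
      ring
    by_cases h : fuw q.1 (fun x => lin ι c x q.2) ∈ 𝒜
    · have h2 : (WithLp.toLp 2 q : EE n K) ∈ {z : EE n K | fz (rr ι c) z ∈ 𝒜} := by
        rw [Set.mem_ofPred_eq, fz_rr]; exact h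
      rw [Set.indicator_of_mem h2, Set.indicator_of_mem h, h1]
      simp
    · have h2 : (WithLp.toLp 2 q : EE n K) ∉ {z : EE n K | fz (rr ι c) z ∈ 𝒜} := by
        rw [Set.mem_ofPred_eq, fz_rr]; exact h
      rw [Set.indicator_of_notMem h2, Set.indicator_of_notMem h]
      simp
  simp_rw [hF]
  have hint : Integrable (fun q : UU n × VV K =>
      (𝒜.indicator 1 (fuw q.1 (fun x => lin ι c x q.2)) : ℝ) * wt q.1 * wt (q.2 - a))
      (volume.prod volume) := by
    have h1 : Integrable (fun q : UU n × VV K => wt q.1 * wt (q.2 - a)) (volume.prod volume) :=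
      integrable_wt.mul_prod (integrable_wt_sub a)
    have hm2 : MeasurableSet {q : UU n × VV K | fuw q.1 (fun x => lin ι c x q.2) ∈ 𝒜} :=
      measurable_fuw (u := fun q : UU n × VV K => q.1)
        (w := fun q : UU n × VV K => fun x => lin ι c x q.2) (fun x => by fun_prop)
        (fun x => (measurable_lin ι c x).comp measurable_snd) (measurableSet_fun 𝒜)
    refine (h1.indicator hm2).congr (Filter.Eventually.of_forall fun q => ?_)
    by_cases h : fuw q.1 (fun x => lin ι c x q.2) ∈ 𝒜
    · simp [h]
    · simp [h]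
  rw [Measure.volume_eq_prod, integral_prod_symm _ hint, ← integral_const_mul]
  congr 1
  funext g
  show ∫ u : UU n, (𝒜.indicator 1 (fuw u (fun x => lin ι c x g)) : ℝ) * wt u * wt (g - a) = _
  rw [integral_mul_const, noise_set]
  unfold Cn pp
  ring

end Pool.Agent.Work.MP_8f25a0_lc
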