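import Pool.Agent.Work.MP_8f25a0_lc.Fourier

/-!
# Random identification of variables: the parity pattern of a set
-/

namespace Pool.Agent.Work.MP_8f25a0_lc

open Finset

variable {n m : ℕ}

/-- the set of buckets that contain an odd number of elements of `S` -/
def par (π : Fin n → Fin m) (S : Finset (Fin n)) : Finset (Fin m) :=
  univ.filter fun b => Odd (S.filter fun i => π i = b).card

/-- the identification of variables `x_i = z_i + s_{π(i)}` -/
def app (π : Fin n → Fin m) (z : Fin n → Bool) (s : Fin m → Bool) : Fin n → Bool :=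
  fun i => xor (s (π i)) (z i)

theorem par_empty (π : Fin n → Fin m) : par π ∅ = ∅ := by
  unfold par; simp

theorem par_insert (π : Fin n → Fin m) {i : Fin n} {S : Finset (Fin n)} (h : i ∉ S) :
    par π (insert i S) = symmDiff (par π S) {π i} := by
  ext b
  rw [mem_symmDiff, mem_singleton]
  unfold par
  simp only [mem_filter, mem_univ, true_and]
  by_cases hb : b = π i
  · subst hb
    have h1 : (insert i S).filter (fun j => π j = π i) =
        insert i (S.filter fun j => π j = π i) := by
      rw [filter_insert, if_pos rfl]
    rw [h1, card_insert_of_notMem (by simp [h]), Nat.odd_add_one]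
    simp
  · have h1 : (insert i S).filter (fun j => π j = b) = S.filter fun j => π j = b := by
      rw [filter_insert, if_neg (fun h => hb h.symm)]
    rw [h1]
    simp [hb]

theorem chi_par (π : Fin n → Fin m) (S : Finset (Fin n)) (s : Fin m → Bool) :
    chi (par π S) s = ∏ i ∈ S, sg (s (π i)) := by
  induction S using Finset.induction_on with
  | empty => rw [par_empty, chi_empty]; simp
  | insert i S hi ih =>
    rw [par_insert π hi, chi_symmDiff, ih, prod_insert hi]
    simp [chi, mul_comm]

theorem chi_app (π : Fin n → Fin m) (z : Fin n → Bool) (s : Fin m → Bool)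
    (S : Finset (Fin n)) : chi S (app π z s) = chi S z * chi (par π S) s := by
  rw [chi_par]
  unfold chi app
  rw [← prod_mul_distrib]
  apply prod_congr rfl
  intro i _
  rw [sg_xor, mul_comm]

/-- `par` depends only on the values on the set -/
theorem par_congr {π π' : Fin n → Fin m} {S : Finset (Fin n)} (h : ∀ i ∈ S, π i = π' i) :
    par π S = par π' S := by
  unfold par
  congr 1
  funext b
  have : S.filter (fun i => π i = b) = S.filter (fun i => π' i = b) :=
    filter_congr fun i hi => by rw [h i hi]
  rw [this]

theorem par_update_notMem {π : Fin n → Fin m} {S : Finset (Fin n)} {i : Fin n} (h : i ∉ S)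
    (b : Fin m) : par (Function.update π i b) S = par π S := by
  apply par_congr
  intro j hj
  rw [Function.update_of_ne]
  rintro rfl
  exact h hj

theorem par_update_mem {π : Fin n → Fin m} {S : Finset (Fin n)} {i : Fin n} (h : i ∈ S)
    (b : Fin m) : par (Function.update π i b) S = symmDiff (par π (S.erase i)) {b} := by
  conv_lhs => rw [← insert_erase h]
  rw [par_insert _ (notMem_erase i S), par_update_notMem (notMem_erase i S),
    Function.update_self]

/-- at most one value satisfies: average at most `1/m` -/
theorem avg_unique_le {Q : Fin m → Prop} [DecidablePred Q] (h : ∀ b b', Q b → Q b' → b = b') :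
    avg (fun b => if Q b then (1 : ℝ) else 0) ≤ 1 / m := by
  unfold avg
  rw [Fintype.card_fin, ← sum_filter, sum_const, nsmul_eq_mul, mul_one]
  apply div_le_div_of_nonneg_right _ (Nat.cast_nonneg m)
  have : (univ.filter Q).card ≤ 1 := by
    rw [card_le_one]
    intro a ha b hb
    simp only [mem_filter, mem_univ, true_and] at ha hb
    exact h a b ha hb
  exact_mod_cast this

theorem avg_mem_le (Q : Finset (Fin m)) :
    avg (fun b => if b ∈ Q then (1 : ℝ) else 0) ≤ Q.card / m := by
  unfold avg
  rw [Fintype.card_fin, ← sum_filter, sum_const, nsmul_eq_mul, mul_one]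
  apply div_le_div_of_nonneg_right _ (Nat.cast_nonneg m)
  have : (univ.filter fun b => b ∈ Q) = Q := by ext; simp
  rw [this]

/-- two different sets have the same parity pattern with probability at most `1/m` -/
theorem prob_par_eq {S S' : Finset (Fin n)} (h : S ≠ S') :
    avg (fun π : Fin n → Fin m => if par π S = par π S' then (1 : ℝ) else 0) ≤ 1 / m := by
  wlog hi : ∃ i ∈ S, i ∉ S' generalizing S S' with H
  · push Not at hi
    have h1 : ∃ i ∈ S', i ∉ S := by
      by_contra hcon
      push Not at hcon
      exact h (Subset.antisymm hi hcon)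
    have := H h.symm h1
    simp_rw [eq_comm (a := par _ S) (b := par _ S')]
    exact this
  obtain ⟨i, hi, hi'⟩ := hi
  rw [avg_update i]
  rcases isEmpty_or_nonempty (Fin n → Fin m) with he | he
  · simp [avg]
  apply avg_le_of_forall
  intro π
  apply avg_unique_le
  intro b b' hb hb'
  rw [par_update_mem hi, par_update_notMem hi'] at hb hb'
  have h1 : symmDiff (par π (S.erase i)) {b} = symmDiff (par π (S.erase i)) {b'} := by
    rw [hb, hb']
  have h2 := symmDiff_right_injective _ h1
  exact singleton_injective h2

/-- two points are in the same bucket with probability at most `1/m` -/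
theorem prob_eq_le {i j : Fin n} (h : i ≠ j) :
    avg (fun π : Fin n → Fin m => if π i = π j then (1 : ℝ) else 0) ≤ 1 / m := by
  rw [avg_update i]
  rcases isEmpty_or_nonempty (Fin n → Fin m) with he | he
  · simp [avg]
  apply avg_le_of_forall
  intro π
  apply avg_unique_le
  intro b b' hb hb'
  rw [Function.update_self, Function.update_of_ne h.symm] at hb hb'
  rw [hb, hb']

theorem par_injOn {π : Fin n → Fin m} {S : Finset (Fin n)} (h : Set.InjOn π S) :
    par π S = S.image π := by
  induction S using Finset.induction_on with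
  | empty => simp [par_empty]
  | insert i S hi ih =>
    have h1 : Set.InjOn π S := h.mono (by intro x hx; simp at hx ⊢; exact Or.inr hx)
    rw [par_insert π hi, ih h1, image_insert]
    have h2 : π i ∉ S.image π := by
      intro h3
      obtain ⟨j, hj, hji⟩ := mem_image.mp h3
      have := h (by simp [hj]) (by simp) hji
      subst this
      exact hi hj
    ext b
    rw [mem_symmDiff, mem_singleton, mem_insert]
    constructor
    · rintro (⟨h3, _⟩ | ⟨h3, _⟩)
      · exact Or.inr h3
      · exact Or.inl h3
    · rintro (h3 | h3)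
      · subst h3; exact Or.inr ⟨rfl, h2⟩
      · exact Or.inl ⟨h3, by rintro rfl; exact h2 h3⟩

theorem par_union {π : Fin n → Fin m} {S R : Finset (Fin n)} (h : Disjoint S R) :
    par π (S ∪ R) = symmDiff (par π S) (par π R) := by
  induction R using Finset.induction_on with
  | empty => rw [union_empty, par_empty, ← bot_eq_empty, symmDiff_bot]
  | insert i R hi ih =>
    rw [disjoint_insert_right] at h
    have h1 : i ∉ S ∪ R := by
      rw [mem_union, not_or]; exact ⟨h.1, hi⟩
    rw [union_insert, par_insert π h1, par_insert π hi, ih h.2, symmDiff_assoc]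

/-- a large set has a small parity pattern only with small probability -/
theorem prob_par_small {k : ℕ} {S : Finset (Fin n)} (h : k < S.card) :
    avg (fun π : Fin n → Fin m => if (par π S).card ≤ k then (1 : ℝ) else 0) ≤
      3 * (k + 1) ^ 2 / m := by
  obtain ⟨R, hRS, hR⟩ := exists_subset_card_eq (show k + 1 ≤ S.card by omega)
  set U := S \ R with hU
  have hSU : S = U ∪ R := by rw [hU, sdiff_union_of_subset hRS]
  have hdisj : Disjoint U R := sdiff_disjoint
  have key : ∀ π : Fin n → Fin m, (if (par π S).card ≤ k then (1 : ℝ) else 0) ≤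
      (∑ i ∈ R, ∑ j ∈ R, if i ≠ j then (if π i = π j then (1 : ℝ) else 0) else 0) +
      ∑ i ∈ R, if (par π U).card ≤ 2 * k + 1 then (if π i ∈ par π U then (1 : ℝ) else 0)
        else 0 := by
    intro π
    have hn1 : ∀ i ∈ R, ∀ j ∈ R, (0 : ℝ) ≤
        if i ≠ j then (if π i = π j then (1 : ℝ) else 0) else 0 := by
      intro i _ j _; split_ifs <;> norm_num
    have hn2 : ∀ i ∈ R, (0 : ℝ) ≤
        if (par π U).card ≤ 2 * k + 1 then (if π i ∈ par π U then (1 : ℝ) else 0) else 0 := by
      intro i _; split_ifs <;> norm_num
    have hs1 : (0 : ℝ) ≤ ∑ i ∈ R, ∑ j ∈ R,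
        if i ≠ j then (if π i = π j then (1 : ℝ) else 0) else 0 :=
      sum_nonneg fun i hi => sum_nonneg fun j hj => hn1 i hi j hj
    have hs2 : (0 : ℝ) ≤ ∑ i ∈ R,
        if (par π U).card ≤ 2 * k + 1 then (if π i ∈ par π U then (1 : ℝ) else 0) else 0 :=
      sum_nonneg hn2
    by_cases hc : (par π S).card ≤ k
    swap
    · rw [if_neg hc]; exact add_nonneg hs1 hs2
    rw [if_pos hc]
    -- the bad event
    by_cases hinj : Set.InjOn π R
    · -- some element of `R` is in the pattern of `U`
      have hparR : par π R = R.image π := par_injOn hinj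
      have hcR : (par π R).card = k + 1 := by rw [hparR, card_image_of_injOn hinj, hR]
      have hpS : par π S = symmDiff (par π U) (par π R) := by
        rw [hSU, par_union hdisj]
      have hle : (par π U).card ≤ 2 * k + 1 := by
        by_contra hcon
        push Not at hcon
        have h1 : par π U ⊆ par π S ∪ par π R := by
          intro b hb
          rw [hpS, mem_union, mem_symmDiff]
          by_cases h2 : b ∈ par π R
          · exact Or.inr h2
          · exact Or.inl (Or.inl ⟨hb, h2⟩)
        have h2 := card_le_card h1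
        have h3 := card_union_le (par π S) (par π R)
        omega
      have hex : ∃ i ∈ R, π i ∈ par π U := by
        by_contra hcon
        push Not at hcon
        have h1 : par π R ⊆ par π S := by
          intro b hb
          rw [hpS, mem_symmDiff]
          right
          refine ⟨hb, ?_⟩
          rw [hparR] at hb
          obtain ⟨i, hi, rfl⟩ := mem_image.mp hb
          exact hcon i hi
        have h2 := card_le_card h1
        omega
      obtain ⟨i, hi, hiU⟩ := hex
      have h1 := single_le_sum hn2 hi
      rw [if_pos hle, if_pos hiU] at h1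
      exact h1.trans (le_add_of_nonneg_left hs1)
    · rw [Set.InjOn] at hinj
      push Not at hinj
      obtain ⟨i, hi, j, hj, hij, hne⟩ := hinj
      have h1 := single_le_sum (fun i hi => sum_nonneg fun j hj => hn1 i hi j hj) hi
      have h2 := single_le_sum (fun j hj => hn1 i hi j hj) hj
      rw [if_pos hne, if_pos hij] at h2
      exact (h2.trans h1).trans (le_add_of_nonneg_right hs2)
  refine (avg_mono key).trans ?_
  rw [avg_add, avg_sum, avg_sum]
  have hm : (0 : ℝ) ≤ 1 / m := by positivity
  have e1 : ∑ i ∈ R, avg (fun π : Fin n → Fin m => ∑ j ∈ R,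
      if i ≠ j then (if π i = π j then (1 : ℝ) else 0) else 0) ≤ ∑ i ∈ R, ∑ j ∈ R, (1 / m : ℝ) := by
    apply sum_le_sum
    intro i _
    rw [avg_sum]
    apply sum_le_sum
    intro j _
    by_cases hij : i = j
    · simp [hij, avg]
    · have := prob_eq_le (m := m) hij
      simpa [hij] using this
  have e2 : ∑ i ∈ R, avg (fun π : Fin n → Fin m =>
      if (par π U).card ≤ 2 * k + 1 then (if π i ∈ par π U then (1 : ℝ) else 0) else 0) ≤
      ∑ i ∈ R, ((2 * k + 1) / m : ℝ) := by
    apply sum_le_sum
    intro i hi
    have hiU : i ∉ U := fun h => (disjoint_left.mp hdisj h) hi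
    rw [avg_update i]
    rcases isEmpty_or_nonempty (Fin n → Fin m) with he | he
    · simp only [avg, univ_eq_empty, sum_empty, zero_div]
      positivity
    apply avg_le_of_forall
    intro π
    simp_rw [par_update_notMem hiU, Function.update_self]
    split_ifs with h1
    · refine (avg_mem_le (par π U)).trans ?_
      apply div_le_div_of_nonneg_right _ (Nat.cast_nonneg m)
      exact_mod_cast h1
    · simp only [avg, sum_const_zero, zero_div]
      positivity
  refine (add_le_add e1 e2).trans ?_
  simp only [sum_const, hR, nsmul_eq_mul]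
  push_cast
  have e3 : ((k : ℝ) + 1) * ((k + 1) * (1 / m)) + (k + 1) * ((2 * k + 1) / m) ≤
      3 * (k + 1) ^ 2 / m := by
    have : 3 * ((k : ℝ) + 1) ^ 2 / m - (((k : ℝ) + 1) * ((k + 1) * (1 / m)) +
        (k + 1) * ((2 * k + 1) / m)) = (k + 1) * (1 / m) := by ring
    have h2 : (0 : ℝ) ≤ (k + 1) * (1 / m) := by positivity
    linarith
  exact e3

/-- two points of `H` are in the same bucket with probability at most `|H|^2/m` -/
theorem prob_not_injOn (H : Finset (Fin n)) :
    avg (fun π : Fin n → Fin m => if ∃ i ∈ H, ∃ j ∈ H, i ≠ j ∧ π i = π j then (1 : ℝ) else 0) ≤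
      (H.card : ℝ) ^ 2 / m := by
  have key : ∀ π : Fin n → Fin m,
      (if ∃ i ∈ H, ∃ j ∈ H, i ≠ j ∧ π i = π j then (1 : ℝ) else 0) ≤
      ∑ i ∈ H, ∑ j ∈ H, if i ≠ j then (if π i = π j then (1 : ℝ) else 0) else 0 := by
    intro π
    have hn1 : ∀ i ∈ H, ∀ j ∈ H, (0 : ℝ) ≤
        if i ≠ j then (if π i = π j then (1 : ℝ) else 0) else 0 := by
      intro i _ j _; split_ifs <;> norm_num
    by_cases h : ∃ i ∈ H, ∃ j ∈ H, i ≠ j ∧ π i = π j
    · rw [if_pos h]
      obtain ⟨i, hi, j, hj, hne, hij⟩ := h
      have h1 := single_le_sum (fun i hi => sum_nonneg fun j hj => hn1 i hi j hj) hi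
      have h2 := single_le_sum (fun j hj => hn1 i hi j hj) hj
      rw [if_pos hne, if_pos hij] at h2
      exact h2.trans h1
    · rw [if_neg h]
      exact sum_nonneg fun i hi => sum_nonneg fun j hj => hn1 i hi j hj
  refine (avg_mono key).trans ?_
  rw [avg_sum]
  have e1 : ∑ i ∈ H, avg (fun π : Fin n → Fin m => ∑ j ∈ H,
      if i ≠ j then (if π i = π j then (1 : ℝ) else 0) else 0) ≤ ∑ i ∈ H, ∑ j ∈ H, (1 / m : ℝ) := by
    apply sum_le_sum
    intro i _
    rw [avg_sum]
    apply sum_le_sum
    intro j _
    by_cases hij : i = j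
    · simp [hij, avg]
    · have := prob_eq_le (m := m) hij
      simpa [hij] using this
  refine e1.trans (le_of_eq ?_)
  simp only [sum_const, nsmul_eq_mul]
  ring

end Pool.Agent.Work.MP_8f25a0_lc
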