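import Pool.Agent.Work.MP_8f25a0_lc.Par
import Pool.Agent.Work.MP_8f25a0_lc.Basic

/-!
# Random identification of variables preserves the distance to juntas
-/

namespace Pool.Agent.Work.MP_8f25a0_lc

open Finset

variable {n m k : ℕ}

/-- the pushforward of Fourier coefficients -/
noncomputable def push (π : Fin n → Fin m) (z : Fin n → Bool) (a : Finset (Fin n) → ℝ)
    (T : Finset (Fin m)) : ℝ := P (fun S => if par π S = T then a S else 0) z

theorem push_eq (π : Fin n → Fin m) (z : Fin n → Bool) (a : Finset (Fin n) → ℝ)
    (T : Finset (Fin m)) : push π z a T = ∑ S, if par π S = T then a S * chi S z else 0 := by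
  unfold push P
  apply sum_congr rfl
  intro S _
  by_cases h : par π S = T <;> simp [h]

theorem sum_push_mul (π : Fin n → Fin m) (z : Fin n → Bool) (a : Finset (Fin n) → ℝ)
    (g : Finset (Fin m) → ℝ) :
    ∑ T, push π z a T * g T = ∑ S, a S * chi S z * g (par π S) := by
  simp_rw [push_eq, sum_mul]
  rw [sum_comm]
  apply sum_congr rfl
  intro S _
  simp only [ite_mul, zero_mul]
  rw [sum_ite_eq]
  simp

theorem P_app (π : Fin n → Fin m) (z : Fin n → Bool) (a : Finset (Fin n) → ℝ)
    (s : Fin m → Bool) : P a (app π z s) = P (push π z a) s := by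
  conv_rhs => unfold P
  rw [sum_push_mul]
  unfold P
  apply sum_congr rfl
  intro S _
  rw [chi_app]
  ring

theorem avg_P_app (π : Fin n → Fin m) (z : Fin n → Bool) (a : Finset (Fin n) → ℝ) :
    avg (fun s => P a (app π z s)) = push π z a ∅ := by
  have h : (fun s => P a (app π z s)) = fun s => P (push π z a) s * chi ∅ s := by
    funext s; rw [P_app, chi_empty, mul_one]
  rw [h]
  exact hat_P (push π z a) ∅

theorem avg_push_sq (π : Fin n → Fin m) (a : Finset (Fin n) → ℝ) (T : Finset (Fin m)) :
    avg (fun z => push π z a T ^ 2) = ∑ S, if par π S = T then a S ^ 2 else 0 := by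
  unfold push
  rw [parseval_P]
  apply sum_congr rfl
  intro S _
  split_ifs <;> simp

/-- second moment of the mean of a function after random identification -/
theorem second_moment {a : Finset (Fin n) → ℝ} (h0 : a ∅ = 0) (h1 : ∑ S, a S ^ 2 ≤ 1) :
    avg (fun π : Fin n → Fin m => avg fun z => push π z a ∅ ^ 2) ≤ 1 / m := by
  simp_rw [avg_push_sq]
  rw [avg_sum]
  calc ∑ S, avg (fun π : Fin n → Fin m => if par π S = ∅ then a S ^ 2 else 0)
      ≤ ∑ S, a S ^ 2 * (1 / m) := by
        apply sum_le_sum
        intro S _
        by_cases hS : S = ∅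
        · subst hS; rw [h0]; simp [avg]
        · have h2 : (fun π : Fin n → Fin m => if par π S = ∅ then a S ^ 2 else 0) =
              fun π => a S ^ 2 * if par π S = par π ∅ then (1 : ℝ) else 0 := by
            funext π; rw [par_empty]; split_ifs <;> simp
          rw [h2, avg_mul_left]
          exact mul_le_mul_of_nonneg_left (prob_par_eq hS) (sq_nonneg _)
    _ = (∑ S, a S ^ 2) * (1 / m) := by rw [sum_mul]
    _ ≤ 1 * (1 / m) := mul_le_mul_of_nonneg_right h1 (by positivity)
    _ = 1 / m := one_mul _

/-- the high-degree part has little weight on small sets of buckets -/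
theorem high_part {a : Finset (Fin n) → ℝ} (h0 : ∀ S, a S ≠ 0 → k < S.card)
    (h1 : ∑ S, a S ^ 2 ≤ 1) :
    avg (fun π : Fin n → Fin m => avg fun z => ∑ T, if T.card ≤ k then push π z a T ^ 2 else 0) ≤
      3 * (k + 1) ^ 2 / m := by
  have e1 : ∀ π : Fin n → Fin m,
      (avg fun z => ∑ T, if T.card ≤ k then push π z a T ^ 2 else 0) =
      ∑ S, if (par π S).card ≤ k then a S ^ 2 else 0 := by
    intro π
    rw [avg_sum]
    have : ∀ T : Finset (Fin m), avg (fun z => if T.card ≤ k then push π z a T ^ 2 else 0) =
        ∑ S, if par π S = T then (if T.card ≤ k then a S ^ 2 else 0) else 0 := by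
      intro T
      split_ifs with hT
      · exact avg_push_sq π a T
      · simp [avg]
    simp_rw [this]
    rw [sum_comm]
    apply sum_congr rfl
    intro S _
    rw [sum_ite_eq]
    simp
  simp_rw [e1]
  rw [avg_sum]
  calc ∑ S, avg (fun π : Fin n → Fin m => if (par π S).card ≤ k then a S ^ 2 else 0)
      ≤ ∑ S, a S ^ 2 * (3 * (k + 1) ^ 2 / m) := by
        apply sum_le_sum
        intro S _
        by_cases hS : a S = 0
        · rw [hS]; simp [avg]
        · have h2 : (fun π : Fin n → Fin m => if (par π S).card ≤ k then a S ^ 2 else 0) =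
              fun π => a S ^ 2 * if (par π S).card ≤ k then (1 : ℝ) else 0 := by
            funext π; split_ifs <;> simp
          rw [h2, avg_mul_left]
          exact mul_le_mul_of_nonneg_left (prob_par_small (h0 S hS)) (sq_nonneg _)
    _ = (∑ S, a S ^ 2) * (3 * (k + 1) ^ 2 / m) := by rw [sum_mul]
    _ ≤ 1 * (3 * (k + 1) ^ 2 / m) := mul_le_mul_of_nonneg_right h1 (by positivity)
    _ = _ := one_mul _

/-- the light low-degree part has small fourth moment -/
theorem low_part {a : Finset (Fin n) → ℝ} {τ : ℝ} (h0 : ∀ S, a S ≠ 0 → S.card ≤ k)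
    (h1 : ∑ S, a S ^ 2 ≤ 1) (h2 : ∀ S, a S ^ 2 ≤ τ) :
    avg (fun π : Fin n → Fin m => avg fun z => ∑ T, push π z a T ^ 4) ≤
      9 ^ k * (τ + 1 / m) := by
  rcases isEmpty_or_nonempty (Fin n → Fin m) with he | he
  · have hτ : 0 ≤ τ := (sq_nonneg _).trans (h2 ∅)
    simp only [avg, univ_eq_empty, sum_empty, zero_div]
    positivity
  have hτ : 0 ≤ τ := (sq_nonneg _).trans (h2 ∅)
  have hn : ∀ S, 0 ≤ a S ^ 2 := fun S => sq_nonneg _
  calc avg (fun π : Fin n → Fin m => avg fun z => ∑ T, push π z a T ^ 4)
      ≤ avg (fun π : Fin n → Fin m => ∑ S, ∑ S', 9 ^ k * (a S ^ 2 * a S' ^ 2 *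
          if par π S = par π S' then 1 else 0)) := by
        apply avg_mono
        intro π
        rw [avg_sum]
        have e1 : ∀ T, avg (fun z => push π z a T ^ 4) ≤
            9 ^ k * (∑ S, if par π S = T then a S ^ 2 else 0) ^ 2 := by
          intro T
          have := bonami k (fun S => if par π S = T then a S else 0) (by
            intro S hS
            by_cases h : par π S = T
            · simp only [h, if_true] at hS; exact h0 S hS
            · simp [h] at hS)
          refine this.trans (le_of_eq ?_)
          congr 2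
          apply sum_congr rfl
          intro S _
          split_ifs <;> simp
        refine (sum_le_sum fun T _ => e1 T).trans (le_of_eq ?_)
        rw [← mul_sum]
        simp_rw [← mul_sum]
        congr 1
        simp_rw [sq (∑ S, if par π S = _ then a S ^ 2 else 0), sum_mul_sum]
        rw [sum_comm]
        apply sum_congr rfl
        intro S _
        rw [sum_comm]
        apply sum_congr rfl
        intro S' _
        simp_rw [ite_mul, zero_mul]
        rw [sum_ite_eq]
        simp only [mem_univ, if_true, mul_ite, mul_zero, mul_one]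
        by_cases h : par π S = par π S'
        · simp [h]
        · simp [h, Ne.symm h]
    _ = ∑ S, ∑ S', 9 ^ k * (a S ^ 2 * a S' ^ 2 *
          avg (fun π : Fin n → Fin m => if par π S = par π S' then (1 : ℝ) else 0)) := by
        rw [avg_sum]
        apply sum_congr rfl
        intro S _
        rw [avg_sum]
        apply sum_congr rfl
        intro S' _
        rw [avg_mul_left, avg_mul_left]
    _ ≤ ∑ S, ∑ S', 9 ^ k * (a S ^ 2 * a S' ^ 2 * ((if S' = S then 1 else 0) + 1 / m)) := by
        apply sum_le_sum
        intro S _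
        apply sum_le_sum
        intro S' _
        apply mul_le_mul_of_nonneg_left _ (by positivity)
        apply mul_le_mul_of_nonneg_left _ (mul_nonneg (hn _) (hn _))
        by_cases h : S' = S
        · subst h
          simp only [if_true, avg_const]
          have : (0 : ℝ) ≤ 1 / m := by positivity
          linarith
        · rw [if_neg h, zero_add]
          exact prob_par_eq (Ne.symm h)
    _ = 9 ^ k * (∑ S, a S ^ 2 * a S ^ 2 + (∑ S, a S ^ 2) * (∑ S, a S ^ 2) * (1 / m)) := by
        rw [sum_mul_sum, sum_mul, ← sum_add_distrib, mul_sum]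
        apply sum_congr rfl
        intro S _
        rw [← mul_sum]
        congr 1
        simp_rw [mul_add]
        rw [sum_add_distrib, ← sum_mul]
        congr 1
        simp
    _ ≤ 9 ^ k * (τ + 1 / m) := by
        apply mul_le_mul_of_nonneg_left _ (by positivity)
        have e2 : ∑ S, a S ^ 2 * a S ^ 2 ≤ τ := by
          calc ∑ S, a S ^ 2 * a S ^ 2 ≤ ∑ S, τ * a S ^ 2 :=
                sum_le_sum fun S _ => mul_le_mul_of_nonneg_right (h2 S) (hn S)
            _ = τ * ∑ S, a S ^ 2 := by rw [mul_sum]
            _ ≤ τ * 1 := mul_le_mul_of_nonneg_left h1 hτ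
            _ = τ := mul_one _
        have e3 : (∑ S, a S ^ 2) * (∑ S, a S ^ 2) * (1 / m) ≤ 1 * (1 / m) := by
          apply mul_le_mul_of_nonneg_right _ (by positivity)
          have h3 : 0 ≤ ∑ S, a S ^ 2 := sum_nonneg fun S _ => hn S
          nlinarith
        linarith

/-- correlation and distance -/
theorem corr_dist (f g : Cube n → Bool) :
    avg (fun x => sg (f x) * sg (g x)) = 1 - 2 * dist f g := by
  unfold avg dist
  have h : ∀ x, sg (f x) * sg (g x) = 1 - 2 * (if f x ≠ g x then (1 : ℝ) else 0) := by
    intro x; cases f x <;> cases g x <;> simp [sg] <;> norm_num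
  simp_rw [h]
  rw [sum_sub_distrib, ← mul_sum, ← sum_filter, sum_const, sum_const, nsmul_eq_mul, mul_one,
    nsmul_eq_mul, mul_one, card_univ]
  have h2 : (Fintype.card (Cube n) : ℝ) = 2 ^ n := by simp
  rw [h2]
  field_simp

/-- Fourier coefficients of a junta -/
theorem hat_junta {G : Cube m → Bool} {B : Finset (Fin m)}
    (hG : ∀ s t : Cube m, (∀ b ∈ B, s b = t b) → G s = G t) {T : Finset (Fin m)}
    (hT : ¬ T ⊆ B) : hat (fun s => sg (G s)) T = 0 := by
  obtain ⟨b, hb, hbB⟩ := not_subset.mp hT
  unfold hat
  have h1 := avg_equiv (flipE b) (fun s => sg (G s) * chi T s)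
  have h2 : ∀ s, G (flipE b s) = G s := by
    intro s
    apply hG
    intro c hc
    rw [flipE_ne]
    rintro rfl
    exact hbB hc
  simp_rw [h2, chi_flip_mem hb, mul_neg] at h1
  rw [avg_neg] at h1
  linarith

/-- overwriting the coordinates in `H` -/
def mix (H : Finset (Fin n)) (x y : Cube n) : Cube n := fun i => if i ∈ H then x i else y i

/-- overwriting the buckets of elements of `H` -/
noncomputable def psi (H : Finset (Fin n)) (π : Fin n → Fin m) (z : Fin n → Bool)
    (s : Cube m) (x : Cube n) : Cube m := by
  classical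
  exact fun b => if h : ∃ i ∈ H, π i = b then xor (x h.choose) (z h.choose) else s b

theorem psi_mem {H : Finset (Fin n)} {π : Fin n → Fin m} (hinj : Set.InjOn π H)
    (z : Fin n → Bool) (s : Cube m) (x : Cube n) {i : Fin n} (hi : i ∈ H) :
    psi H π z s x (π i) = xor (x i) (z i) := by
  unfold psi
  have h : ∃ j ∈ H, π j = π i := ⟨i, hi, rfl⟩
  simp only [dif_pos h]
  have h1 := h.choose_spec
  have h2 : h.choose = i := hinj h1.1 hi h1.2
  rw [h2]

theorem psi_notMem {H : Finset (Fin n)} {π : Fin n → Fin m}
    (z : Fin n → Bool) (s : Cube m) (x : Cube n) {b : Fin m} (hb : ¬ ∃ i ∈ H, π i = b) :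
    psi H π z s x b = s b := by
  unfold psi
  simp only [dif_neg hb]

theorem xor_xor_self (a b : Bool) : xor (xor a b) b = a := by cases a <;> cases b <;> rfl

/-- the measure preserving involution behind the heavy part -/
theorem avg_swap {H : Finset (Fin n)} {π : Fin n → Fin m} (hinj : Set.InjOn π H)
    (z : Fin n → Bool) (f : Cube n → ℝ) (g : Cube m → ℝ) :
    avg (fun s => avg fun x => f (mix H (app π z s) x) * g s) =
      avg (fun s => avg fun x => f x * g (psi H π z s x)) := by
  have hinv : ∀ q : Cube m × Cube n,
      (fun q : Cube m × Cube n => (psi H π z q.1 q.2, mix H (app π z q.1) q.2))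
        ((fun q : Cube m × Cube n => (psi H π z q.1 q.2, mix H (app π z q.1) q.2)) q) = q := by
    rintro ⟨s, x⟩
    simp only [Prod.mk.injEq]
    constructor
    · funext b
      by_cases hb : ∃ i ∈ H, π i = b
      · obtain ⟨i, hi, rfl⟩ := hb
        rw [psi_mem hinj _ _ _ hi]
        unfold mix app
        rw [if_pos hi, xor_xor_self]
      · rw [psi_notMem _ _ _ hb, psi_notMem _ _ _ hb]
    · funext i
      by_cases hi : i ∈ H
      · unfold mix
        rw [if_pos hi]
        unfold app
        rw [psi_mem hinj _ _ _ hi, xor_xor_self]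
      · unfold mix
        rw [if_neg hi, if_neg hi]
  have h1 := avg_equiv
    { toFun := fun q : Cube m × Cube n => (psi H π z q.1 q.2, mix H (app π z q.1) q.2)
      invFun := fun q : Cube m × Cube n => (psi H π z q.1 q.2, mix H (app π z q.1) q.2)
      left_inv := hinv
      right_inv := hinv }
    (fun q : Cube m × Cube n => f (mix H (app π z q.1) q.2) * g q.1)
  rw [avg_prod (fun q : Cube m × Cube n => f (mix H (app π z q.1) q.2) * g q.1), avg_prod] at h1
  rw [← h1]
  congr 1
  funext s
  congr 1
  funext x
  simp only [Equiv.coe_fn_mk]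
  have h2 := congrArg Prod.snd (hinv (s, x))
  simp only at h2
  rw [h2]

/-- the part of `f` supported on subsets of `H` is the conditional expectation -/
theorem P_mix (H : Finset (Fin n)) (f : Cube n → ℝ) (x : Cube n) :
    P (fun S => if S ⊆ H then hat f S else 0) x = avg fun y => f (mix H x y) := by
  have h1 : ∀ y, f (mix H x y) = ∑ S, hat f S * (chi (S ∩ H) x * chi (S \ H) y) := by
    intro y
    rw [fourier f (mix H x y)]
    apply sum_congr rfl
    intro S _
    congr 1
    unfold chi
    rw [← prod_inter_mul_prod_sdiff S H (fun i => sg (mix H x y i))]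
    congr 1
    · apply prod_congr rfl
      intro i hi
      unfold mix
      rw [if_pos (mem_inter.mp hi).2]
    · apply prod_congr rfl
      intro i hi
      unfold mix
      rw [if_neg (mem_sdiff.mp hi).2]
  simp_rw [h1]
  rw [avg_sum]
  unfold P
  apply sum_congr rfl
  intro S _
  rw [avg_mul_left, avg_mul_left, avg_chi]
  simp only
  by_cases hS : S ⊆ H
  · rw [if_pos hS, if_pos (sdiff_eq_empty_iff_subset.mpr hS), mul_one,
      inter_eq_left.mpr hS]
  · rw [if_neg hS, if_neg (fun h => hS (sdiff_eq_empty_iff_subset.mp h))]
    ring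

/-- The heavy part has correlation with a junta at most the best correlation of `f`. -/
theorem heavy_part {H : Finset (Fin n)} {π : Fin n → Fin m} (hinj : Set.InjOn π H)
    (z : Fin n → Bool) (f : Cube n → Bool) {G : Cube m → Bool} (hG : IsJunta k G) :
    avg (fun s => P (fun S => if S ⊆ H then hat (fun x => sg (f x)) S else 0) (app π z s) *
      sg (G s)) ≤ 1 - 2 * distK k f := by
  classical
  obtain ⟨B, hB, hG⟩ := hG
  simp_rw [P_mix, ← avg_mul_right]
  rw [avg_swap hinj z (fun x => sg (f x)) (fun s => sg (G s))]
  apply avg_le_of_forall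
  intro s
  rw [corr_dist f (fun x => G (psi H π z s x))]
  have hJ : IsJunta k (fun x => G (psi H π z s x)) := by
    refine ⟨H.filter fun i => π i ∈ B, ?_, ?_⟩
    · refine le_trans (card_le_card_of_injOn π ?_ ?_) hB
      · intro i hi
        exact (mem_filter.mp hi).2
      · exact hinj.mono (by intro i hi; exact (mem_filter.mp hi).1)
    · intro x y hxy
      apply hG
      intro b hb
      by_cases hbH : ∃ i ∈ H, π i = b
      · obtain ⟨i, hi, rfl⟩ := hbH
        rw [psi_mem hinj _ _ _ hi, psi_mem hinj _ _ _ hi, hxy i (mem_filter.mpr ⟨hi, hb⟩)]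
      · rw [psi_notMem _ _ _ hbH, psi_notMem _ _ _ hbH]
  have := distK_le (f := f) hJ
  linarith

theorem sum_hat_sg (f : Cube n → Bool) : ∑ S, hat (fun x => sg (f x)) S ^ 2 = 1 := by
  rw [← parseval]
  have : (fun x => sg (f x) ^ 2) = fun _ : Cube n => (1 : ℝ) := by
    funext x; rw [sq, sg_mul_self]
  rw [this, avg_const]

theorem avg_P_app_mul (π : Fin n → Fin m) (z : Fin n → Bool) (a : Finset (Fin n) → ℝ)
    (g : Cube m → ℝ) :
    avg (fun s => P a (app π z s) * g s) = ∑ T, push π z a T * hat g T := by
  have : (fun s => P a (app π z s) * g s) = fun s => P (push π z a) s * g s := by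
    funext s; rw [P_app]
  rw [this, plancherel]
  simp_rw [hat_P]

/-- deterministic part of the reduction -/
theorem reduce_det {e : ℝ} (he : 0 < e) (f : Cube n → Bool) (H : Finset (Fin n))
    {π : Fin n → Fin m} {z : Fin n → Bool} (hinj : Set.InjOn π H)
    (h1 : ∑ T, push π z (fun S => if S ⊆ H then 0 else if S.card ≤ k then
      hat (fun x => sg (f x)) S else 0) T ^ 4 ≤ e ^ 4 / 2 ^ k)
    (h2 : (∑ T, if T.card ≤ k then push π z (fun S => if S ⊆ H then 0 else if S.card ≤ k then
      0 else hat (fun x => sg (f x)) S) T ^ 2 else 0) ≤ e ^ 2) {g : Cube n → Bool}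
    (hg : IsJunta k g) (hg' : distK k f = dist f g)
    (h3 : |avg (fun s => sg (f (app π z s)) * sg (g (app π z s))) -
      avg (fun x => sg (f x) * sg (g x))| ≤ e) :
    |distK k (fun s => f (app π z s)) - distK k f| ≤ e := by
  set c := hat (fun x => sg (f x)) with hc
  set aL : Finset (Fin n) → ℝ := fun S => if S ⊆ H then 0 else if S.card ≤ k then c S else 0
    with haL
  set aU : Finset (Fin n) → ℝ := fun S => if S ⊆ H then 0 else if S.card ≤ k then 0 else c S
    with haU
  rw [abs_le]
  constructor
  · -- juntas in the buckets are not better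
    have key : distK k f - e ≤ distK k (fun s => f (app π z s)) := by
      apply le_distK
      intro G hG
      have hcorr := corr_dist (fun s => f (app π z s)) G
      have hsplit : ∀ x, sg (f x) = P (fun S => if S ⊆ H then c S else 0) x + P aL x + P aU x := by
        intro x
        rw [fourier (fun x => sg (f x)) x]
        unfold P
        rw [← sum_add_distrib, ← sum_add_distrib]
        apply sum_congr rfl
        intro S _
        simp only [haL, haU, ← hc]
        split_ifs <;> ring
      have hH := heavy_part hinj z f hG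
      obtain ⟨B, hB, hGB⟩ := hG
      have hGn : ∑ T, hat (fun s => sg (G s)) T ^ 2 = 1 := sum_hat_sg G
      have hGT : ∀ T, ¬ T ⊆ B → hat (fun s => sg (G s)) T = 0 := fun T hT => hat_junta hGB hT
      -- general bound
      have gen : ∀ a : Finset (Fin n) → ℝ, (∑ T, push π z a T * hat (fun s => sg (G s)) T) ^ 2 ≤
          ∑ T, if T ⊆ B then push π z a T ^ 2 else 0 := by
        intro a
        have e1 : ∑ T, push π z a T * hat (fun s => sg (G s)) T =
            ∑ T, (if T ⊆ B then push π z a T else 0) * hat (fun s => sg (G s)) T := by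
          apply sum_congr rfl
          intro T _
          by_cases hT : T ⊆ B
          · rw [if_pos hT]
          · rw [hGT T hT, mul_zero, mul_zero]
        rw [e1]
        refine (sum_mul_sq_le_sq_mul_sq univ _ _).trans ?_
        rw [hGn, mul_one]
        apply le_of_eq
        apply sum_congr rfl
        intro T _
        split_ifs <;> simp
      -- the light part
      have hLb : |∑ T, push π z aL T * hat (fun s => sg (G s)) T| ≤ e := by
        have e1 := gen aL
        have e2 : (∑ T, if T ⊆ B then push π z aL T ^ 2 else 0) ^ 2 ≤ e ^ 4 := by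
          have e3 := sum_mul_sq_le_sq_mul_sq (univ : Finset (Finset (Fin m)))
            (fun T => if T ⊆ B then (1 : ℝ) else 0) (fun T => push π z aL T ^ 2)
          have e4 : ∑ T : Finset (Fin m), (if T ⊆ B then (1 : ℝ) else 0) ^ 2 = 2 ^ B.card := by
            have : ∀ T : Finset (Fin m), (if T ⊆ B then (1 : ℝ) else 0) ^ 2 =
                if T ∈ B.powerset then 1 else 0 := by
              intro T; simp only [mem_powerset]; split_ifs <;> simp
            simp_rw [this]
            rw [sum_ite_mem, univ_inter, sum_const, nsmul_eq_mul, mul_one, card_powerset]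
            push_cast
            rfl
          rw [e4] at e3
          calc (∑ T, if T ⊆ B then push π z aL T ^ 2 else 0) ^ 2
              = (∑ T, (if T ⊆ B then (1 : ℝ) else 0) * push π z aL T ^ 2) ^ 2 := by
                congr 1; apply sum_congr rfl; intro T _; split_ifs <;> simp
            _ ≤ 2 ^ B.card * ∑ T, (push π z aL T ^ 2) ^ 2 := e3
            _ = 2 ^ B.card * ∑ T, push π z aL T ^ 4 := by
                congr 1; apply sum_congr rfl; intro T _; ring
            _ ≤ 2 ^ k * (e ^ 4 / 2 ^ k) := by
                apply mul_le_mul _ h1 (sum_nonneg fun T _ => by positivity) (by positivity)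
                exact pow_le_pow_right₀ (by norm_num) hB
            _ = e ^ 4 := by field_simp
        have e5 : (∑ T, if T ⊆ B then push π z aL T ^ 2 else 0) ≤ e ^ 2 := by
          apply le_of_sq_le_sq _ (by positivity)
          calc _ ≤ e ^ 4 := e2
            _ = (e ^ 2) ^ 2 := by ring
        exact abs_le_of_sq_le_sq (e1.trans e5) he.le
      have hUb : |∑ T, push π z aU T * hat (fun s => sg (G s)) T| ≤ e := by
        have e1 := gen aU
        have e2 : (∑ T, if T ⊆ B then push π z aU T ^ 2 else 0) ≤
            ∑ T, if T.card ≤ k then push π z aU T ^ 2 else 0 := by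
          apply sum_le_sum
          intro T _
          by_cases hT : T ⊆ B
          · rw [if_pos hT, if_pos ((card_le_card hT).trans hB)]
          · rw [if_neg hT]
            split_ifs
            · exact sq_nonneg _
            · exact le_refl _
        exact abs_le_of_sq_le_sq ((e1.trans e2).trans h2) he.le
      have htot : avg (fun s => sg (f (app π z s)) * sg (G s)) =
          avg (fun s => P (fun S => if S ⊆ H then c S else 0) (app π z s) * sg (G s)) +
          (∑ T, push π z aL T * hat (fun s => sg (G s)) T) +
          (∑ T, push π z aU T * hat (fun s => sg (G s)) T) := by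
        rw [← avg_P_app_mul, ← avg_P_app_mul, ← avg_add, ← avg_add]
        congr 1
        funext s
        rw [hsplit]
        ring
      rw [htot] at hcorr
      have h4 := (abs_le.mp hLb).2
      have h5 := (abs_le.mp hUb).2
      linarith
    linarith
  · -- the best junta survives
    have hJ : IsJunta k (fun s => g (app π z s)) := by
      classical
      obtain ⟨J, hJ, hgJ⟩ := hg
      refine ⟨J.image π, card_image_le.trans hJ, ?_⟩
      intro s t hst
      apply hgJ
      intro i hi
      unfold app
      rw [hst (π i) (mem_image_of_mem π hi)]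
    have h4 := distK_le (f := fun s => f (app π z s)) hJ
    have h5 := corr_dist (fun s => f (app π z s)) (fun s => g (app π z s))
    have h6 := corr_dist f g
    have h7 := (abs_le.mp h3).1
    rw [h5, h6, ← hg'] at h7
    linarith

end Pool.Agent.Work.MP_8f25a0_lc
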