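import Pool.Agent.Work.MP_8f25a0_lc.Reduce

/-!
# Random identification of variables preserves the distance to juntas: probability estimate
-/

namespace Pool.Agent.Work.MP_8f25a0_lc

open Finset

variable {n m k : ℕ}

/-- The distance to `k`-juntas changes by more than `e` only with small probability. -/
theorem reduce (f : Cube n → Bool) {e τ : ℝ} (he : 0 < e) (hτ : 0 < τ) :
    avg (fun q : (Fin n → Fin m) × (Fin n → Bool) =>
      if e < |distK k (fun s => f (app q.1 q.2 s)) - distK k f| then (1 : ℝ) else 0) ≤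
    9 ^ k * (τ + 1 / m) / (e ^ 4 / 2 ^ k) + 3 * (k + 1) ^ 2 / m / e ^ 2 + (k / τ) ^ 2 / m +
      1 / m / e ^ 2 := by
  classical
  set c := hat (fun x => sg (f x)) with hc
  have hc1 : ∑ S, c S ^ 2 = 1 := sum_hat_sg f
  -- the heavy coordinates
  set 𝒮 := univ.filter (fun S : Finset (Fin n) => S.card ≤ k ∧ τ ≤ c S ^ 2) with h𝒮
  set H : Finset (Fin n) := 𝒮.biUnion id with hH
  have hHcard : (H.card : ℝ) ≤ k / τ := by
    have h1 : (𝒮.card : ℝ) * τ ≤ 1 := by
      calc (𝒮.card : ℝ) * τ = ∑ S ∈ 𝒮, τ := by rw [sum_const, nsmul_eq_mul]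
        _ ≤ ∑ S ∈ 𝒮, c S ^ 2 := sum_le_sum fun S hS => (mem_filter.mp hS).2.2
        _ ≤ ∑ S, c S ^ 2 := sum_le_univ_sum_of_nonneg fun S => sq_nonneg _
        _ = 1 := hc1
    have h2 : H.card ≤ 𝒮.card * k :=
      card_biUnion_le_card_mul _ _ _ fun S hS => (mem_filter.mp hS).2.1
    have h3 : (H.card : ℝ) ≤ 𝒮.card * k := by exact_mod_cast h2
    rw [le_div_iff₀ hτ]
    calc (H.card : ℝ) * τ ≤ (𝒮.card * k) * τ := mul_le_mul_of_nonneg_right h3 hτ.le
      _ = (𝒮.card * τ) * k := by ring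
      _ ≤ 1 * k := mul_le_mul_of_nonneg_right h1 (Nat.cast_nonneg k)
      _ = k := one_mul _
  set aL : Finset (Fin n) → ℝ := fun S => if S ⊆ H then 0 else if S.card ≤ k then c S else 0
    with haL
  set aU : Finset (Fin n) → ℝ := fun S => if S ⊆ H then 0 else if S.card ≤ k then 0 else c S
    with haU
  have haL1 : ∑ S, aL S ^ 2 ≤ 1 := by
    rw [← hc1]
    apply sum_le_sum
    intro S _
    simp only [haL]
    split_ifs
    · simp; positivity
    · exact le_refl _
    · simp; positivity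
  have haU1 : ∑ S, aU S ^ 2 ≤ 1 := by
    rw [← hc1]
    apply sum_le_sum
    intro S _
    simp only [haU]
    split_ifs
    · simp; positivity
    · simp; positivity
    · exact le_refl _
  have haLτ : ∀ S, aL S ^ 2 ≤ τ := by
    intro S
    simp only [haL]
    split_ifs with h1 h2
    · simpa using hτ.le
    · by_contra hcon
      push Not at hcon
      apply h1
      rw [hH]
      exact subset_biUnion_of_mem id (mem_filter.mpr ⟨mem_univ S, h2, hcon.le⟩)
    · simpa using hτ.le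
  have haLk : ∀ S, aL S ≠ 0 → S.card ≤ k := by
    intro S hS
    simp only [haL] at hS
    by_contra hcon
    split_ifs at hS with h1
    all_goals exact hS rfl
  have haUk : ∀ S, aU S ≠ 0 → k < S.card := by
    intro S hS
    simp only [haU] at hS
    by_contra hcon
    push Not at hcon
    split_ifs at hS with h1
    all_goals exact hS rfl
  -- the optimal junta
  obtain ⟨g, hg, hg'⟩ := exists_distK k f
  set h : Cube n → ℝ := fun x => sg (f x) * sg (g x) with hh
  set μ := avg h with hμ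
  set aE : Finset (Fin n) → ℝ := fun S => if S = ∅ then 0 else hat h S with haE
  have hE1 : ∑ S, aE S ^ 2 ≤ 1 := by
    have h1 : ∑ S, hat h S ^ 2 = 1 := by
      rw [← parseval]
      have : (fun x => h x ^ 2) = fun _ : Cube n => (1 : ℝ) := by
        funext x
        simp only [hh]
        rw [mul_pow, sq, sq, sg_mul_self, sg_mul_self, one_mul]
      rw [this, avg_const]
    rw [← h1]
    apply sum_le_sum
    intro S _
    simp only [haE]
    split_ifs
    · simp; positivity
    · exact le_refl _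
  have hE : ∀ (π : Fin n → Fin m) (z : Fin n → Bool),
      avg (fun s => h (app π z s)) - μ = push π z aE ∅ := by
    intro π z
    rw [← avg_P_app]
    have h1 : ∀ x, h x = μ + P aE x := by
      intro x
      rw [fourier h x]
      unfold P
      have h2 : μ = ∑ S, if S = ∅ then hat h S * chi S x else 0 := by
        rw [sum_ite_eq' univ ∅]
        simp only [mem_univ, if_true, chi_empty, mul_one]
        rw [hμ]
        unfold hat
        simp_rw [chi_empty, mul_one]
      rw [h2, ← sum_add_distrib]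
      apply sum_congr rfl
      intro S _
      simp only [haE]
      split_ifs <;> simp
    simp_rw [h1]
    rw [avg_add, avg_const]
    ring
  -- the four bad events
  have key : ∀ q : (Fin n → Fin m) × (Fin n → Bool),
      (if e < |distK k (fun s => f (app q.1 q.2 s)) - distK k f| then (1 : ℝ) else 0) ≤
      (if e ^ 4 / 2 ^ k ≤ ∑ T, push q.1 q.2 aL T ^ 4 then (1 : ℝ) else 0) +
      (if e ^ 2 ≤ ∑ T, (if T.card ≤ k then push q.1 q.2 aU T ^ 2 else 0) then (1 : ℝ) else 0) +
      (if ∃ i ∈ H, ∃ j ∈ H, i ≠ j ∧ q.1 i = q.1 j then (1 : ℝ) else 0) +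
      (if e ^ 2 ≤ push q.1 q.2 aE ∅ ^ 2 then (1 : ℝ) else 0) := by
    rintro ⟨π, z⟩
    simp only
    have n1 : ∀ (p : Prop) [Decidable p], (0 : ℝ) ≤ if p then 1 else 0 := by
      intro p _; split_ifs <;> norm_num
    by_cases b1 : e ^ 4 / 2 ^ k ≤ ∑ T, push π z aL T ^ 4
    · rw [if_pos b1]
      have i1 := n1 (e ^ 2 ≤ ∑ T, (if T.card ≤ k then push π z aU T ^ 2 else 0))
      have i2 := n1 (∃ i ∈ H, ∃ j ∈ H, i ≠ j ∧ π i = π j)
      have i3 := n1 (e ^ 2 ≤ push π z aE ∅ ^ 2)
      split_ifs <;> linarith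
    by_cases b2 : e ^ 2 ≤ ∑ T, (if T.card ≤ k then push π z aU T ^ 2 else 0)
    · rw [if_pos b2]
      have i1 := n1 (e ^ 4 / 2 ^ k ≤ ∑ T, push π z aL T ^ 4)
      have i2 := n1 (∃ i ∈ H, ∃ j ∈ H, i ≠ j ∧ π i = π j)
      have i3 := n1 (e ^ 2 ≤ push π z aE ∅ ^ 2)
      split_ifs <;> linarith
    by_cases b3 : ∃ i ∈ H, ∃ j ∈ H, i ≠ j ∧ π i = π j
    · rw [if_pos b3]
      have i1 := n1 (e ^ 4 / 2 ^ k ≤ ∑ T, push π z aL T ^ 4)
      have i2 := n1 (e ^ 2 ≤ ∑ T, (if T.card ≤ k then push π z aU T ^ 2 else 0))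
      have i3 := n1 (e ^ 2 ≤ push π z aE ∅ ^ 2)
      split_ifs <;> linarith
    by_cases b4 : e ^ 2 ≤ push π z aE ∅ ^ 2
    · rw [if_pos b4]
      have i1 := n1 (e ^ 4 / 2 ^ k ≤ ∑ T, push π z aL T ^ 4)
      have i2 := n1 (e ^ 2 ≤ ∑ T, (if T.card ≤ k then push π z aU T ^ 2 else 0))
      have i3 := n1 (∃ i ∈ H, ∃ j ∈ H, i ≠ j ∧ π i = π j)
      split_ifs <;> linarith
    rw [if_neg b1, if_neg b2, if_neg b3, if_neg b4, if_neg]
    · norm_num
    push Not at b1 b2 b3 b4
    have hinj : Set.InjOn π H := by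
      intro i hi j hj hij
      by_contra hne
      exact b3 i hi j hj hne hij
    have := reduce_det he f H hinj b1.le b2.le hg hg' (by
      show |avg (fun s => h (app π z s)) - μ| ≤ e
      rw [hE]
      exact abs_le_of_sq_le_sq b4.le he.le)
    exact not_lt.mpr this
  refine (avg_mono key).trans ?_
  rw [avg_add, avg_add, avg_add]
  have he4 : 0 < e ^ 4 / 2 ^ k := by positivity
  have he2 : 0 < e ^ 2 := by positivity
  have t1 : avg (fun q : (Fin n → Fin m) × (Fin n → Bool) =>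
      if e ^ 4 / 2 ^ k ≤ ∑ T, push q.1 q.2 aL T ^ 4 then (1 : ℝ) else 0) ≤
      9 ^ k * (τ + 1 / m) / (e ^ 4 / 2 ^ k) := by
    apply avg_markov (F := fun q : (Fin n → Fin m) × (Fin n → Bool) =>
      ∑ T, push q.1 q.2 aL T ^ 4) (fun q => sum_nonneg fun T _ => by positivity) he4
    rw [div_mul_cancel₀ _ he4.ne', avg_prod]
    exact low_part haLk haL1 haLτ
  have t2 : avg (fun q : (Fin n → Fin m) × (Fin n → Bool) =>
      if e ^ 2 ≤ ∑ T, (if T.card ≤ k then push q.1 q.2 aU T ^ 2 else 0) then (1 : ℝ) else 0) ≤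
      3 * (k + 1) ^ 2 / m / e ^ 2 := by
    apply avg_markov (F := fun q : (Fin n → Fin m) × (Fin n → Bool) =>
      ∑ T, (if T.card ≤ k then push q.1 q.2 aU T ^ 2 else 0))
      (fun q => sum_nonneg fun T _ => by split_ifs <;> positivity) he2
    rw [div_mul_cancel₀ _ he2.ne', avg_prod]
    exact high_part haUk haU1
  have t3 : avg (fun q : (Fin n → Fin m) × (Fin n → Bool) =>
      if ∃ i ∈ H, ∃ j ∈ H, i ≠ j ∧ q.1 i = q.1 j then (1 : ℝ) else 0) ≤ (k / τ) ^ 2 / m := by
    rw [avg_prod]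
    refine le_trans (le_of_eq ?_) ((prob_not_injOn (m := m) H).trans ?_)
    · congr 1
      funext a
      rw [← avg_const (α := Fin n → Bool)
        (if ∃ i ∈ H, ∃ j ∈ H, i ≠ j ∧ a i = a j then (1 : ℝ) else 0)]
    apply div_le_div_of_nonneg_right _ (Nat.cast_nonneg m)
    exact pow_le_pow_left₀ (Nat.cast_nonneg _) hHcard 2
  have t4 : avg (fun q : (Fin n → Fin m) × (Fin n → Bool) =>
      if e ^ 2 ≤ push q.1 q.2 aE ∅ ^ 2 then (1 : ℝ) else 0) ≤ 1 / m / e ^ 2 := by
    apply avg_markov (F := fun q : (Fin n → Fin m) × (Fin n → Bool) =>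
      push q.1 q.2 aE ∅ ^ 2) (fun q => by positivity) he2
    rw [div_mul_cancel₀ _ he2.ne', avg_prod]
    exact second_moment (by simp [haE]) hE1
  linarith

end Pool.Agent.Work.MP_8f25a0_lc
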