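import Pool.Agent.Work.MP_8f25a0_lc.Conc

/-!
# The lower bound from the planted spike
-/

namespace Pool.Agent.Work.MP_8f25a0_lc

open MeasureTheory Finset

set_option linter.unusedSectionVars false

variable {n K k : ℕ} (ι : Fin K → Fin n) (c : ℝ)

open scoped RealInnerProductSpace

/-- total mass of the signal space -/
noncomputable def cV (K : ℕ) : ℝ := gp (0 : VV K) Set.univ

theorem cV_pos (K : ℕ) : 0 < cV K := by
  unfold cV gp
  rw [setIntegral_univ]
  have h := integral_pos_iff_support_of_nonneg (fun z : VV K => (wt_pos (z - 0)).le)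
    (integrable_wt_sub (0 : VV K))
  rw [h]
  have : Function.support (fun z : VV K => wt (z - 0)) = Set.univ := by
    ext z
    simp only [Function.mem_support, Set.mem_univ, iff_true]
    exact (wt_pos _).ne'
  rw [this]
  exact isOpen_univ.measure_pos volume Set.univ_nonempty

theorem integral_wt_sub (b : VV K) : ∫ g : VV K, wt (g - b) = cV K := by
  have := gp_univ b
  unfold gp at this
  rw [setIntegral_univ] at this
  exact this

/-- Chernoff bound for a coordinate -/
theorem coord_tail (b : VV K) (B : Fin K) (τ : ℝ) :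
    ∫ g : VV K, Real.exp (τ * (g - b) B - τ ^ 2) * wt (g - b) =
      Real.exp (-(τ ^ 2 / 2)) * cV K := by
  have h0 := integral_sub_right_eq_self
    (fun g : VV K => Real.exp (τ * g B - τ ^ 2) * wt g) b (μ := volume)
  rw [h0]
  have h1 : ∀ g : VV K, Real.exp (τ * g B - τ ^ 2) * wt g = Real.exp (-(τ ^ 2 / 2)) *
      (Real.exp (⟪(τ • EuclideanSpace.single B (1 : ℝ) : VV K), g⟫ -
        ‖(τ • EuclideanSpace.single B (1 : ℝ) : VV K)‖ ^ 2 / 2) * wt g) := by
    intro g
    rw [← mul_assoc, ← Real.exp_add, real_inner_smul_left, EuclideanSpace.inner_single_left,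
      norm_smul, mul_pow]
    congr 2
    simp
    ring
  simp_rw [h1]
  rw [integral_const_mul]
  congr 1
  have h2 := gp_eq (τ • EuclideanSpace.single B (1 : ℝ) : VV K) Set.univ
  rw [setIntegral_univ] at h2
  rw [h2, gp_univ]
  rfl

theorem integrable_coord (b : VV K) (B : Fin K) (τ : ℝ) :
    Integrable fun g : VV K => Real.exp (τ * (g - b) B - τ ^ 2) * wt (g - b) := by
  have h0 := (integrable_exp_wt (τ • EuclideanSpace.single B (1 : ℝ) : VV K) (-τ ^ 2)).comp_sub_right b
  refine h0.congr (Filter.Eventually.of_forall fun g => ?_)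
  simp only
  rw [real_inner_smul_left, EuclideanSpace.inner_single_left]
  congr 2
  simp
  ring

/-- the signals close to `b` -/
def Gd (b : VV K) (τ : ℝ) : Set (VV K) := {g | ∀ B, |(g - b) B| ≤ τ}

theorem measurableSet_Gd (b : VV K) (τ : ℝ) : MeasurableSet (Gd b τ) := by
  have : Gd b τ = ⋂ B, {g : VV K | |(g - b) B| ≤ τ} := by ext g; simp [Gd]
  rw [this]
  apply MeasurableSet.iInter
  intro B
  apply measurableSet_le _ measurable_const
  fun_prop

theorem gp_Gd (b : VV K) {τ : ℝ} (hτ : 0 ≤ τ) :
    gp b (Gd b τ)ᶜ ≤ 2 * K * Real.exp (-(τ ^ 2 / 2)) * cV K := by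
  unfold gp
  rw [← integral_indicator (measurableSet_Gd b τ).compl]
  have hint : Integrable fun g : VV K => ∑ B : Fin K,
      (Real.exp (τ * (g - b) B - τ ^ 2) * wt (g - b) +
        Real.exp (-τ * (g - b) B - (-τ) ^ 2) * wt (g - b)) := by
    apply integrable_finsetSum
    intro B _
    exact (integrable_coord b B τ).add (integrable_coord b B (-τ))
  calc ∫ g, (Gd b τ)ᶜ.indicator (fun g => wt (g - b)) g
      ≤ ∫ g, ∑ B : Fin K, (Real.exp (τ * (g - b) B - τ ^ 2) * wt (g - b) +
        Real.exp (-τ * (g - b) B - (-τ) ^ 2) * wt (g - b)) := by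
        apply integral_mono _ hint
        · intro g
          simp only
          have hpos : ∀ B : Fin K, 0 ≤ Real.exp (τ * (g - b) B - τ ^ 2) * wt (g - b) +
              Real.exp (-τ * (g - b) B - (-τ) ^ 2) * wt (g - b) := by
            intro B
            have := wt_pos (g - b)
            positivity
          by_cases hg : g ∈ (Gd b τ)ᶜ
          · rw [Set.indicator_of_mem hg]
            rw [Set.mem_compl_iff] at hg
            unfold Gd at hg
            simp only [Set.mem_ofPred_eq, not_forall, not_le] at hg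
            obtain ⟨B, hB⟩ := hg
            refine le_trans ?_ (single_le_sum (fun B _ => hpos B) (mem_univ B))
            have hw := wt_pos (g - b)
            rcases lt_abs.mp hB with h | h
            · have h1 : 1 ≤ Real.exp (τ * (g - b) B - τ ^ 2) := by
                apply Real.one_le_exp
                nlinarith
              have h2 : 0 ≤ Real.exp (-τ * (g - b) B - (-τ) ^ 2) := (Real.exp_pos _).le
              nlinarith
            · have h1 : 1 ≤ Real.exp (-τ * (g - b) B - (-τ) ^ 2) := by
                apply Real.one_le_exp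
                nlinarith
              have h2 : 0 ≤ Real.exp (τ * (g - b) B - τ ^ 2) := (Real.exp_pos _).le
              nlinarith
          · rw [Set.indicator_of_notMem hg]
            exact sum_nonneg fun B _ => hpos B
        · exact (integrable_wt_sub b).indicator (measurableSet_Gd b τ).compl
    _ = _ := by
        rw [integral_finsetSum]
        · have h1 : ∀ B : Fin K, ∫ g : VV K, (Real.exp (τ * (g - b) B - τ ^ 2) * wt (g - b) +
              Real.exp (-τ * (g - b) B - (-τ) ^ 2) * wt (g - b)) =
              2 * (Real.exp (-(τ ^ 2 / 2)) * cV K) := by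
            intro B
            rw [integral_add (integrable_coord b B τ) (integrable_coord b B (-τ)),
              coord_tail, coord_tail, neg_sq]
            ring
          simp_rw [h1]
          rw [sum_const, card_univ, Fintype.card_fin, nsmul_eq_mul]
          ring
        · intro B _
          exact (integrable_coord b B τ).add (integrable_coord b B (-τ))

theorem measurable_Ph : Measurable Ph := by
  have : Antitone Ph := by
    intro u v h
    have := hh_mono h
    unfold hh at this
    linarith
  exact this.measurable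

theorem measurable_W (a : Cube n → Bool) : Measurable fun g : VV K => W (pp ι c g) a := by
  unfold W
  apply Finset.measurable_prod
  intro x _
  unfold pp
  have h := measurable_Ph.comp (measurable_lin ι c x)
  unfold pb
  cases a x
  · simp only [Bool.false_eq_true, if_false]
    exact measurable_const.sub h
  · simp only [if_true]
    exact h

theorem pp_nonneg (g : VV K) (x : Cube n) : 0 ≤ pp ι c g x := Ph_nonneg _

theorem pp_le_one (g : VV K) (x : Cube n) : pp ι c g x ≤ 1 := Ph_le_one _

theorem W_le_one {p : Cube n → ℝ} (h0 : ∀ x, 0 ≤ p x) (h1 : ∀ x, p x ≤ 1) (a : Cube n → Bool) :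
    W p a ≤ 1 := by
  unfold W
  apply prod_le_one
  · intro x _; exact pb_nonneg (h0 x) (h1 x) _
  · intro x _
    unfold pb
    split_ifs
    · exact h1 x
    · have := h0 x; linarith

theorem integrable_W (b : VV K) (a : Cube n → Bool) :
    Integrable fun g : VV K => W (pp ι c g) a * wt (g - b) := by
  apply (integrable_wt_sub b).bdd_mul (c := 1) (measurable_W ι c a).aestronglyMeasurable
  apply Filter.Eventually.of_forall
  intro g
  rw [Real.norm_eq_abs, abs_of_nonneg (W_nonneg (pp_nonneg ι c g) (pp_le_one ι c g) a)]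
  exact W_le_one (pp_nonneg ι c g) (pp_le_one ι c g) a

/-- the weight of a function when the signal is centred at `b` -/
noncomputable def mw (b : VV K) (a : Cube n → Bool) : ℝ := ∫ g : VV K, W (pp ι c g) a * wt (g - b)

theorem mw_nonneg (b : VV K) (a : Cube n → Bool) : 0 ≤ mw ι c b a :=
  integral_nonneg fun g => mul_nonneg (W_nonneg (pp_nonneg ι c g) (pp_le_one ι c g) a)
    (wt_pos _).le

theorem integrable_Ex (b : VV K) (h : (Cube n → Bool) → ℝ) :
    Integrable fun g : VV K => Ex (pp ι c g) h * wt (g - b) := by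
  unfold Ex
  simp_rw [sum_mul]
  apply integrable_finsetSum
  intro a _
  refine ((integrable_W ι c b a).mul_const (h a)).congr (Filter.Eventually.of_forall fun g => ?_)
  simp only
  ring

theorem integral_Ex (b : VV K) (h : (Cube n → Bool) → ℝ) :
    ∫ g : VV K, Ex (pp ι c g) h * wt (g - b) = ∑ a, mw ι c b a * h a := by
  unfold Ex
  simp_rw [sum_mul]
  rw [integral_finsetSum]
  · apply sum_congr rfl
    intro a _
    unfold mw
    rw [← integral_mul_const]
    congr 1
    funext g
    ring
  · intro a _
    refine ((integrable_W ι c b a).mul_const (h a)).congr (Filter.Eventually.of_forall fun g => ?_)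
    simp only
    ring

theorem sum_mw (b : VV K) : ∑ a : Cube n → Bool, mw ι c b a = cV K := by
  have h := integral_Ex ι c b (fun _ : Cube n → Bool => (1 : ℝ))
  simp_rw [Ex_const, one_mul, mul_one] at h
  rw [← h, integral_wt_sub]

theorem fail_le (b : VV K) {τ : ℝ} (hτ : 0 ≤ τ) {h : (Cube n → Bool) → ℝ}
    (h1 : ∀ a, h a ≤ 1) {δ : ℝ} (hδ : 0 ≤ δ)
    (hg : ∀ g ∈ Gd b τ, Ex (pp ι c g) h ≤ δ) :
    ∑ a, mw ι c b a * h a ≤ (δ + 2 * K * Real.exp (-(τ ^ 2 / 2))) * cV K := by
  rw [← integral_Ex]
  have h2 : ∀ g : VV K, Ex (pp ι c g) h * wt (g - b) ≤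
      δ * wt (g - b) + (Gd b τ)ᶜ.indicator (fun g => wt (g - b)) g := by
    intro g
    have hw := wt_pos (g - b)
    by_cases hgm : g ∈ Gd b τ
    · rw [Set.indicator_of_notMem (by simpa using hgm), add_zero]
      exact mul_le_mul_of_nonneg_right (hg g hgm) hw.le
    · rw [Set.indicator_of_mem (by simpa using hgm)]
      have h3 : Ex (pp ι c g) h ≤ 1 := by
        have := Ex_mono (pp_nonneg ι c g) (pp_le_one ι c g) (g := h) (g' := fun _ => 1)
          (fun a _ => h1 a)
        rwa [Ex_const] at this
      nlinarith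
  calc ∫ g : VV K, Ex (pp ι c g) h * wt (g - b)
      ≤ ∫ g : VV K, (δ * wt (g - b) + (Gd b τ)ᶜ.indicator (fun g => wt (g - b)) g) := by
        apply integral_mono (integrable_Ex ι c b h) _ h2
        exact ((integrable_wt_sub b).const_mul δ).add
          ((integrable_wt_sub b).indicator (measurableSet_Gd b τ).compl)
    _ = δ * cV K + gp b (Gd b τ)ᶜ := by
        rw [integral_add ((integrable_wt_sub b).const_mul δ)
          ((integrable_wt_sub b).indicator (measurableSet_Gd b τ).compl), integral_const_mul,
          integral_wt_sub, integral_indicator (measurableSet_Gd b τ).compl]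
        rfl
    _ ≤ _ := by
        have := gp_Gd b hτ
        linarith

/-- the failure probability in the null model -/
theorem null_fail (hn : 0 < n) (hι : Function.Injective ι) {τ ε : ℝ} (hτ : 0 < τ) (hε : 0 < ε)
    (hk : 1 ≤ k) (hc : c = 2 * ε / (k * τ))
    (hN : (n : ℝ) ^ k * 2 ^ (2 ^ k) * Real.exp (-(2 ^ n * ε ^ 2 / 8)) ≤ 1 / 100)
    (hK : 2 * K * Real.exp (-(τ ^ 2 / 2)) ≤ 1 / 100) :
    ∑ a, mw ι c 0 a * (by classical exact if distK k a ≤ 1 / 2 - 3 / 2 * ε then 1 else 0) ≤
      1 / 50 * cV K := by
  classical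
  have hk0 : (0 : ℝ) < k := by exact_mod_cast hk
  have h1 := fail_le ι c (0 : VV K) hτ.le
    (h := fun a => if distK k a ≤ 1 / 2 - 3 / 2 * ε then 1 else 0)
    (fun a => by split_ifs <;> norm_num) (δ := 1 / 100) (by norm_num) ?_
  · refine h1.trans ?_
    exact mul_le_mul_of_nonneg_right (by linarith) (cV_pos K).le
  · intro g hg
    have h2 := Ex_union (k := k) hn (pp_nonneg ι c g) (pp_le_one ι c g) (t := ε / 2)
      (by positivity)
    have h3 : 2 ^ n * (ε / 2) ^ 2 / 2 = 2 ^ n * ε ^ 2 / 8 := by ring
    rw [h3] at h2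
    refine le_trans ?_ (h2.trans hN)
    apply Ex_mono (pp_nonneg ι c g) (pp_le_one ι c g)
    intro a _
    by_cases ha : distK k a ≤ 1 / 2 - 3 / 2 * ε
    · rw [if_pos ha, if_pos]
      obtain ⟨G, hG, hG2⟩ := exists_distK k a
      refine ⟨G, hG, ?_⟩
      have h4 : ecorr (pp ι c g) G ≤ k * (c * τ) := by
        apply ecorr_le ι c hι (by rw [hc]; positivity) _ hG
        intro B
        have h5 := hg B
        rw [sub_zero] at h5
        rw [abs_mul, abs_of_nonneg (by rw [hc]; positivity)]
        exact mul_le_mul_of_nonneg_left h5 (by rw [hc]; positivity)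
      have h6 : k * (c * τ) = 2 * ε := by
        rw [hc]; field_simp
      rw [← hG2]
      linarith
    · rw [if_neg ha]
      split_ifs <;> norm_num

/-- the failure probability in the planted model -/
theorem planted_fail (hn : 0 < n) (hι : Function.Injective ι) {τ ε : ℝ} (hτ : 0 < τ)
    (hε : 0 < ε) (hε1 : ε ≤ 1 / 600)
    (hk : 1 ≤ k) (hc : c = 2 * ε / (k * τ)) (hKε : K * ε ^ 2 ≤ 1 / 16)
    (hN : (n : ℝ) ^ k * 2 ^ (2 ^ k) * Real.exp (-(2 ^ n * ε ^ 2 / 8)) ≤ 1 / 100)
    (hK : 2 * K * Real.exp (-(τ ^ 2 / 2)) ≤ 1 / 100) (B : Fin K) :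
    ∑ a, mw ι c ((100 * k * τ) • EuclideanSpace.single B (1 : ℝ)) a *
      (by classical exact if 1 / 2 - 4 * ε ≤ distK k a then 1 else 0) ≤
      1 / 50 * cV K := by
  classical
  have hk0 : (0 : ℝ) < k := by exact_mod_cast hk
  have hk1 : (1 : ℝ) ≤ k := by exact_mod_cast hk
  have hc0 : 0 < c := by rw [hc]; positivity
  have hcτ : c * τ = 2 * ε / k := by rw [hc]; field_simp
  have hcτ2 : c * τ ≤ 2 * ε := by rw [hcτ]; exact div_le_self (by positivity) hk1
  have hcΛ : c * (100 * k * τ) = 200 * ε := by rw [hc]; field_simp; norm_num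
  set b : VV K := (100 * k * τ) • EuclideanSpace.single B (1 : ℝ) with hb
  have hbB : b B = 100 * k * τ := by simp [hb]
  have hbB' : ∀ B' ≠ B, b B' = 0 := by intro B' h; simp [hb, h]
  have h1 := fail_le ι c b hτ.le
    (h := fun a => if 1 / 2 - 4 * ε ≤ distK k a then 1 else 0)
    (fun a => by split_ifs <;> norm_num) (δ := 1 / 100) (by norm_num) ?_
  · refine h1.trans ?_
    exact mul_le_mul_of_nonneg_right (by linarith) (cV_pos K).le
  · intro g hg
    have h2 := Ex_single (pp_nonneg ι c g) (pp_le_one ι c g) (t := ε / 2)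
      (by positivity) (fun x => x (ι B))
    have h3 : 2 ^ n * (ε / 2) ^ 2 / 2 = 2 ^ n * ε ^ 2 / 8 := by ring
    rw [h3] at h2
    have hN2 : Real.exp (-(2 ^ n * ε ^ 2 / 8)) ≤ 1 / 100 := by
      refine le_trans ?_ hN
      have h4 : (1 : ℝ) ≤ (n : ℝ) ^ k := one_le_pow₀ (by exact_mod_cast hn)
      have h5 : (1 : ℝ) ≤ 2 ^ (2 ^ k) := one_le_pow₀ (by norm_num)
      have h6 : (1 : ℝ) ≤ (n : ℝ) ^ k * 2 ^ (2 ^ k) := one_le_mul_of_one_le_of_one_le h4 h5
      exact le_mul_of_one_le_left (Real.exp_pos _).le h6
    refine le_trans ?_ (h2.trans hN2)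
    apply Ex_mono (pp_nonneg ι c g) (pp_le_one ι c g)
    intro a _
    by_cases ha : 1 / 2 - 4 * ε ≤ distK k a
    · rw [if_pos ha, if_pos]
      have hgB := hg B
      have e1 : (g - b) B = g B - 100 * k * τ := by rw [PiLp.sub_apply, hbB]
      rw [e1, abs_le] at hgB
      have hlow : 198 * ε ≤ c * g B := by
        have := mul_le_mul_of_nonneg_left hgB.1 hc0.le
        nlinarith
      have hupp : c * g B ≤ 202 * ε := by
        have := mul_le_mul_of_nonneg_left hgB.2 hc0.le
        nlinarith
      have hsum : ∑ B', (c * g B') ^ 2 ≤ 1 / 2 := by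
        rw [← add_sum_erase univ _ (mem_univ B)]
        have e2 : ∑ B' ∈ univ.erase B, (c * g B') ^ 2 ≤ ∑ _B' ∈ univ.erase B, (2 * ε) ^ 2 := by
          apply sum_le_sum
          intro B' hB'
          have h5 := hg B'
          rw [PiLp.sub_apply, hbB' B' (ne_of_mem_erase hB'), sub_zero] at h5
          apply sq_le_sq'
          · have := mul_le_mul_of_nonneg_left (abs_le.mp h5).1 hc0.le
            linarith
          · have := mul_le_mul_of_nonneg_left (abs_le.mp h5).2 hc0.le
            linarith
        rw [sum_const, nsmul_eq_mul] at e2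
        have e3 : ((univ.erase B : Finset (Fin K)).card : ℝ) ≤ K := by
          have : (univ.erase B : Finset (Fin K)).card ≤ (univ : Finset (Fin K)).card :=
            card_le_card (erase_subset _ _)
          rw [card_univ, Fintype.card_fin] at this
          exact_mod_cast this
        have e4 := mul_le_mul_of_nonneg_right e3 (sq_nonneg (2 * ε))
        have e5 : (c * g B) ^ 2 ≤ (202 * ε) ^ 2 := by
          apply pow_le_pow_left₀ (by linarith) hupp
        have e6 : ε ^ 2 ≤ (1 / 600) ^ 2 := pow_le_pow_left₀ hε.le hε1 2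
        nlinarith
      have h4 := le_ecorr ι c hι B (by linarith) (by linarith) hsum
      have hdict : IsJunta k (fun x : Cube n => x (ι B)) :=
        ⟨{ι B}, by simpa using hk, fun x y hxy => hxy _ (by simp)⟩
      have h6 := distK_le (f := a) hdict
      linarith
    · rw [if_neg ha]
      split_ifs <;> norm_num

end Pool.Agent.Work.MP_8f25a0_lc
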